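import Pool.Agent.Lib.MP_ed556a_co.Count

/-! Building trees by joining roots, with exact bookkeeping of the three counts. -/

namespace Pool.Agent.Prof5

open SimpleGraph Finset

open Classical in
noncomputable def nb {V : Type} [Fintype V] (G : SimpleGraph V) (u : V) (g : V → ℝ) : ℝ :=
  ∑ v, if G.Adj u v then g v else 0

theorem nb_eq {V : Type} [Fintype V] (G : SimpleGraph V) [DecidableRel G.Adj] (u : V)
    (g : V → ℝ) : nb G u g = ∑ v ∈ G.neighborFinset u, g v := by
  classical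
  unfold nb
  rw [neighborFinset_eq_filter, Finset.sum_filter]
  exact Finset.sum_congr rfl fun v _ => by split_ifs <;> rfl

def joinG {V W : Type} (G : SimpleGraph V) (r : V) (H : SimpleGraph W) (s : W) :
    SimpleGraph (V ⊕ W) := G.sum H ⊔ edge (Sum.inl r) (Sum.inr s)

section
variable {V W : Type} [Fintype V] [Fintype W] {G : SimpleGraph V} {H : SimpleGraph W} {r : V}
  {s : W}

theorem joinG_tree (hG : G.IsTree) (hH : H.IsTree) : (joinG G r H s).IsTree := by
  classical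
  rw [isTree_iff_connected_and_card] at hG hH ⊢
  refine ⟨hG.1.sum_sup_edge hH.1, ?_⟩
  have h1 := card_edgeFinset_sup_edge (G.sum H) (s := Sum.inl r) (t := Sum.inr s) (by simp)
    (by simp)
  have h2 : Nat.card (G.sum H).edgeSet = Nat.card G.edgeSet + Nat.card H.edgeSet := by
    rw [Nat.card_congr edgeSetSumEquiv, Nat.card_sum]
  rw [edgeFinset_card, edgeFinset_card, ← Nat.card_eq_fintype_card, ← Nat.card_eq_fintype_card,
    h2] at h1
  unfold joinG
  rw [h1, Nat.card_sum]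
  omega

theorem nb_inl (u : V) (g : V ⊕ W → ℝ) (hu : u ≠ r) :
    nb (joinG G r H s) (Sum.inl u) g = nb G u (fun v => g (Sum.inl v)) := by
  classical
  simp [nb, joinG, Fintype.sum_sum_type, edge_adj, hu]

theorem nb_inl_root (g : V ⊕ W → ℝ) :
    nb (joinG G r H s) (Sum.inl r) g = nb G r (fun v => g (Sum.inl v)) + g (Sum.inr s) := by
  classical
  simp [nb, joinG, Fintype.sum_sum_type, edge_adj]

theorem nb_inr (u : W) (g : V ⊕ W → ℝ) (hu : u ≠ s) :
    nb (joinG G r H s) (Sum.inr u) g = nb H u (fun v => g (Sum.inr v)) := by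
  classical
  simp [nb, joinG, Fintype.sum_sum_type, edge_adj, hu]

theorem nb_inr_root (g : V ⊕ W → ℝ) :
    nb (joinG G r H s) (Sum.inr s) g = g (Sum.inl r) + nb H s (fun v => g (Sum.inr v)) := by
  classical
  simp [nb, joinG, Fintype.sum_sum_type, edge_adj]

theorem sum_sub_congr {f g : V → ℝ} (r : V) (h : ∀ u, u ≠ r → f u = g u) :
    ∑ u, f u - f r = ∑ u, g u - g r := by
  classical
  rw [← Finset.add_sum_erase univ f (Finset.mem_univ r),
    ← Finset.add_sum_erase univ g (Finset.mem_univ r),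
    Finset.sum_congr rfl fun u hu => h u (Finset.mem_erase.1 hu).1]
  ring

end

noncomputable def pT {V : Type} [Fintype V] (G : SimpleGraph V) (w : V → ℝ) (u : V) : ℝ :=
  nb G u w ^ 2 - nb G u (fun v => w v ^ 2)

noncomputable def yT {V : Type} [Fintype V] (G : SimpleGraph V) (w : V → ℝ) (u : V) : ℝ :=
  w u * (w u - 1) * nb G u w

noncomputable def sT (z : ℝ) : ℝ := (z + 1) * z * (z - 1) * (z - 2)

/-- Bookkeeping data of a rooted tree. -/
structure St where
  d : ℝ
  A : ℝ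
  A2 : ℝ
  P0 : ℝ
  P1 : ℝ
  Y0 : ℝ
  Y1 : ℝ
  S : ℝ
  n : ℕ

def Rl (t : St) : Prop :=
  ∃ (V : Type) (_ : Fintype V) (G : SimpleGraph V) (r : V), G.IsTree ∧ Fintype.card V = t.n ∧
    nb G r (fun _ => 1) = t.d ∧
    ∀ w : V → ℝ, (∀ u, u ≠ r → w u = nb G u (fun _ => 1) - 1) →
      nb G r w = t.A ∧ nb G r (fun v => w v ^ 2) = t.A2 ∧
      ∑ u, pT G w u - pT G w r = t.P0 + t.P1 * w r ∧
      ∑ u, yT G w u - yT G w r = t.Y0 + t.Y1 * w r ∧
      ∑ u, sT (w u) - sT (w r) = t.S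

def St.one : St := ⟨0, 0, 0, 0, 0, 0, 0, 0, 1⟩

noncomputable def St.join (t s : St) : St :=
  ⟨t.d + 1, t.A + s.d, t.A2 + s.d ^ 2, t.P0 + (s.P0 + s.P1 * s.d) + (s.A ^ 2 - s.A2),
    t.P1 + 2 * s.A, t.Y0 + (s.Y0 + s.Y1 * s.d) + s.d * (s.d - 1) * s.A, t.Y1 + s.d * (s.d - 1),
    t.S + s.S + sT s.d, t.n + s.n⟩

theorem Rl_one : Rl St.one := by
  refine ⟨Unit, inferInstance, ⊥, (), IsTree.of_subsingleton, rfl, by simp [nb, St.one], ?_⟩
  intro w _
  simp [nb, St.one]

theorem Rl_join {t s : St} (ht : Rl t) (hs : Rl s) : Rl (t.join s) := by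
  obtain ⟨V, _, G, r, hG, hn, hd, hw⟩ := ht
  obtain ⟨W, _, H, q, hH, hn', hd', hw'⟩ := hs
  refine ⟨V ⊕ W, inferInstance, joinG G r H q, Sum.inl r, joinG_tree hG hH, ?_, ?_, ?_⟩
  · rw [Fintype.card_sum, hn, hn']; rfl
  · rw [nb_inl_root, hd]; rfl
  · intro w h
    have hq : w (Sum.inr q) = s.d := by
      rw [h _ (by simp), nb_inr_root, hd']; ring
    obtain ⟨a1, a2, a3, a4, a5⟩ := hw (fun v => w (Sum.inl v)) (fun u hu => by
      rw [h _ (by simpa using hu), nb_inl u _ hu])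
    obtain ⟨b1, b2, b3, b4, b5⟩ := hw' (fun v => w (Sum.inr v)) (fun u hu => by
      rw [h _ (by simp), nb_inr u _ hu])
    simp only [hq] at b3 b4 b5
    refine ⟨?_, ?_, ?_, ?_, ?_⟩
    · rw [nb_inl_root, a1, hq]; rfl
    · rw [nb_inl_root, a2, hq]; rfl
    · have c1 := sum_sub_congr (f := fun u => pT (joinG G r H q) w (Sum.inl u))
        (g := pT G fun v => w (Sum.inl v)) r (fun u hu => by
          simp only [pT, nb_inl u _ hu])
      have c2 := sum_sub_congr (f := fun u => pT (joinG G r H q) w (Sum.inr u))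
        (g := pT H fun v => w (Sum.inr v)) q (fun u hu => by
          simp only [pT, nb_inr u _ hu])
      have c3 : pT (joinG G r H q) w (Sum.inr q) =
          (w (Sum.inl r) + s.A) ^ 2 - (w (Sum.inl r) ^ 2 + s.A2) := by
        simp only [pT, nb_inr_root, b1, b2]
      rw [Fintype.sum_sum_type]
      simp only [St.join]
      linarith
    · have c1 := sum_sub_congr (f := fun u => yT (joinG G r H q) w (Sum.inl u))
        (g := yT G fun v => w (Sum.inl v)) r (fun u hu => by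
          simp only [yT, nb_inl u _ hu])
      have c2 := sum_sub_congr (f := fun u => yT (joinG G r H q) w (Sum.inr u))
        (g := yT H fun v => w (Sum.inr v)) q (fun u hu => by
          simp only [yT, nb_inr u _ hu])
      have c3 : yT (joinG G r H q) w (Sum.inr q) =
          s.d * (s.d - 1) * (w (Sum.inl r) + s.A) := by
        simp only [yT, nb_inr_root, b1, hq]
      rw [Fintype.sum_sum_type]
      simp only [St.join]
      linarith
    · rw [Fintype.sum_sum_type]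
      simp only [St.join]
      linarith

/-- A root with k leaves. -/
def St.star (k : ℕ) : St := ⟨k, 0, 0, 0, 0, 0, 0, 0, 1 + k⟩

theorem Rl_star (k : ℕ) : Rl (St.star k) := by
  induction k with
  | zero => simpa [St.star, St.one] using Rl_one
  | succ k ih =>
    have := Rl_join ih Rl_one
    simpa [St.star, St.one, St.join, sT, add_assoc] using this

/-- A root with k leaves and one further child. -/
noncomputable def St.node (k : ℕ) (s : St) : St := (St.star k).join s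

theorem Rl_node (k : ℕ) {s : St} (h : Rl s) : Rl (s.node k) := Rl_join (Rl_star k) h

theorem Rl_final {t : St} (h : Rl t) : ∃ G : SimpleGraph (Fin t.n), G.IsTree ∧
    2 * (G.copyCount T1 : ℝ) = t.P0 + t.P1 * (t.d - 1) + (t.A ^ 2 - t.A2) ∧
    24 * (G.copyCount T2 : ℝ) = t.S + sT (t.d - 1) ∧
    2 * (G.copyCount T3 : ℝ) = t.Y0 + t.Y1 * (t.d - 1) + (t.d - 1) * (t.d - 1 - 1) * t.A := by
  classical
  obtain ⟨V, _, G, r, hG, hn, hd, hw⟩ := h
  have e := G.overFinIso hn
  have hdeg : ∀ u, wt G u = nb G u (fun _ => 1) - 1 := by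
    intro u
    rw [nb_eq, Finset.sum_const, card_neighborFinset_eq_degree, nsmul_eq_mul, mul_one]; rfl
  obtain ⟨a1, a2, a3, a4, a5⟩ := hw (wt G) (fun u _ => hdeg u)
  have hr : wt G r = t.d - 1 := by rw [hdeg, hd]
  refine ⟨G.overFin hn, e.isTree_iff.1 hG, ?_, ?_, ?_⟩
  · rw [← copyCount_iso e T1 r1 hr1 (by rw [aut1]; norm_num), countP hG.isAcyclic]
    have : pT G (wt G) r = t.A ^ 2 - t.A2 := by simp only [pT, a1, a2]
    rw [this, hr] at a3
    simp only [pT, nb_eq] at a3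
    linarith
  · rw [← copyCount_iso e T2 r2 hr2 (by rw [aut2]; norm_num), countS]
    rw [hr] at a5
    simp only [sT] at a5 ⊢
    linarith
  · rw [← copyCount_iso e T3 r3 hr3 (by rw [aut3]; norm_num), countY hG.isAcyclic]
    have : yT G (wt G) r = (t.d - 1) * (t.d - 1 - 1) * t.A := by simp only [yT, a1, hr]
    rw [this, hr] at a4
    simp only [yT, nb_eq] at a4
    linarith

/-- Rooted trees whose root and whose only inner child both get weight x. -/
def Ifc (x P S Y : ℝ) (n : ℕ) : Prop :=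
  ∃ t : St, Rl t ∧ t.d = x ∧ t.A = x ∧ t.A2 = x ^ 2 ∧ t.P0 + t.P1 * x = 2 * P ∧ t.S = 24 * S ∧
    t.Y0 + t.Y1 * x = 2 * Y ∧ n ≤ t.n

theorem Ifc_base : Ifc 1 0 0 0 0 :=
  ⟨(St.one.node 0).node 0, Rl_node 0 (Rl_node 0 Rl_one), by
    simp [St.node, St.star, St.one, St.join, sT]⟩

theorem Ifc_final {P S Y : ℝ} {n : ℕ} (h : Ifc 1 P S Y n) :
    ∃ (m : ℕ) (G : SimpleGraph (Fin m)), n ≤ m ∧ G.IsTree ∧ (G.copyCount T1 : ℝ) = P ∧
      (G.copyCount T2 : ℝ) = S ∧ (G.copyCount T3 : ℝ) = Y := by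
  obtain ⟨t, ht, h1, h2, h3, h4, h5, h6, h7⟩ := h
  obtain ⟨G, hG, a1, a2, a3⟩ := Rl_final (Rl_node 0 ht)
  refine ⟨_, G, ?_, hG, ?_, ?_, ?_⟩
  · simp only [St.node, St.join]; omega
  all_goals
    generalize (G.copyCount T1 : ℝ) = c1 at *
    generalize (G.copyCount T2 : ℝ) = c2 at *
    generalize (G.copyCount T3 : ℝ) = c3 at *
    simp only [St.node, St.star, St.join, sT, h1, h2, h3] at a1 a2 a3
    push_cast at a1 a2 a3
    linarith

/-- A block can be put on top of any interface tree and adds (P, S, Y) to the counts. -/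
def Block (b : ℝ × ℝ × ℝ) : Prop :=
  0 < b.1 + b.2.1 + b.2.2 ∧
    ∀ P S Y n, Ifc 1 P S Y n → Ifc 1 (P + b.1) (S + b.2.1) (Y + b.2.2) (n + 1)

theorem Ifc.mono {x P S Y : ℝ} {n m : ℕ} (h : Ifc x P S Y n) (hm : m ≤ n) : Ifc x P S Y m := by
  obtain ⟨t, ht, h1, h2, h3, h4, h5, h6, h7⟩ := h
  exact ⟨t, ht, h1, h2, h3, h4, h5, h6, hm.trans h7⟩

theorem Block.add {b c : ℝ × ℝ × ℝ} (hb : Block b) (hc : Block c) : Block (b + c) := by
  refine ⟨by have := hb.1; have := hc.1; simp only [Prod.fst_add, Prod.snd_add]; linarith, ?_⟩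
  intro P S Y n h
  have := (hc.2 _ _ _ _ (hb.2 _ _ _ _ h)).mono (Nat.le_succ _)
  simpa only [Prod.fst_add, Prod.snd_add, add_assoc] using this

theorem Block.nsmul {b : ℝ × ℝ × ℝ} (hb : Block b) (m : ℕ) (hm : 1 ≤ m) : Block ((m:ℝ) • b) := by
  induction m, hm using Nat.le_induction with
  | base => simpa using hb
  | succ m _ ih => rw [Nat.cast_succ, add_smul, one_smul]; exact ih.add hb

theorem Block.iter {b : ℝ × ℝ × ℝ} (hb : Block b) (m : ℕ) :
    Ifc 1 (m * b.1) (m * b.2.1) (m * b.2.2) m := by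
  induction m with
  | zero => simpa using Ifc_base
  | succ m ih =>
    have := hb.2 _ _ _ _ ih
    push_cast
    simpa only [add_mul, one_mul] using this

theorem block_path : Block (1, 0, 0) := by
  refine ⟨by norm_num, ?_⟩
  rintro P S Y n ⟨t, ht, h1, h2, h3, h4, h5, h6, h7⟩
  refine ⟨t.node 0, Rl_node 0 ht, ?_⟩
  simp only [St.node, St.star, St.join, sT, h1, h2, h3]
  push_cast
  refine ⟨by ring, by ring, by ring, by linarith, by linarith, by linarith, by omega⟩

theorem block_c1 : Block (58, 40, 252) := by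
  refine ⟨by norm_num, ?_⟩
  rintro P S Y n ⟨t, ht, h1, h2, h3, h4, h5, h6, h7⟩
  refine ⟨(((((t.node 3).node 4).node 4).node 3).node 0).node 0,
    Rl_node _ (Rl_node _ (Rl_node _ (Rl_node _ (Rl_node _ (Rl_node _ ht))))), ?_⟩
  simp only [St.node, St.star, St.join, sT, h1, h2, h3]
  push_cast
  refine ⟨by ring, by ring, by ring, by linarith, by linarith, by linarith, by omega⟩

theorem block_c2 : Block (34, 25, 152) := by
  refine ⟨by norm_num, ?_⟩
  rintro P S Y n ⟨t, ht, h1, h2, h3, h4, h5, h6, h7⟩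
  refine ⟨((((t.node 3).node 4).node 3).node 0).node 0,
    Rl_node _ (Rl_node _ (Rl_node _ (Rl_node _ (Rl_node _ ht)))), ?_⟩
  simp only [St.node, St.star, St.join, sT, h1, h2, h3]
  push_cast
  refine ⟨by ring, by ring, by ring, by linarith, by linarith, by linarith, by omega⟩

theorem block_star (k : ℕ) :
    Block (2 * (k + 1) + 1, sT (k + 1) / 24, ((k:ℝ) + 1) * k) := by
  have hk : (0:ℝ) ≤ k := Nat.cast_nonneg k
  refine ⟨?_, ?_⟩
  · have : 0 ≤ sT (k + 1) := by
      rcases k with _ | k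
      · simp [sT]
      · unfold sT; push_cast
        have : (0:ℝ) ≤ k := Nat.cast_nonneg k
        have h1 : (0:ℝ) ≤ (k:ℝ) + 1 + 1 - 1 := by linarith
        have h2 : (0:ℝ) ≤ (k:ℝ) + 1 + 1 - 2 := by linarith
        positivity
    positivity
  rintro P S Y n ⟨t, ht, h1, h2, h3, h4, h5, h6, h7⟩
  refine ⟨((t.node k).node 0).node 0, Rl_node _ (Rl_node _ (Rl_node _ ht)), ?_⟩
  simp only [St.node, St.star, St.join, sT, h1, h2, h3]
  push_cast
  refine ⟨by ring, by ring, by ring, by linarith, by linarith, by linarith, by omega⟩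

theorem block_hub {P S Y : ℝ} (h : Ifc 1 P S Y 0) (hp : 0 ≤ P + S + Y) :
    Block (2 * P + 18, 2 * S + 1, 2 * Y + 12) := by
  refine ⟨by simp only []; linarith, ?_⟩
  obtain ⟨a, ha, g1, g2, g3, g4, g5, g6, -⟩ := h
  rintro P' S' Y' n ⟨t, ht, h1, h2, h3, h4, h5, h6, h7⟩
  refine ⟨((((t.node 0).join a).join a).node 0).node 0,
    Rl_node _ (Rl_node _ (Rl_join (Rl_join (Rl_node _ ht) ha) ha)), ?_⟩
  simp only [St.node, St.star, St.join, sT, h1, h2, h3, g1, g2, g3]
  push_cast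
  refine ⟨by ring, by ring, by ring, by linarith, by linarith, by linarith, by omega⟩

theorem arm2 (k : ℕ) : Ifc 1 (2 * (k + 1)) (sT (k + 1) / 12)
    (((k:ℝ) + 1) ^ 2 * k + (k + 1) * k / 2) 0 := by
  refine ⟨(((St.star (k + 1)).node k).node 0).node 0,
    Rl_node _ (Rl_node _ (Rl_node _ (Rl_star _))), ?_⟩
  simp only [St.node, St.star, St.join, sT]
  push_cast
  refine ⟨by ring, by ring, by ring, by ring, by ring, by ring, by omega⟩

theorem arm3 (a b c : ℕ) : Ifc 1 ((a + 1) + (b + 1) + (a + 1) * c)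
    ((sT (a + 1) + sT (b + 1) + sT c) / 24)
    (((a:ℝ) + 1) * a / 2 + (a + 1) * (b + 1) * (a + b) / 2 + (b + 1) * c * (b + c - 1) / 2) 0 := by
  refine ⟨((((St.star c).node b).node a).node 0).node 0,
    Rl_node _ (Rl_node _ (Rl_node _ (Rl_node _ (Rl_star _)))), ?_⟩
  simp only [St.node, St.star, St.join, sT]
  push_cast
  refine ⟨by ring, by ring, by ring, by ring, by ring, by ring, by omega⟩

theorem arm4 : Ifc 1 58 80 378 0 := by
  refine ⟨(((((St.star 4).node 5).node 5).node 3).node 0).node 0,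
    Rl_node _ (Rl_node _ (Rl_node _ (Rl_node _ (Rl_node _ (Rl_star _))))), ?_⟩
  simp only [St.node, St.star, St.join, sT]
  push_cast
  refine ⟨by ring, by ring, by ring, by ring, by ring, by ring, by simp⟩

theorem block_mill (k L : ℕ) :
    Block ((L:ℝ) • ((((k:ℝ) + 1) ^ 2, sT (k + 1) / 24, ((k:ℝ) + 1) ^ 2 * k) : ℝ × ℝ × ℝ) +
      ((4 * ((k:ℝ) + 1), sT (k + 1) / 12, ((k:ℝ) + 1) ^ 2 * k + (k + 1) * k) : ℝ × ℝ × ℝ)) := by
  have hk : (0:ℝ) ≤ k := Nat.cast_nonneg k
  have hL : (0:ℝ) ≤ L := Nat.cast_nonneg L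
  simp only [Prod.smul_mk, Prod.mk_add_mk, smul_eq_mul]
  refine ⟨?_, ?_⟩
  · have : 0 ≤ sT (k + 1) := by
      rcases k with _ | k
      · simp [sT]
      · unfold sT; push_cast
        have : (0:ℝ) ≤ k := Nat.cast_nonneg k
        have h1 : (0:ℝ) ≤ (k:ℝ) + 1 + 1 - 1 := by linarith
        have h2 : (0:ℝ) ≤ (k:ℝ) + 1 + 1 - 2 := by linarith
        positivity
    positivity
  rintro P S Y n ⟨t, ht, h1, h2, h3, h4, h5, h6, h7⟩
  have key : Ifc (k + 1) (P + 2 * (k + 1) + L * (k + 1) ^ 2)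
      (S + sT (k + 1) / 24 + L * (sT (k + 1) / 24))
      (Y + (((k:ℝ) + 1) ^ 2 * k + (k + 1) * k) / 2 + L * ((k + 1) ^ 2 * k)) n := by
    clear hL
    induction L with
    | zero =>
      refine ⟨(t.node k).node k, Rl_node _ (Rl_node _ ht), ?_⟩
      simp only [St.node, St.star, St.join, sT, h1, h2, h3]
      push_cast
      refine ⟨?_, ?_, ?_, ?_, ?_, ?_, ?_⟩ <;> first | trivial | omega | linarith
    | succ L ih =>
      obtain ⟨a, ha, g1, g2, g3, g4, g5, g6, g7⟩ := ih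
      refine ⟨a.node k, Rl_node _ ha, ?_⟩
      simp only [St.node, St.star, St.join, g1, g2, g3]
      push_cast
      refine ⟨?_, ?_, ?_, ?_, ?_, ?_, ?_⟩ <;> first | trivial | omega | linarith
  obtain ⟨a, ha, g1, g2, g3, g4, g5, g6, g7⟩ := key
  refine ⟨(a.node 0).node 0, Rl_node _ (Rl_node _ ha), ?_⟩
  have s1 : sT 1 = 0 := by simp [sT]
  simp only [St.node, St.star, St.join, g1, g2, g3]
  push_cast
  simp only [zero_add, s1]
  refine ⟨?_, ?_, ?_, ?_, ?_, ?_, ?_⟩ <;> first | trivial | omega | linarith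

end Pool.Agent.Prof5
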