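import Mathlib

/-! A kernel-evaluated checker on natural numbers, with the specification of each part. -/

namespace Pool.Agent.Prof5

def s24 (c : ℕ) : ℕ := (c + 1) * c * (c - 1) * (c - 2)

noncomputable def frc {α : Type} (x : ℕ) (f : ℕ → α) : α :=
  Nat.rec (f 0) (fun n _ => f n) (Nat.add x 1)

theorem frc_eq {α : Type} (x : ℕ) (f : ℕ → α) : frc x f = f x := rfl

theorem bool_rec_ble {α : Type} (a b : ℕ) (u v : α) :
    (Bool.rec u v (Nat.ble a b) : α) = if a ≤ b then v else u := by
  cases h : Nat.ble a b
  · have : ¬ a ≤ b := fun h' => by rw [Nat.ble_eq_true_of_le h'] at h; cases h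
    simp [this]
  · have := Nat.le_of_ble_eq_true h
    simp [this]

noncomputable def step2 (us : List ℕ) : List ℕ → ℕ → ℕ :=
  List.rec (fun _ b => b)
    (fun u _ ih ws b =>
      List.rec b (fun w ws' _ =>
        Bool.rec (ih ws' b) (ih ws' (Nat.add u w)) (Nat.ble b (Nat.add u w))) ws) us

theorem step2_cons (u w : ℕ) (us ws : List ℕ) (b : ℕ) :
    step2 (u :: us) (w :: ws) b = step2 us ws (max b (u + w)) := by
  have h : step2 (u :: us) (w :: ws) b =
      Bool.rec (step2 us ws b) (step2 us ws (u + w)) (Nat.ble b (u + w)) := rfl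
  rw [h, bool_rec_ble]
  split_ifs with h1
  · rw [max_eq_right h1]
  · rw [max_eq_left (by omega)]

theorem step2_spec (us : List ℕ) : ∀ (ws : List ℕ) (b : ℕ), b ≤ step2 us ws b ∧
    ∀ k, k < us.length → k < ws.length → us.getD k 0 + ws.getD k 0 ≤ step2 us ws b := by
  induction us with
  | nil => intro ws b; exact ⟨le_rfl, fun k hk => by simp at hk⟩
  | cons u us ih =>
    intro ws b
    cases ws with
    | nil => exact ⟨le_rfl, fun k _ hk => by simp at hk⟩
    | cons w ws =>
      rw [step2_cons]
      obtain ⟨h1, h2⟩ := ih ws (max b (u + w))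
      refine ⟨(le_max_left _ _).trans h1, fun k hk hk' => ?_⟩
      cases k with
      | zero => simpa using (le_max_right _ _).trans h1
      | succ k => simpa using h2 k (by simpa using hk) (by simpa using hk')

noncomputable def pad (A L : ℕ) (m : ℕ) : ℕ → List ℕ :=
  Nat.rec (fun _ => [])
    (fun _ ih j => frc (A * (L * L - j * j)) fun z => z :: frc (Nat.succ j) ih) m

theorem pad_spec (A L m : ℕ) : ∀ j, (pad A L m j).length = m ∧
    ∀ i, i < m → (pad A L m j).getD i 0 = A * (L * L - (j + i) * (j + i)) := by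
  induction m with
  | zero => intro j; exact ⟨rfl, fun i hi => by omega⟩
  | succ m ih =>
    intro j
    have h : pad A L (m + 1) j = A * (L * L - j * j) :: pad A L m (j + 1) := rfl
    rw [h]
    refine ⟨by simp [(ih (j + 1)).1], fun i hi => ?_⟩
    cases i with
    | zero => simp
    | succ i =>
      have := (ih (j + 1)).2 i (by omega)
      rw [List.getD_cons_succ, this, show j + 1 + i = j + (i + 1) by omega]

noncomputable def toU (A : ℕ) (vs : List ℕ) : ℕ → List ℕ :=
  List.rec (fun _ => [])
    (fun v _ ih c => frc (2 * v + A * (c * c)) fun z => z :: frc (Nat.succ c) ih) vs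

theorem toU_spec (A : ℕ) (vs : List ℕ) : ∀ c, (toU A vs c).length = vs.length ∧
    ∀ k, k < vs.length → (toU A vs c).getD k 0 = 2 * vs.getD k 0 + A * ((c + k) * (c + k)) := by
  induction vs with
  | nil => intro c; exact ⟨rfl, fun k hk => by simp at hk⟩
  | cons v vs ih =>
    intro c
    have h : toU A (v :: vs) c = (2 * v + A * (c * c)) :: toU A vs (c + 1) := rfl
    rw [h]
    refine ⟨by simp [(ih (c + 1)).1], fun k hk => ?_⟩
    cases k with
    | zero => simp
    | succ k =>
      have := (ih (c + 1)).2 k (by simpa using hk)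
      rw [List.getD_cons_succ, List.getD_cons_succ, this, show c + 1 + k = c + (k + 1) by omega]

noncomputable def unl2 (A L : ℕ) (us : List ℕ) (q : ℕ) : List ℕ → List ℕ :=
  Nat.rec (fun ws => ws)
    (fun q ih ws => frc (step2 us ws (A * (L * L - (q + 1) * (q + 1)))) fun w => ih (w :: ws)) q

def InvB (A L Q : ℕ) (us : List ℕ) (q : ℕ) (ws : List ℕ) : Prop :=
  ws.length + q = L ∧ ∀ i, q + 1 + i ≤ L →
    A * (L * L - (q + 1 + i) * (q + 1 + i)) ≤ ws.getD i 0 ∧
    (Q < q + 1 + i → ws.getD i 0 = A * (L * L - (q + 1 + i) * (q + 1 + i))) ∧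
    (q + 1 + i ≤ Q → ∀ k, k < us.length → us.getD k 0 + ws.getD (i + 1 + k) 0 ≤ ws.getD i 0)

theorem unl2_inv (A Q : ℕ) (us : List ℕ) (q : ℕ) : ∀ ws, q ≤ Q →
    InvB A (Q + us.length) Q us q ws →
    InvB A (Q + us.length) Q us 0 (unl2 A (Q + us.length) us q ws) := by
  induction q with
  | zero => intro ws _ h; exact h
  | succ q ih =>
    intro ws hq h
    have e : unl2 A (Q + us.length) us (q + 1) ws = unl2 A (Q + us.length) us q
        (step2 us ws (A * ((Q + us.length) * (Q + us.length) - (q + 1) * (q + 1))) :: ws) := rfl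
    rw [e]
    apply ih _ (by omega)
    obtain ⟨hl, hi⟩ := h
    refine ⟨by simp; omega, fun i hiL => ?_⟩
    cases i with
    | zero =>
      obtain ⟨h1, h2⟩ := step2_spec us ws
        (A * ((Q + us.length) * (Q + us.length) - (q + 1) * (q + 1)))
      refine ⟨by simpa using h1, fun h3 => by omega, fun _ k hk => ?_⟩
      have := h2 k hk (by omega)
      rw [show 0 + 1 + k = k + 1 by omega, List.getD_cons_succ, List.getD_cons_zero]
      exact this
    | succ i =>
      obtain ⟨h1, h2, h3⟩ := hi i (by omega)
      rw [show q + 1 + (i + 1) = q + 1 + 1 + i by omega, List.getD_cons_succ]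
      refine ⟨h1, h2, fun h4 k hk => ?_⟩
      rw [show i + 1 + 1 + k = (i + 1 + k) + 1 by omega, List.getD_cons_succ]
      exact h3 h4 k hk

theorem unl2_spec (A Q : ℕ) (us : List ℕ) :
    InvB A (Q + us.length) Q us 0
      (unl2 A (Q + us.length) us Q (pad A (Q + us.length) us.length (Q + 1))) := by
  apply unl2_inv _ _ _ _ _ le_rfl
  obtain ⟨h1, h2⟩ := pad_spec A (Q + us.length) us.length (Q + 1)
  refine ⟨by omega, fun i hi => ?_⟩
  rw [h2 i (by omega)]
  exact ⟨le_rfl, fun _ => rfl, fun h => by omega⟩

noncomputable def layer2 (us : List ℕ) (m : ℕ) : List ℕ → List ℕ :=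
  Nat.rec (fun l => l)
    (fun _ ih l => List.rec [] (fun w ws _ => frc (step2 us ws w) fun z => z :: ih ws) l) m

theorem layer2_spec (us : List ℕ) (m : ℕ) : ∀ l : List ℕ, (layer2 us m l).length = l.length ∧
    ∀ i, l.getD i 0 ≤ (layer2 us m l).getD i 0 ∧
      (m ≤ i → (layer2 us m l).getD i 0 = l.getD i 0) ∧
      (i < m → ∀ k, k < us.length → i + 1 + k < l.length →
        us.getD k 0 + l.getD (i + 1 + k) 0 ≤ (layer2 us m l).getD i 0) := by
  induction m with
  | zero => intro l; exact ⟨rfl, fun i => ⟨le_rfl, fun _ => rfl, fun h => by omega⟩⟩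
  | succ m ih =>
    intro l
    cases l with
    | nil => exact ⟨rfl, fun i => ⟨le_rfl, fun _ => rfl, fun _ k _ h => by simp at h⟩⟩
    | cons w ws =>
      have e : layer2 us (m + 1) (w :: ws) = step2 us ws w :: layer2 us m ws := rfl
      rw [e]
      obtain ⟨h1, h2⟩ := ih ws
      refine ⟨by simp [h1], fun i => ?_⟩
      cases i with
      | zero =>
        obtain ⟨h3, h4⟩ := step2_spec us ws w
        refine ⟨by simpa using h3, fun h => by omega, fun _ k hk hk' => ?_⟩
        rw [show 0 + 1 + k = k + 1 by omega, List.getD_cons_succ, List.getD_cons_zero]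
        exact h4 k hk (by simp at hk'; omega)
      | succ i =>
        obtain ⟨h3, h4, h5⟩ := h2 i
        rw [List.getD_cons_succ, List.getD_cons_succ]
        refine ⟨h3, fun h => h4 (by omega), fun h k hk hk' => ?_⟩
        rw [show i + 1 + 1 + k = (i + 1 + k) + 1 by omega, List.getD_cons_succ]
        exact h5 (by omega) k hk (by simp at hk'; omega)

noncomputable def layers2 (A L Q : ℕ) (us : List ℕ) (k : ℕ) : List ℕ :=
  Nat.rec (pad A L L 1) (fun _ ih => layer2 us Q ih) k

theorem layers2_succ (A L Q : ℕ) (us : List ℕ) (k : ℕ) :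
    layers2 A L Q us (k + 1) = layer2 us Q (layers2 A L Q us k) := rfl

theorem layers2_spec (A L Q : ℕ) (us : List ℕ) (k : ℕ) : (layers2 A L Q us k).length = L ∧
    ∀ i, Q ≤ i → i < L → (layers2 A L Q us k).getD i 0 = A * (L * L - (1 + i) * (1 + i)) := by
  induction k with
  | zero => exact ⟨(pad_spec A L L 1).1, fun i _ hi => (pad_spec A L L 1).2 i hi⟩
  | succ k ih =>
    rw [layers2_succ]
    obtain ⟨h1, h2⟩ := layer2_spec us Q (layers2 A L Q us k)
    exact ⟨h1.trans ih.1, fun i hi hi' => ((h2 i).2.1 hi).trans (ih.2 i hi hi')⟩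

noncomputable def qOf (A : ℕ) (vals : List ℕ) : ℕ → ℕ → ℕ :=
  List.rec (fun _ b => b)
    (fun v _ ih t b => frc (Nat.add t A) fun t' => frc (Nat.div v t) fun d =>
      Bool.rec (ih t' b) (ih t' d) (Nat.ble b d)) vals

theorem qOf_spec (A : ℕ) (vals : List ℕ) : ∀ t b, b ≤ qOf A vals t b ∧
    ∀ k, k < vals.length → vals.getD k 0 / (t + k * A) ≤ qOf A vals t b := by
  induction vals with
  | nil => intro t b; exact ⟨le_rfl, fun k hk => by simp at hk⟩
  | cons v vals ih =>
    intro t b
    have e : qOf A (v :: vals) t b = qOf A vals (t + A) (max b (v / t)) := by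
      have h : qOf A (v :: vals) t b =
        Bool.rec (qOf A vals (t + A) b) (qOf A vals (t + A) (v / t)) (Nat.ble b (v / t)) := rfl
      rw [h, bool_rec_ble]
      split_ifs with h1
      · rw [max_eq_right h1]
      · rw [max_eq_left (by omega)]
    rw [e]
    obtain ⟨h1, h2⟩ := ih (t + A) (max b (v / t))
    refine ⟨(le_max_left _ _).trans h1, fun k hk => ?_⟩
    cases k with
    | zero => simpa using (le_max_right _ _).trans h1
    | succ k =>
      have := h2 k (by simpa using hk)
      rw [List.getD_cons_succ, show t + (k + 1) * A = t + A + k * A by ring]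
      exact this

theorem qOf_bound {A : ℕ} (hA : 0 < A) (vals : List ℕ) (k : ℕ) (hk : k < vals.length) :
    vals.getD k 0 ≤ A * (qOf A vals A 0 + 1) * (k + 1) := by
  have h := (qOf_spec A vals A 0).2 k hk
  have hp : 0 < A + k * A := by omega
  have h2 := Nat.lt_mul_div_succ (vals.getD k 0) hp
  have h3 : (A + k * A) * (vals.getD k 0 / (A + k * A) + 1) ≤ (A + k * A) * (qOf A vals A 0 + 1) :=
    Nat.mul_le_mul_left _ (by omega)
  have h4 : (A + k * A) * (qOf A vals A 0 + 1) = A * (qOf A vals A 0 + 1) * (k + 1) := by ring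
  omega

noncomputable def hd (l : List ℕ) : ℕ := List.rec 0 (fun a _ _ => a) l

noncomputable def tl (l : List ℕ) : List ℕ := List.rec [] (fun _ r _ => r) l

theorem hd_eq (l : List ℕ) : hd l = l.getD 0 0 := by cases l <;> rfl

theorem tl_getD (l : List ℕ) (i : ℕ) : (tl l).getD i 0 = l.getD (i + 1) 0 := by
  cases l with
  | nil => rfl
  | cons a l => rfl

noncomputable def leZ (A L : ℕ) (m : ℕ) : List ℕ → List ℕ → ℕ → Bool :=
  Nat.rec (fun _ _ _ => true)
    (fun _ ih Z r q => Bool.rec false (frc (Nat.succ q) (ih (tl Z) (tl r)))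
      (Nat.ble (hd Z) (2 * hd r + A * (L * L - q * q)))) m

theorem leZ_spec (A L m : ℕ) : ∀ (Z r : List ℕ) (q : ℕ), leZ A L m Z r q = true →
    ∀ i, i < m → Z.getD i 0 ≤ 2 * r.getD i 0 + A * (L * L - (q + i) * (q + i)) := by
  induction m with
  | zero => intro Z r q _ i hi; omega
  | succ m ih =>
    intro Z r q h i hi
    have e : leZ A L (m + 1) Z r q = Bool.rec false (leZ A L m (tl Z) (tl r) (q + 1))
      (Nat.ble (hd Z) (2 * hd r + A * (L * L - q * q))) := rfl
    rw [e, bool_rec_ble] at h
    split_ifs at h with h1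
    cases i with
    | zero => rw [hd_eq, hd_eq] at h1; simpa using h1
    | succ i =>
      have := ih _ _ _ h i (by omega)
      rw [tl_getD, tl_getD, show q + 1 + i = q + (i + 1) by omega] at this
      exact this

noncomputable def trim (A : ℕ) (vs : List ℕ) : ℕ → List ℕ :=
  List.rec (fun _ => [])
    (fun v _ ih c => List.rec (Bool.rec [v] [] (Nat.ble v (A * c))) (fun a r _ => v :: a :: r)
      (frc (Nat.succ c) ih)) vs

theorem trim_spec (A : ℕ) (vs : List ℕ) : ∀ c k,
    (k < (trim A vs c).length → (trim A vs c).getD k 0 = vs.getD k 0) ∧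
    ((trim A vs c).length ≤ k → vs.getD k 0 ≤ A * (c + k)) := by
  induction vs with
  | nil => intro c k; exact ⟨fun _ => rfl, fun _ => by simp⟩
  | cons v vs ih =>
    intro c k
    have e : trim A (v :: vs) c = List.rec (Bool.rec [v] [] (Nat.ble v (A * c)))
      (fun a r _ => v :: a :: r) (trim A vs (c + 1)) := rfl
    have ih' := ih (c + 1)
    rw [e]
    cases hr : trim A vs (c + 1) with
    | nil =>
      rw [hr] at ih'
      simp only []
      rw [bool_rec_ble]
      cases k with
      | zero => split_ifs with h1 <;> simp [*]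
      | succ k =>
        have := (ih' k).2 (by simp)
        rw [show c + 1 + k = c + (k + 1) by omega] at this
        split_ifs with h1 <;> simpa using this
    | cons a r =>
      rw [hr] at ih'
      simp only []
      cases k with
      | zero => simp
      | succ k =>
        obtain ⟨h1, h2⟩ := ih' k
        rw [show c + 1 + k = c + (k + 1) by omega] at h2
        rw [List.getD_cons_succ, List.getD_cons_succ]
        exact ⟨fun h => h1 (by simpa using h), fun h => h2 (by simpa using h)⟩

noncomputable def nth (l : List ℕ) : ℕ → ℕ :=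
  List.rec (fun _ => 0) (fun a _ ih i => Nat.rec a (fun j _ => ih j) i) l

theorem nth_eq (l : List ℕ) : ∀ i, nth l i = l.getD i 0 := by
  induction l with
  | nil => intro i; rfl
  | cons a l ih =>
    intro i
    cases i with
    | zero => rfl
    | succ i => exact ih i

noncomputable def valsA (n x B : ℕ) (t : List ℕ) (rows : List (List ℕ)) : ℕ → List ℕ :=
  List.rec (fun _ => t)
    (fun r _ ih c => frc (n * x * c * (x + c - 2) + nth r (x - 1) - B * s24 c) fun v =>
      v :: frc (Nat.succ c) ih) rows

theorem valsA_spec (n x B : ℕ) (t : List ℕ) (rows : List (List ℕ)) : ∀ c k,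
    (k < rows.length → (valsA n x B t rows c).getD k 0 =
      n * x * (c + k) * (x + (c + k) - 2) + (rows.getD k []).getD (x - 1) 0 - B * s24 (c + k)) ∧
    (valsA n x B t rows c).getD (rows.length + k) 0 = t.getD k 0 := by
  induction rows with
  | nil => intro c k; exact ⟨fun h => by simp at h, by simp [valsA]⟩
  | cons r rows ih =>
    intro c k
    have e : valsA n x B t (r :: rows) c =
      (n * x * c * (x + c - 2) + nth r (x - 1) - B * s24 c) :: valsA n x B t rows (c + 1) := rfl
    rw [e]
    constructor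
    · intro hk
      cases k with
      | zero => simp [nth_eq]
      | succ k =>
        have := (ih (c + 1) k).1 (by simpa using hk)
        rw [List.getD_cons_succ, List.getD_cons_succ, this, show c + 1 + k = c + (k + 1) by omega]
    · rw [List.length_cons, show rows.length + 1 + k = (rows.length + k) + 1 by omega,
        List.getD_cons_succ]
      exact (ih (c + 1) k).2

noncomputable def valsB (n x G : ℕ) (m : ℕ) : ℕ → List ℕ :=
  Nat.rec (fun _ => [])
    (fun _ ih c => frc (n * x * c * (x + c - 2) - G * s24 c) fun v =>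
      v :: frc (Nat.succ c) ih) m

theorem valsB_spec (n x G m : ℕ) : ∀ c k, k < m → (valsB n x G m c).getD k 0 =
    n * x * (c + k) * (x + (c + k) - 2) - G * s24 (c + k) := by
  induction m with
  | zero => intro c k hk; omega
  | succ m ih =>
    intro c k hk
    have e : valsB n x G (m + 1) c =
      (n * x * c * (x + c - 2) - G * s24 c) :: valsB n x G m (c + 1) := rfl
    rw [e]
    cases k with
    | zero => simp
    | succ k =>
      rw [List.getD_cons_succ, ih (c + 1) k (by omega), show c + 1 + k = c + (k + 1) by omega]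

/-- Check of one row with a limited (k children) recursion. -/
noncomputable def rowL (A k : ℕ) (vals row : List ℕ) : Bool :=
  frc (qOf A vals A 0) fun Q => frc (Q + vals.length) fun L =>
    leZ A L Q (layers2 A L Q (toU A vals 1) k) row 1

/-- Check of one row with an unlimited recursion. -/
noncomputable def rowU (A : ℕ) (vals row : List ℕ) : Bool :=
  frc (qOf A vals A 0) fun Q => frc vals.length fun m => frc (Q + m) fun L =>
    leZ A L Q (unl2 A L (toU A vals 1) Q (pad A L m (Q + 1))) row 1

/-- Check of one row with the quadratic bound. -/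
noncomputable def rowQ (A T : ℕ) (vals : List ℕ) : Bool :=
  frc (qOf 1 (toU A vals 1) 1 0 + 1 - 2 * A) fun M => Nat.ble (M * M) (8 * A * T)

noncomputable def chkX (n A B Bt Dm C k0 : ℕ) (rows : List (List ℕ)) (x : ℕ) : Bool :=
  (fun vals : List ℕ =>
    Bool.rec
      (Bool.rec (rowQ A (Bt * s24 x) vals) (rowU A vals (rows.getD (x - 1) [])) (Nat.ble x Dm))
      (rowL A x vals (rows.getD (x - 1) [])) (Nat.ble x k0))
  (trim A (valsA n x B (valsB n x (B - Bt) (C - Dm) (Dm + 1)) rows 1) 1)

noncomputable def tailOK (Bt Dm D0 : ℕ) (rows : List (List ℕ)) : Bool :=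
  (List.range' 1 Dm).all fun c =>
    ((rows.getD (c - 1) []).drop D0).all fun u => Nat.ble u (Bt * s24 c)

end Pool.Agent.Prof5
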