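import Mathlib

/-! The local inequality for potentials. -/

namespace Pool.Agent.Prof5

/-- Number of Y-trees across an edge whose ends have p and x further neighbours. -/
noncomputable def yR (p x : ℕ) : ℝ := (p : ℝ) * x * (p + x - 2) / 2

/-- Number of stars at a vertex of degree x + 1. -/
noncomputable def sR (x : ℕ) : ℝ := ((x : ℝ) + 1) * x * (x - 1) * (x - 2) / 24

/-- Net value of a list of children below accumulated weight q. -/
noncomputable def net (α : ℝ) (f : ℕ → ℝ) : ℕ → List ℕ → ℝ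
  | _, [] => 0
  | q, c :: l => f c - α * q * c + net α f (q + c) l

/-- The local inequality. -/
def LI (α β : ℝ) (V : ℕ → ℕ → ℝ) : Prop :=
  (∀ p, V p 0 = 0) ∧ ∀ p x : ℕ, 1 ≤ p → 1 ≤ x → ∀ l : List ℕ, l.length ≤ x →
    yR p x - β * sR x + net α (V x) p l ≤ V p x

/-- A potential with the local inequality and at most linear excess at parent weight one. -/
def Pot (α β : ℝ) : Prop :=
  ∃ V : ℕ → ℕ → ℝ, LI α β V ∧ ∃ K : ℝ, 0 ≤ K ∧ ∀ x : ℕ, 1 ≤ x → V 1 x ≤ yR 1 x + K * (1 + x)

theorem sR_nonneg (x : ℕ) : 0 ≤ sR x := by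
  unfold sR
  rcases x with _ | _ | _ | x
  · norm_num
  · norm_num
  · norm_num
  · have h : (0:ℝ) ≤ x := Nat.cast_nonneg x
    push_cast
    have h1 : (0:ℝ) ≤ (x:ℝ) + 1 + 1 + 1 - 1 := by linarith
    have h2 : (0:ℝ) ≤ (x:ℝ) + 1 + 1 + 1 - 2 := by linarith
    positivity

theorem net_closed (α : ℝ) (f : ℕ → ℝ) (l : List ℕ) : ∀ q : ℕ,
    net α f q l = (l.map f).sum - α * (q * (l.map (fun c : ℕ => (c:ℝ))).sum +
      (((l.map (fun c : ℕ => (c:ℝ))).sum) ^ 2 - (l.map (fun c : ℕ => (c:ℝ) ^ 2)).sum) / 2) := by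
  induction l with
  | nil => intro q; simp [net]
  | cons c l ih =>
    intro q
    simp only [net, ih, List.map_cons, List.sum_cons]
    push_cast
    ring

theorem net_perm (α : ℝ) (f : ℕ → ℝ) (q : ℕ) {l l' : List ℕ} (h : l.Perm l') :
    net α f q l = net α f q l' := by
  rw [net_closed, net_closed, (h.map _).sum_eq, (h.map (fun c : ℕ => (c:ℝ))).sum_eq,
    (h.map (fun c : ℕ => (c:ℝ) ^ 2)).sum_eq]

theorem net_mono (α : ℝ) {f g : ℕ → ℝ} (h : ∀ c, f c ≤ g c) (l : List ℕ) :
    ∀ q, net α f q l ≤ net α g q l := by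
  induction l with
  | nil => intro q; simp [net]
  | cons c l ih => intro q; simp only [net]; have := ih (q + c); have := h c; linarith

theorem net_nonpos {α θ : ℝ} (hα : 0 ≤ α) {f : ℕ → ℝ} (h : ∀ c : ℕ, f c ≤ θ * c) (l : List ℕ) :
    ∀ q : ℕ, θ ≤ α * q → net α f q l ≤ 0 := by
  induction l with
  | nil => intro q _; simp [net]
  | cons c l ih =>
    intro q hq
    simp only [net]
    have hc : (0:ℝ) ≤ c := Nat.cast_nonneg c
    have h1 := ih (q + c) (by push_cast; nlinarith)
    have h2 := h c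
    nlinarith

theorem net_filter {α : ℝ} (hα : 0 ≤ α) {f : ℕ → ℝ} {C : ℕ} (h : ∀ c : ℕ, C < c → f c ≤ α * c)
    (l : List ℕ) : ∀ q q' : ℕ, 1 ≤ q → q ≤ q' →
      net α f q' l ≤ net α f q (l.filter (fun c => decide (c ≤ C))) := by
  induction l with
  | nil => intro q q' _ _; simp [net]
  | cons c l ih =>
    intro q q' hq hqq
    have hc : (0:ℝ) ≤ c := Nat.cast_nonneg c
    have hq1 : (1:ℝ) ≤ q := by exact_mod_cast hq
    have hq2 : (q:ℝ) ≤ q' := by exact_mod_cast hqq
    have hac : 0 ≤ α * c := mul_nonneg hα hc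
    by_cases hcC : c ≤ C
    · rw [List.filter_cons_of_pos (by simpa using hcC)]
      simp only [net]
      have := ih (q + c) (q' + c) (by omega) (by omega)
      nlinarith
    · rw [List.filter_cons_of_neg (by simpa using hcC)]
      simp only [net]
      have := ih q (q' + c) hq (by omega)
      have := h c (by omega)
      nlinarith

/-- Certificate with a limited number of children. -/
theorem net_le_Wk {α : ℝ} {f : ℕ → ℝ} {W : ℕ → ℕ → ℝ} {C : ℕ} (h0 : f 0 ≤ 0)
    (hW : ∀ q, 1 ≤ q → 0 ≤ W 0 q) (hm : ∀ k q, 1 ≤ q → W k q ≤ W (k + 1) q)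
    (h : ∀ k q c : ℕ, 1 ≤ q → 1 ≤ c → c ≤ C → f c - α * q * c + W k (q + c) ≤ W (k + 1) q)
    (l : List ℕ) (hl : ∀ c ∈ l, c ≤ C) :
    ∀ k q, l.length ≤ k → 1 ≤ q → net α f q l ≤ W k q := by
  induction l with
  | nil =>
    intro k q _ hq
    simp only [net]
    clear * - hW hm hq
    induction k with
    | zero => exact hW q hq
    | succ k ih => exact ih.trans (hm k q hq)
  | cons c l ih =>
    intro k q hk hq
    obtain ⟨k, rfl⟩ : ∃ k', k = k' + 1 := ⟨k - 1, by simp at hk; omega⟩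
    simp only [net]
    have h1 := ih (fun d hd => hl d (by simp [hd])) k (q + c) (by simpa using hk) (by omega)
    rcases Nat.eq_zero_or_pos c with rfl | hc
    · simp only [Nat.add_zero] at h1 ⊢
      simp only [Nat.cast_zero, mul_zero]
      have := hm k q hq
      linarith
    · have := h k q c hq hc (hl c (by simp))
      linarith

/-- Quadratic bound when every child value is at most m c - α c² / 2. -/
theorem net_le_quad {α m : ℝ} (hα : 0 < α) {f : ℕ → ℝ} (q : ℕ) (l : List ℕ)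
    (h : ∀ c ∈ l, f c + α * (c:ℝ) ^ 2 / 2 ≤ (m + α * q) * c) :
    2 * α * net α f q l ≤ m ^ 2 := by
  rw [net_closed]
  have key : (l.map f).sum + α * (l.map (fun c : ℕ => (c:ℝ) ^ 2)).sum / 2 ≤
      (m + α * q) * (l.map (fun c : ℕ => (c:ℝ))).sum := by
    induction l with
    | nil => simp
    | cons c l ih =>
      simp only [List.map_cons, List.sum_cons]
      have := h c (by simp)
      have := ih (fun d hd => h d (by simp [hd]))
      linarith
  set s := (l.map (fun c : ℕ => (c:ℝ))).sum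
  set s2 := (l.map (fun c : ℕ => (c:ℝ) ^ 2)).sum
  set F := (l.map f).sum
  have h1 : F - α * (q * s + (s ^ 2 - s2) / 2) ≤ m * s - α * s ^ 2 / 2 := by linarith
  have h2 := mul_le_mul_of_nonneg_left h1 (show (0:ℝ) ≤ 2 * α by linarith)
  nlinarith [sq_nonneg (m - α * s)]

/-- Bound from a single-child estimate and a slope estimate. -/
theorem net_le_single {α θ M : ℝ} (hα : 0 < α) {f : ℕ → ℝ} (q : ℕ)
    (hθ : ∀ c : ℕ, f c ≤ θ * c) (hM : 0 ≤ M)
    (h1 : ∀ c : ℕ, 1 ≤ c → f c - α * q * c ≤ M)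
    (h2 : α * q < θ → 9 * (θ - α * q) ^ 2 ≤ 8 * α * M) (l : List ℕ) :
    net α f q l ≤ M := by
  by_cases hq : θ ≤ α * q
  · exact (net_nonpos hα.le hθ l q hq).trans hM
  push Not at hq
  by_cases hex : ∃ c ∈ l, θ ≤ α * (q + c : ℕ)
  · obtain ⟨c, hc, hcθ⟩ := hex
    rw [net_perm α f q (List.perm_cons_erase hc)]
    simp only [net]
    have h3 := net_nonpos hα.le hθ (l.erase c) (q + c) hcθ
    have hc1 : 1 ≤ c := by
      rcases Nat.eq_zero_or_pos c with rfl | h
      · simp only [Nat.add_zero] at hcθ; linarith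
      · exact h
    have := h1 c hc1
    linarith
  · push Not at hex
    rw [net_closed]
    have key : (l.map f).sum + α * (l.map (fun c : ℕ => (c:ℝ) ^ 2)).sum / 2 ≤
        (θ + (θ - α * q) / 2) * (l.map (fun c : ℕ => (c:ℝ))).sum := by
      induction l with
      | nil => simp
      | cons c l ih =>
        simp only [List.map_cons, List.sum_cons]
        have h4 := hθ c
        have h5 := hex c (by simp)
        have h6 := ih (fun d hd => hex d (by simp [hd]))
        have hc : (0:ℝ) ≤ c := Nat.cast_nonneg c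
        push_cast at h5
        nlinarith
    set s := (l.map (fun c : ℕ => (c:ℝ))).sum
    set s2 := (l.map (fun c : ℕ => (c:ℝ) ^ 2)).sum
    set F := (l.map f).sum
    have h7 : F - α * (q * s + (s ^ 2 - s2) / 2) ≤ 3 / 2 * (θ - α * q) * s - α * s ^ 2 / 2 := by
      linarith
    have h8 := h2 hq
    have h9 : 8 * α * (3 / 2 * (θ - α * q) * s - α * s ^ 2 / 2) ≤ 8 * α * M := by
      nlinarith [sq_nonneg (3 * (θ - α * q) - 2 * α * s)]
    have h10 := le_of_mul_le_mul_left h9 (by linarith)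
    linarith

end Pool.Agent.Prof5
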