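import Pool.Agent.Lib.MP_ed556a_co.Defs

/-! Counting five-vertex subtrees of an acyclic graph through degrees. -/

namespace Pool.Agent.Prof5

open SimpleGraph Finset

/-- Permutations preserving a Boolean adjacency table. -/
def autB (r : Fin 5 → Fin 5 → Bool) : Finset (Equiv.Perm (Fin 5)) :=
  univ.filter fun σ => ∀ a b, r (σ a) (σ b) = r a b

theorem card_copy {V : Type} [Fintype V] (G : SimpleGraph V) (H : SimpleGraph (Fin 5))
    (r : Fin 5 → Fin 5 → Bool) (hr : ∀ a b, H.Adj a b ↔ r a b = true) :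
    Nat.card (H.Copy G) = G.copyCount H * (autB r).card := by
  classical
  rw [copyCount_eq_card_image_copyToSubgraph, Nat.card_eq_fintype_card, ← Finset.card_univ,
    Finset.card_eq_sum_card_image Copy.toSubgraph, Finset.sum_congr rfl (g := fun _ => (autB r).card),
    Finset.sum_const, smul_eq_mul]
  intro G' hG'
  obtain ⟨f0, _, rfl⟩ := Finset.mem_image.1 hG'
  have hadj : ∀ (f : H.Copy G) (a b : Fin 5), f.toSubgraph.Adj (f a) (f b) ↔ H.Adj a b := by
    intro f a b
    constructor
    · rintro ⟨a', b', h, ha, hb⟩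
      rw [← f.injective ha, ← f.injective hb]
      exact h
    · intro h; exact ⟨a, b, h, rfl, rfl⟩
  symm
  refine Finset.card_bij (fun σ hσ => (⟨⟨fun a => f0 (σ a), fun {a b} h => f0.toHom.map_adj ?_⟩,
    fun a b h => σ.injective (f0.injective h)⟩ : H.Copy G)) ?_ ?_ ?_
  · have := (Finset.mem_filter.1 hσ).2 a b
    rw [hr] at h ⊢
    rw [this, h]
  · intro σ hσ
    have h2 := (Finset.mem_filter.1 hσ).2
    refine Finset.mem_filter.2 ⟨Finset.mem_univ _, ?_⟩
    ext u v
    · constructor
      · rintro ⟨a, _, rfl⟩; exact ⟨σ a, trivial, rfl⟩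
      · rintro ⟨a, _, rfl⟩
        exact ⟨σ.symm a, trivial, congrArg f0 (σ.apply_symm_apply a)⟩
    · constructor
      · rintro ⟨a, b, h, rfl, rfl⟩
        refine ⟨σ a, σ b, ?_, rfl, rfl⟩
        have h' : H.Adj a b := h
        show H.Adj _ _
        rw [hr] at h' ⊢
        rw [h2, h']
      · rintro ⟨a, b, h, rfl, rfl⟩
        refine ⟨σ.symm a, σ.symm b, ?_, congrArg f0 (σ.apply_symm_apply a),
          congrArg f0 (σ.apply_symm_apply b)⟩
        have h' : H.Adj a b := h
        show H.Adj _ _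
        rw [hr] at h' ⊢
        rw [← h2, σ.apply_symm_apply, σ.apply_symm_apply, h']
  · intro σ _ τ _ h
    ext a
    have := DFunLike.congr_fun h a
    exact congrArg Fin.val (f0.injective this)
  · intro f hf
    have hf' : f.toSubgraph = f0.toSubgraph := (Finset.mem_filter.1 hf).2
    have hex : ∀ a, ∃ b, f0 b = f a := by
      intro a
      have : f a ∈ f.toSubgraph.verts := ⟨a, trivial, rfl⟩
      rw [hf'] at this
      obtain ⟨b, _, hb⟩ := this
      exact ⟨b, hb⟩
    choose s hs using hex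
    have hinj : Function.Injective s := fun a b h => f.injective (by
      show f a = f b
      rw [← hs, ← hs, h])
    refine ⟨Equiv.ofBijective s (Finite.injective_iff_bijective.1 hinj), ?_, ?_⟩
    · refine Finset.mem_filter.2 ⟨Finset.mem_univ _, fun a b => ?_⟩
      show r (s a) (s b) = r a b
      rw [Bool.eq_iff_iff, ← hr, ← hr, ← hadj f0, hs, hs, ← hf', hadj f]
    · ext a
      exact hs a

def r1 (a b : Fin 5) : Bool := a.val + 1 == b.val || b.val + 1 == a.val
def r2 (a b : Fin 5) : Bool := (a.val == 0 && b.val != 0) || (b.val == 0 && a.val != 0)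
def r3 (a b : Fin 5) : Bool :=
  (a.val == 0 && b.val != 0 && b.val != 4) || (b.val == 0 && a.val != 0 && a.val != 4) ||
  (a.val == 3 && b.val == 4) || (a.val == 4 && b.val == 3)

theorem hr1 (a b : Fin 5) : T1.Adj a b ↔ r1 a b = true := by
  fin_cases a <;> fin_cases b <;> simp [T1, r1]
theorem hr2 (a b : Fin 5) : T2.Adj a b ↔ r2 a b = true := by
  fin_cases a <;> fin_cases b <;> simp [T2, r2]
theorem hr3 (a b : Fin 5) : T3.Adj a b ↔ r3 a b = true := by
  fin_cases a <;> fin_cases b <;> simp [T3, r3]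

theorem aut1 : (autB r1).card = 2 := by decide +kernel
theorem aut2 : (autB r2).card = 24 := by decide +kernel
theorem aut3 : (autB r3).card = 2 := by decide +kernel

section
variable {V : Type} {G : SimpleGraph V}

theorem no_tri (h : G.IsAcyclic) {a b c : V} (h1 : G.Adj a b) (h2 : G.Adj b c) (h3 : G.Adj a c) :
    False := by
  have := (h.subsingleton_path _ _).elim
    (⟨Walk.cons h1 (Walk.cons h2 Walk.nil), by simp [h1.ne, h2.ne, h3.ne]⟩ : G.Path a c)
    ⟨Walk.cons h3 Walk.nil, by simp [h3.ne]⟩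
  have h4 := congrArg (fun p : G.Path a c => p.1.length) this
  simp at h4

theorem no_four (h : G.IsAcyclic) {a b c d : V} (h1 : G.Adj a b) (h2 : G.Adj b c)
    (h3 : G.Adj a d) (h4 : G.Adj d c) (h5 : a ≠ c) : b = d := by
  have := (h.subsingleton_path _ _).elim
    (⟨Walk.cons h1 (Walk.cons h2 Walk.nil), by simp [h1.ne, h2.ne, h5]⟩ : G.Path a c)
    ⟨Walk.cons h3 (Walk.cons h4 Walk.nil), by simp [h3.ne, h4.ne, h5]⟩
  have h6 := congrArg (fun p : G.Path a c => p.1.getVert 1) this
  simpa using h6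

theorem inj5 {a b c d e : V} (h1 : a ≠ b) (h2 : a ≠ c) (h3 : a ≠ d) (h4 : a ≠ e) (h5 : b ≠ c)
    (h6 : b ≠ d) (h7 : b ≠ e) (h8 : c ≠ d) (h9 : c ≠ e) (h10 : d ≠ e) :
    Function.Injective ![a, b, c, d, e] := by
  have h1' := h1.symm
  have h2' := h2.symm
  have h3' := h3.symm
  have h4' := h4.symm
  have h5' := h5.symm
  have h6' := h6.symm
  have h7' := h7.symm
  have h8' := h8.symm
  have h9' := h9.symm
  have h10' := h10.symm
  intro i j h
  fin_cases i <;> fin_cases j <;> first | rfl | exact absurd h (by assumption)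

end

section
variable {V : Type} [Fintype V] [DecidableEq V] {G : SimpleGraph V} [DecidableRel G.Adj]

theorem card_copy1 (h : G.IsAcyclic) : Nat.card (T1.Copy G) =
    ∑ c, ∑ b ∈ G.neighborFinset c, ∑ d ∈ (G.neighborFinset c).erase b,
      ((G.neighborFinset b).erase c).card * ((G.neighborFinset d).erase c).card := by
  classical
  rw [Nat.card_eq_fintype_card, ← Finset.card_univ]
  rw [Finset.card_bij (t := (univ : Finset V).sigma fun c => (G.neighborFinset c).sigma fun b =>
      ((G.neighborFinset c).erase b).sigma fun d =>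
        ((G.neighborFinset b).erase c) ×ˢ ((G.neighborFinset d).erase c))
      (fun f _ => ⟨f 2, f 1, f 3, (f 0, f 4)⟩)]
  · simp only [Finset.card_sigma, Finset.card_product]
  · intro f _
    have a1 : G.Adj (f 0) (f 1) := f.toHom.map_adj ((hr1 0 1).2 rfl)
    have a2 : G.Adj (f 1) (f 2) := f.toHom.map_adj ((hr1 1 2).2 rfl)
    have a3 : G.Adj (f 2) (f 3) := f.toHom.map_adj ((hr1 2 3).2 rfl)
    have a4 : G.Adj (f 3) (f 4) := f.toHom.map_adj ((hr1 3 4).2 rfl)
    have b1 : f 3 ≠ f 1 := fun e => absurd (f.injective e) (by decide)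
    have b2 : f 0 ≠ f 2 := fun e => absurd (f.injective e) (by decide)
    have b3 : f 4 ≠ f 2 := fun e => absurd (f.injective e) (by decide)
    simp [a1.symm, a2.symm, a3, a4, b1, b2, b3]
  · intro f _ g _ e
    simp only [Sigma.mk.injEq, heq_eq_eq, Prod.mk.injEq] at e
    obtain ⟨e2, e1, e3, e0, e4⟩ := e
    ext a
    fin_cases a <;> assumption
  · rintro ⟨c, b, d, a, e⟩ hm
    simp only [Finset.mem_sigma, Finset.mem_univ, true_and, mem_neighborFinset, Finset.mem_erase,
      Finset.mem_product] at hm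
    obtain ⟨h1, ⟨h2, h3⟩, ⟨h4, h5⟩, h6, h7⟩ := hm
    refine ⟨⟨⟨![a, b, c, d, e], fun {i j} hij => ?_⟩, inj5 h5.ne' h4 ?_ ?_ h1.ne' h2.symm ?_
      h3.ne h6.symm h7.ne⟩, Finset.mem_univ _, rfl⟩
    · rw [hr1] at hij
      have h1' := h1.symm
      have h3' := h3.symm
      have h5' := h5.symm
      have h7' := h7.symm
      fin_cases i <;> fin_cases j <;> first | exact absurd hij (by decide) | assumption
    · rintro rfl; exact no_tri h h1 h5 h3
    · rintro rfl; exact h2 (no_four h h3 h7 h1 h5 h4.symm)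
    · rintro rfl; exact no_tri h h3 h7 h1

theorem card_copy2 : Nat.card (T2.Copy G) =
    ∑ c, ∑ a ∈ G.neighborFinset c, ∑ b ∈ (G.neighborFinset c).erase a,
      ∑ d ∈ ((G.neighborFinset c).erase a).erase b,
        ((((G.neighborFinset c).erase a).erase b).erase d).card := by
  classical
  rw [Nat.card_eq_fintype_card, ← Finset.card_univ]
  rw [Finset.card_bij (t := (univ : Finset V).sigma fun c => (G.neighborFinset c).sigma fun a =>
      ((G.neighborFinset c).erase a).sigma fun b =>
        (((G.neighborFinset c).erase a).erase b).sigma fun d =>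
          (((G.neighborFinset c).erase a).erase b).erase d)
      (fun f _ => ⟨f 0, f 1, f 2, f 3, f 4⟩)]
  · simp only [Finset.card_sigma]
  · intro f _
    have a1 : G.Adj (f 0) (f 1) := f.toHom.map_adj ((hr2 0 1).2 rfl)
    have a2 : G.Adj (f 0) (f 2) := f.toHom.map_adj ((hr2 0 2).2 rfl)
    have a3 : G.Adj (f 0) (f 3) := f.toHom.map_adj ((hr2 0 3).2 rfl)
    have a4 : G.Adj (f 0) (f 4) := f.toHom.map_adj ((hr2 0 4).2 rfl)
    have b1 : f 2 ≠ f 1 := fun e => absurd (f.injective e) (by decide)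
    have b2 : f 3 ≠ f 1 := fun e => absurd (f.injective e) (by decide)
    have b3 : f 3 ≠ f 2 := fun e => absurd (f.injective e) (by decide)
    have b4 : f 4 ≠ f 1 := fun e => absurd (f.injective e) (by decide)
    have b5 : f 4 ≠ f 2 := fun e => absurd (f.injective e) (by decide)
    have b6 : f 4 ≠ f 3 := fun e => absurd (f.injective e) (by decide)
    simp [a1, a2, a3, a4, b1, b2, b3, b4, b5, b6]
  · intro f _ g _ e
    simp only [Sigma.mk.injEq, heq_eq_eq] at e
    obtain ⟨e0, e1, e2, e3, e4⟩ := e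
    ext a
    fin_cases a <;> assumption
  · rintro ⟨c, a, b, d, e⟩ hm
    simp only [Finset.mem_sigma, Finset.mem_univ, true_and, mem_neighborFinset,
      Finset.mem_erase] at hm
    obtain ⟨h1, ⟨h2, h3⟩, ⟨h4, h5, h6⟩, h7, h8, h9, h10⟩ := hm
    refine ⟨⟨⟨![c, a, b, d, e], fun {i j} hij => ?_⟩, inj5 h1.ne h3.ne h6.ne h10.ne h2.symm
      h5.symm h9.symm h4.symm h8.symm h7.symm⟩, Finset.mem_univ _, rfl⟩
    rw [hr2] at hij
    have h1' := h1.symm
    have h3' := h3.symm
    have h6' := h6.symm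
    have h10' := h10.symm
    fin_cases i <;> fin_cases j <;> first | exact absurd hij (by decide) | assumption

theorem card_copy3 (h : G.IsAcyclic) : Nat.card (T3.Copy G) =
    ∑ c, ∑ m ∈ G.neighborFinset c, ∑ a ∈ (G.neighborFinset c).erase m,
      (((G.neighborFinset c).erase m).erase a).card * ((G.neighborFinset m).erase c).card := by
  classical
  rw [Nat.card_eq_fintype_card, ← Finset.card_univ]
  rw [Finset.card_bij (t := (univ : Finset V).sigma fun c => (G.neighborFinset c).sigma fun m =>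
      ((G.neighborFinset c).erase m).sigma fun a =>
        (((G.neighborFinset c).erase m).erase a) ×ˢ ((G.neighborFinset m).erase c))
      (fun f _ => ⟨f 0, f 3, f 1, (f 2, f 4)⟩)]
  · simp only [Finset.card_sigma, Finset.card_product]
  · intro f _
    have a1 : G.Adj (f 0) (f 1) := f.toHom.map_adj ((hr3 0 1).2 rfl)
    have a2 : G.Adj (f 0) (f 2) := f.toHom.map_adj ((hr3 0 2).2 rfl)
    have a3 : G.Adj (f 0) (f 3) := f.toHom.map_adj ((hr3 0 3).2 rfl)
    have a4 : G.Adj (f 3) (f 4) := f.toHom.map_adj ((hr3 3 4).2 rfl)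
    have b1 : f 1 ≠ f 3 := fun e => absurd (f.injective e) (by decide)
    have b2 : f 2 ≠ f 1 := fun e => absurd (f.injective e) (by decide)
    have b3 : f 2 ≠ f 3 := fun e => absurd (f.injective e) (by decide)
    have b4 : f 4 ≠ f 0 := fun e => absurd (f.injective e) (by decide)
    simp [a1, a2, a3, a4, b1, b2, b3, b4]
  · intro f _ g _ e
    simp only [Sigma.mk.injEq, heq_eq_eq, Prod.mk.injEq] at e
    obtain ⟨e0, e3, e1, e2, e4⟩ := e
    ext a
    fin_cases a <;> assumption
  · rintro ⟨c, m, a, b, e⟩ hm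
    simp only [Finset.mem_sigma, Finset.mem_univ, true_and, mem_neighborFinset, Finset.mem_erase,
      Finset.mem_product] at hm
    obtain ⟨h1, ⟨h2, h3⟩, ⟨h4, h5, h6⟩, h7, h8⟩ := hm
    refine ⟨⟨⟨![c, a, b, m, e], fun {i j} hij => ?_⟩, inj5 h3.ne h6.ne h1.ne h7.symm h4.symm
      h2 ?_ h5 ?_ h8.ne⟩, Finset.mem_univ _, rfl⟩
    · rw [hr3] at hij
      have h1' := h1.symm
      have h3' := h3.symm
      have h6' := h6.symm
      have h8' := h8.symm
      fin_cases i <;> fin_cases j <;> first | exact absurd hij (by decide) | assumption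
    · rintro rfl; exact no_tri h h1 h8 h3
    · rintro rfl; exact no_tri h h1 h8 h6

/-- Degree minus one. -/
noncomputable def wt (G : SimpleGraph V) [DecidableRel G.Adj] (v : V) : ℝ := (G.degree v : ℝ) - 1

omit [Fintype V] in
theorem card_erase_cast {s : Finset V} {a : V} (h : a ∈ s) :
    ((s.erase a).card : ℝ) = s.card - 1 := by
  rw [Finset.card_erase_of_mem h, Nat.cast_sub (Finset.card_pos.2 ⟨a, h⟩)]; simp

theorem card_erase_nbr {b c : V} (h : b ∈ G.neighborFinset c) :
    (((G.neighborFinset b).erase c).card : ℝ) = wt G b := by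
  rw [card_erase_cast (by rw [mem_neighborFinset] at h ⊢; exact h.symm)]; rfl

theorem countP (h : G.IsAcyclic) : 2 * (G.copyCount T1 : ℝ) =
    ∑ c, ((∑ b ∈ G.neighborFinset c, wt G b) ^ 2 - ∑ b ∈ G.neighborFinset c, wt G b ^ 2) := by
  have h1 := card_copy G T1 r1 hr1
  rw [aut1, card_copy1 h] at h1
  have h2 := congrArg (Nat.cast : ℕ → ℝ) h1
  push_cast at h2
  rw [mul_comm, ← h2]
  refine Finset.sum_congr rfl fun c _ => ?_
  rw [sq, Finset.sum_mul, ← Finset.sum_sub_distrib]
  refine Finset.sum_congr rfl fun b hb => ?_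
  rw [Finset.sum_congr rfl (g := fun d => wt G b * wt G d), ← Finset.mul_sum,
    Finset.sum_erase_eq_sub hb]
  · ring
  · intro d hd
    rw [card_erase_nbr hb, card_erase_nbr (Finset.mem_of_mem_erase hd)]

theorem countS : 24 * (G.copyCount T2 : ℝ) =
    ∑ c, (wt G c + 1) * wt G c * (wt G c - 1) * (wt G c - 2) := by
  have h1 := card_copy G T2 r2 hr2
  rw [aut2, card_copy2] at h1
  have h2 := congrArg (Nat.cast : ℕ → ℝ) h1
  push_cast at h2
  rw [mul_comm, ← h2]
  refine Finset.sum_congr rfl fun c _ => ?_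
  have e : ((G.neighborFinset c).card : ℝ) = wt G c + 1 := by
    unfold wt; rw [card_neighborFinset_eq_degree]; ring
  rw [Finset.sum_congr rfl (g := fun _ => wt G c * (wt G c - 1) * (wt G c - 2)),
    Finset.sum_const, nsmul_eq_mul, e]
  · ring
  intro a ha
  rw [Finset.sum_congr rfl (g := fun _ => (wt G c - 1) * (wt G c - 2)),
    Finset.sum_const, nsmul_eq_mul, card_erase_cast ha, e]
  · ring
  intro b hb
  rw [Finset.sum_congr rfl (g := fun _ => wt G c - 2),
    Finset.sum_const, nsmul_eq_mul, card_erase_cast hb, card_erase_cast ha, e]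
  · ring
  intro d hd
  rw [card_erase_cast hd, card_erase_cast hb, card_erase_cast ha, e]
  ring

theorem countY (h : G.IsAcyclic) : 2 * (G.copyCount T3 : ℝ) =
    ∑ c, wt G c * (wt G c - 1) * ∑ m ∈ G.neighborFinset c, wt G m := by
  have h1 := card_copy G T3 r3 hr3
  rw [aut3, card_copy3 h] at h1
  have h2 := congrArg (Nat.cast : ℕ → ℝ) h1
  push_cast at h2
  rw [mul_comm, ← h2]
  refine Finset.sum_congr rfl fun c _ => ?_
  have e : ((G.neighborFinset c).card : ℝ) = wt G c + 1 := by
    unfold wt; rw [card_neighborFinset_eq_degree]; ring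
  rw [Finset.mul_sum]
  refine Finset.sum_congr rfl fun m hm => ?_
  rw [Finset.sum_congr rfl (g := fun _ => (wt G c - 1) * wt G m),
    Finset.sum_const, nsmul_eq_mul, card_erase_cast hm, e]
  · ring
  intro a ha
  rw [card_erase_cast ha, card_erase_cast hm, e, card_erase_nbr hm]
  ring

end

theorem copyCount_iso {V W : Type} [Fintype V] [Fintype W] {G : SimpleGraph V}
    {G' : SimpleGraph W} (e : G ≃g G') (H : SimpleGraph (Fin 5)) (r : Fin 5 → Fin 5 → Bool)
    (hr : ∀ a b, H.Adj a b ↔ r a b = true) (hp : 0 < (autB r).card) :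
    G.copyCount H = G'.copyCount H := by
  have h1 := card_copy G H r hr
  have h2 := card_copy G' H r hr
  have h3 : Nat.card (H.Copy G) = Nat.card (H.Copy G') := Nat.card_congr
    ⟨fun f => e.toCopy.comp f, fun f => e.symm.toCopy.comp f,
      fun f => by ext a; exact e.symm_apply_apply _, fun f => by ext a; exact e.apply_symm_apply _⟩
  exact Nat.eq_of_mul_eq_mul_right hp (by rw [← h1, ← h2, h3])

end Pool.Agent.Prof5
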