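import Mathlib

/-! Five-vertex profiles of trees: definitions used in the statement. -/

namespace Pool.Agent.Prof5

open SimpleGraph Filter Topology

/-- The path on five vertices. -/
def T1 : SimpleGraph (Fin 5) := fromEdgeSet {s(0, 1), s(1, 2), s(2, 3), s(3, 4)}

/-- The star with four leaves. -/
def T2 : SimpleGraph (Fin 5) := fromEdgeSet {s(0, 1), s(0, 2), s(0, 3), s(0, 4)}

/-- The Y-shaped tree: vertex 0 has degree 3, vertex 3 has degree 2, and they are adjacent. -/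
def T3 : SimpleGraph (Fin 5) := fromEdgeSet {s(0, 1), s(0, 2), s(0, 3), s(3, 4)}

/-- The total number of subgraphs isomorphic to one of the three trees on five vertices. -/
noncomputable def Ztot {n : ℕ} (G : SimpleGraph (Fin n)) : ℝ :=
  (G.copyCount T1 : ℝ) + (G.copyCount T2 : ℝ) + (G.copyCount T3 : ℝ)

/-- The 5-profile (P, S, Y) / Z. -/
noncomputable def profile {n : ℕ} (G : SimpleGraph (Fin n)) : ℝ × ℝ × ℝ :=
  ((G.copyCount T1 : ℝ) / Ztot G, (G.copyCount T2 : ℝ) / Ztot G, (G.copyCount T3 : ℝ) / Ztot G)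

/-- Limits of 5-profiles of trees whose number of vertices tends to infinity. -/
def Delta : Set (ℝ × ℝ × ℝ) :=
  {p | ∃ (n : ℕ → ℕ) (G : ∀ k, SimpleGraph (Fin (n k))), (∀ k, (G k).IsTree) ∧
    Tendsto n atTop atTop ∧ Tendsto (fun k => profile (G k)) atTop (𝓝 p)}

/-- Limiting pairs (path density, star density). -/
def PathStarSet : Set (ℝ × ℝ) := {q | ∃ p ∈ Delta, q = (p.1, p.2.1)}

/-- The point (P / (P + S + Y), S / (P + S + Y)). -/
noncomputable def pt (P S Y : ℝ) : ℝ × ℝ := (P / (P + S + Y), S / (P + S + Y))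

/-- The point attached to the integer a. -/
noncomputable def dsPt (a : ℕ) : ℝ × ℝ :=
  pt (2 * a + 9) (2 * ((a + 1).choose 4 : ℕ) + 1 / 2) ((a : ℝ) ^ 2 * (a - 1) + a * (a - 1) / 2 + 6)

/-- The generating points. -/
def verts : Set (ℝ × ℝ) :=
  {(0, 1), (1, 0), pt 4 0 4, pt 9 1 18, pt 16 5 48, pt 58 40 252, pt 34 25 152,
    pt 67 (161 / 2) 384, pt 45 (131 / 2) 286, pt 46 (201 / 2) 366, pt 52 (241 / 2) 427,
    pt 59 (393 / 2) 597, pt 74 (701 / 2) 909, pt 75 (941 / 2) 1077} ∪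
  {q | ∃ a : ℕ, 8 ≤ a ∧ q = dsPt a}

end Pool.Agent.Prof5
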