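import Pool.Agent.Lib.MP_ed556a_co.Sound

/-! From a successful check to a potential. -/

namespace Pool.Agent.Prof5

def Ut (Bt Dm : ℕ) (rows : List (List ℕ)) (p c : ℕ) : ℕ :=
  if c ≤ Dm then (rows.getD (c - 1) []).getD (p - 1) 0 else Bt * s24 c

noncomputable def Vt (n B Bt Dm : ℕ) (rows : List (List ℕ)) (p x : ℕ) : ℝ :=
  if x = 0 then 0 else yR p x - 12 * (B:ℝ) / n * sR x + (Ut Bt Dm rows p x : ℝ) / (2 * n)

theorem Vt_eq {n : ℕ} (hn : 0 < n) (B Bt Dm : ℕ) (rows : List (List ℕ)) {x c : ℕ} (hx : 1 ≤ x)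
    (hc : 1 ≤ c) : Vt n B Bt Dm rows x c =
      (((n * x * c * (x + c - 2) : ℕ) : ℝ) + (Ut Bt Dm rows x c : ℝ) - ((B * s24 c : ℕ) : ℝ)) /
        (2 * n) := by
  have hn' : (0:ℝ) < n := by exact_mod_cast hn
  unfold Vt
  rw [if_neg (by omega), y_cast n x c hx hc, Nat.cast_mul, s24_cast]
  field_simp; ring

theorem cast_sub_ge (a b : ℕ) : (a:ℝ) - b ≤ ((a - b : ℕ) : ℝ) := by
  rcases le_total b a with h | h
  · rw [Nat.cast_sub h]
  · have : (a:ℝ) ≤ b := by exact_mod_cast h
    have : (0:ℝ) ≤ ((a - b : ℕ) : ℝ) := Nat.cast_nonneg _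
    linarith

theorem tail_mono {α γ δ K x0 x : ℝ} (hα : 0 ≤ α) (hγ : 0 ≤ γ) (hδ : 0 ≤ δ) (hK : 0 ≤ K)
    (h0 : 2 ≤ x0) (hx : x0 ≤ x)
    (h : (x0 ^ 2 / 2 + γ + δ * (x0 + α) ^ 2) ^ 2 ≤ K * ((x0 + 1) * x0 * (x0 - 1) * (x0 - 2))) :
    (x ^ 2 / 2 + γ + δ * (x + α) ^ 2) ^ 2 ≤ K * ((x + 1) * x * (x - 1) * (x - 2)) := by
  have hx0 : 0 < x0 := by linarith
  have hxp : 0 < x := by linarith
  have a1 : (x + α) * x0 ≤ (x0 + α) * x := by nlinarith
  have a2 : ((x + α) * x0) ^ 2 ≤ ((x0 + α) * x) ^ 2 := pow_le_pow_left₀ (by positivity) a1 2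
  have a3 : x0 ^ 2 ≤ x ^ 2 := pow_le_pow_left₀ hx0.le hx 2
  have a4 : (x ^ 2 / 2 + γ + δ * (x + α) ^ 2) * x0 ^ 2 ≤
      (x0 ^ 2 / 2 + γ + δ * (x0 + α) ^ 2) * x ^ 2 := by
    have := mul_le_mul_of_nonneg_left a2 hδ
    have := mul_le_mul_of_nonneg_left a3 hγ
    linarith
  have a5 : ((x ^ 2 / 2 + γ + δ * (x + α) ^ 2) * x0 ^ 2) ^ 2 ≤
      ((x0 ^ 2 / 2 + γ + δ * (x0 + α) ^ 2) * x ^ 2) ^ 2 :=
    pow_le_pow_left₀ (by positivity) a4 2
  have b1 : (x0 ^ 2 - 1) * x ^ 2 ≤ (x ^ 2 - 1) * x0 ^ 2 := by nlinarith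
  have b2 : (x0 - 2) * x ≤ (x - 2) * x0 := by nlinarith
  have b3 : ((x0 ^ 2 - 1) * x ^ 2) * ((x0 - 2) * x) ≤ ((x ^ 2 - 1) * x0 ^ 2) * ((x - 2) * x0) := by
    apply mul_le_mul b1 b2
    · exact mul_nonneg (by linarith) hxp.le
    · exact mul_nonneg (by nlinarith) (by positivity)
  have b4 : ((x0 + 1) * x0 * (x0 - 1) * (x0 - 2)) * x ^ 4 ≤
      ((x + 1) * x * (x - 1) * (x - 2)) * x0 ^ 4 := by
    have := mul_le_mul_of_nonneg_left b3 (show 0 ≤ x * x0 by positivity)
    linarith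
  have c1 := mul_le_mul_of_nonneg_right h (show 0 ≤ x ^ 4 by positivity)
  have c2 := mul_le_mul_of_nonneg_left b4 hK
  have c3 : (x ^ 2 / 2 + γ + δ * (x + α) ^ 2) ^ 2 * x0 ^ 4 ≤
      K * ((x + 1) * x * (x - 1) * (x - 2)) * x0 ^ 4 := by linarith
  exact le_of_mul_le_mul_right c3 (by positivity)

theorem tail_c {n B Bt A x D0 C t : ℝ} (hn : 0 ≤ n) (hB : Bt ≤ B) (hx : x ≤ D0) (hx1 : 1 ≤ x)
    (hC : 1 ≤ C) (ht : 0 ≤ t)
    (t1 : n * D0 * (D0 + C - 1) ≤ (B - Bt) * ((C + 2) * C * (C - 1)) + A)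
    (t2 : n * D0 ≤ (B - Bt) * ((C + 2) * C)) :
    n * (x * (x + (C + 1 + t) - 2)) * (C + 1 + t) ≤
      ((B - Bt) * ((C + 1 + t + 1) * (C + 1 + t - 1) * (C + 1 + t - 2)) + A) * (C + 1 + t) := by
  have u1 : x * (x + (C + 1 + t) - 2) ≤ D0 * (D0 + C - 1) + D0 * t := by
    have := mul_le_mul hx (show x + (C + 1 + t) - 2 ≤ D0 + C - 1 + t by linarith)
      (by linarith) (by linarith)
    linarith
  have u2 : (C + 2) * C * (C - 1) + (C + 2) * C * t ≤
      (C + 1 + t + 1) * (C + 1 + t - 1) * (C + 1 + t - 2) := by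
    have a : (C + 2) * C ≤ (C + 1 + t + 1) * (C + 1 + t - 1) :=
      mul_le_mul (by linarith) (by linarith) (by linarith) (by linarith)
    have := mul_le_mul_of_nonneg_right a (show 0 ≤ C - 1 + t by linarith)
    linarith
  have u3 := mul_le_mul_of_nonneg_left u1 hn
  have u4 := mul_le_mul_of_nonneg_left u2 (show 0 ≤ B - Bt by linarith)
  have u5 := mul_le_mul_of_nonneg_right t2 ht
  exact mul_le_mul_of_nonneg_right (by linarith) (by linarith)

theorem tail_x {α γ δ x s p F : ℝ} (hα : 0 ≤ α) (hγ : 0 ≤ γ) (hx : 0 ≤ x) (hs : 0 ≤ s)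
    (hp : 1 ≤ p) (cb : (x + α) * s / 2 ≤ γ * s ^ 3 + δ * (x + α) ^ 2)
    (v1 : F ≤ x * (s + 1) * (x + (s + 1) - 2) / 2 -
      γ * (24 * ((s + 1 + 1) * (s + 1) * (s + 1 - 1) * (s + 1 - 2) / 24))) :
    F + α * (s + 1) ^ 2 / 2 ≤ (x ^ 2 / 2 + γ + δ * (x + α) ^ 2 + α * p) * (s + 1) := by
  have w1 : x * (x + (s + 1) - 2) / 2 + α * (s + 1) / 2 -
      γ * ((s + 1 + 1) * (s + 1 - 1) * (s + 1 - 2)) ≤
      x ^ 2 / 2 + γ + δ * (x + α) ^ 2 + α * p := by
    have a1 := mul_nonneg hγ (sq_nonneg (s - 1))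
    have a2 := mul_le_mul_of_nonneg_left hp hα
    linarith
  have w2 := mul_le_mul_of_nonneg_right w1 (show 0 ≤ s + 1 by linarith)
  linarith

theorem pot_of_chk (n A B Bt Dm D0 C k0 : ℕ) (rows : List (List ℕ)) (δ : ℝ)
    (hn : 0 < n) (hA : 0 < A) (hB : Bt ≤ B) (hlen : rows.length = Dm) (hDC : Dm ≤ C)
    (hD : Dm ≤ D0) (hk : k0 ≤ Dm) (hC : 1 ≤ C) (hD1 : 1 ≤ D0)
    (ht1 : n * D0 * (D0 + C - 1) ≤ (B - Bt) * ((C + 2) * C * (C - 1)) + A)
    (ht2 : n * D0 ≤ (B - Bt) * ((C + 2) * C))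
    (htail : tailOK Bt Dm D0 rows = true) (hδ : 0 < δ)
    (h1 : 1 ≤ 54 * (((B:ℝ) - Bt) / (2 * n)) * δ ^ 2 * ((D0 + 1) + A / (2 * n)))
    (h2 : (((D0:ℝ) + 1) ^ 2 / 2 + ((B:ℝ) - Bt) / (2 * n) + δ * ((D0 + 1) + A / (2 * n)) ^ 2) ^ 2 ≤
      2 * (A / (2 * n)) * (Bt / (2 * n)) *
        (((D0 + 1) + 1) * (D0 + 1) * ((D0 + 1) - 1) * ((D0 + 1) - 2)))
    (hx : (List.range' 1 D0).all (chkX n A B Bt Dm C k0 rows) = true) :
    Pot ((A:ℝ) / (2 * n)) (12 * (B:ℝ) / n) := by
  have hn' : (0:ℝ) < n := by exact_mod_cast hn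
  have hσ : (0:ℝ) < 2 * n := by linarith
  have hAR : (0:ℝ) < A := by exact_mod_cast hA
  have hα : (0:ℝ) < A / (2 * n) := div_pos hAR hσ
  have hBR : (Bt:ℝ) ≤ B := by exact_mod_cast hB
  have hV0 : ∀ p, Vt n B Bt Dm rows p 0 = 0 := fun p => by simp [Vt]
  refine ⟨Vt n B Bt Dm rows, ⟨hV0, ?_⟩, ?_⟩
  · intro p x hp hx1 l hl
    have goal : net ((A:ℝ) / (2 * n)) (Vt n B Bt Dm rows x) p l ≤
        (Ut Bt Dm rows p x : ℝ) / (2 * n) := by
      by_cases hxD : x ≤ D0
      · have hc := List.all_eq_true.1 hx x (by rw [List.mem_range'_1]; omega)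
        set vs := valsA n x B (valsB n x (B - Bt) (C - Dm) (Dm + 1)) rows 1 with hvs
        have hvl : vs.length = C := by rw [hvs, valsA_length, valsB_length]; omega
        have hf : ∀ c, 1 ≤ c → c ≤ C →
            Vt n B Bt Dm rows x c ≤ (vs.getD (c - 1) 0 : ℝ) / (2 * n) := by
          intro c hc1 hcC
          rw [Vt_eq hn B Bt Dm rows hx1 hc1]
          apply div_le_div_of_nonneg_right _ hσ.le
          unfold Ut
          split_ifs with hcD
          · rw [hvs, (valsA_spec n x B _ rows 1 (c - 1)).1 (by omega),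
              show 1 + (c - 1) = c by omega, ← Nat.cast_add]
            exact cast_sub_ge _ _
          · have e := (valsA_spec n x B (valsB n x (B - Bt) (C - Dm) (Dm + 1)) rows 1
              (c - 1 - Dm)).2
            rw [show rows.length + (c - 1 - Dm) = c - 1 by omega,
              valsB_spec _ _ _ _ _ _ (by omega), show Dm + 1 + (c - 1 - Dm) = c by omega] at e
            rw [hvs, e]
            refine le_trans (le_of_eq ?_) (cast_sub_ge _ _)
            rw [Nat.cast_mul (B - Bt), Nat.cast_sub hB]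
            push_cast; ring
        have ht : ∀ c : ℕ, C < c → Vt n B Bt Dm rows x c ≤ (A:ℝ) / (2 * n) * c := by
          intro c hc1
          rw [Vt_eq hn B Bt Dm rows hx1 (by omega), div_le_iff₀ hσ]
          have e : (A:ℝ) / (2 * n) * c * (2 * n) = A * c := by field_simp
          rw [e, y_cast n x c hx1 (by omega)]
          unfold Ut
          rw [if_neg (by omega)]
          push_cast
          rw [s24_cast]
          unfold yR sR
          have t1 : (n:ℝ) * D0 * (D0 + C - 1) ≤ (B - Bt) * ((C + 2) * C * (C - 1)) + A := by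
            have : ((n * D0 * (D0 + C - 1) : ℕ) : ℝ) ≤
              (((B - Bt) * ((C + 2) * C * (C - 1)) + A : ℕ) : ℝ) := by exact_mod_cast ht1
            push_cast [Nat.cast_sub hB, Nat.cast_sub hC,
              Nat.cast_sub (show 1 ≤ D0 + C by omega)] at this
            exact this
          have t2 : (n:ℝ) * D0 ≤ (B - Bt) * ((C + 2) * C) := by
            have : ((n * D0 : ℕ) : ℝ) ≤ (((B - Bt) * ((C + 2) * C) : ℕ) : ℝ) := by
              exact_mod_cast ht2
            push_cast [Nat.cast_sub hB] at this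
            exact this
          obtain ⟨t, rfl⟩ : ∃ t, c = C + 1 + t := ⟨c - C - 1, by omega⟩
          push_cast
          have hxR : (x:ℝ) ≤ D0 := by exact_mod_cast hxD
          have hx1R : (1:ℝ) ≤ x := by exact_mod_cast hx1
          have hCR : (1:ℝ) ≤ C := by exact_mod_cast hC
          have htR : (0:ℝ) ≤ t := Nat.cast_nonneg t
          have u := tail_c hn'.le hBR hxR hx1R hCR htR t1 t2
          linarith
        obtain ⟨g1, g2⟩ := net_trim hσ hf ht ((trim_length A vs 1).trans hvl.le)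
        refine (net_filter hα.le g2 l p p hp le_rfl).trans ?_
        have hl' : ∀ c ∈ l.filter (fun c => decide (c ≤ (trim A vs 1).length)),
            c ≤ (trim A vs 1).length := fun c hc => by simpa using (List.mem_filter.1 hc).2
        have e : chkX n A B Bt Dm C k0 rows x = Bool.rec
          (Bool.rec (rowQ A (Bt * s24 x) (trim A vs 1))
            (rowU A (trim A vs 1) (rows.getD (x - 1) [])) (Nat.ble x Dm))
          (rowL A x (trim A vs 1) (rows.getD (x - 1) [])) (Nat.ble x k0) := rfl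
        rw [e, bool_rec_ble, bool_rec_ble] at hc
        unfold Ut
        split_ifs at hc with c1 c2
        · rw [if_pos (by omega)]
          exact rowL_sound hσ hA (hV0 x).le g1 hc _ hl' ((List.length_filter_le _ _).trans hl) p hp
        · rw [if_pos c2]
          exact rowU_sound hσ hA (hV0 x).le g1 hc _ hl' p hp
        · rw [if_neg c2]
          exact rowQ_sound hσ hA (hV0 x).le g1 hc _ hl' p hp
      · set α : ℝ := (A:ℝ) / (2 * n) with hαd
        set γ : ℝ := ((B:ℝ) - Bt) / (2 * n) with hγd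
        have hγ : 0 ≤ γ := div_nonneg (by linarith) hσ.le
        have hxR : (D0:ℝ) + 1 ≤ x := by exact_mod_cast (show D0 + 1 ≤ x by omega)
        have hD1R : (1:ℝ) ≤ D0 := by exact_mod_cast hD1
        have hq := net_le_quad (m := (x:ℝ) ^ 2 / 2 + γ + δ * (x + α) ^ 2) hα
          (f := Vt n B Bt Dm rows x) p l (by
            intro c _
            rcases Nat.eq_zero_or_pos c with rfl | hc1
            · simp [hV0]
            have hU : Ut Bt Dm rows x c ≤ Bt * s24 c := by
              unfold Ut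
              split_ifs with hcD
              · have a1 := List.all_eq_true.1 htail c (by rw [List.mem_range'_1]; omega)
                by_cases a2 : x - 1 < (rows.getD (c - 1) []).length
                · have a3 := List.all_eq_true.1 a1 ((rows.getD (c - 1) []).getD (x - 1) 0) (by
                    rw [List.getD_eq_getElem _ _ a2]
                    exact List.mem_iff_getElem.2 ⟨x - 1 - D0, by rw [List.length_drop]; omega, by
                      simp [show D0 + (x - 1 - D0) = x - 1 by omega]⟩)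
                  exact Nat.le_of_ble_eq_true a3
                · rw [List.getD_eq_default _ _ (by omega)]; omega
              · exact le_rfl
            have hUR : (Ut Bt Dm rows x c : ℝ) ≤ Bt * (24 * sR c) := by
              rw [← s24_cast]; exact_mod_cast hU
            have v1 : Vt n B Bt Dm rows x c ≤ yR x c - γ * (24 * sR c) := by
              unfold Vt
              rw [if_neg (by omega)]
              have a1 := div_le_div_of_nonneg_right hUR hσ.le
              have a2 : (Bt:ℝ) * (24 * sR c) / (2 * n) - 12 * (B:ℝ) / n * sR c =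
                - (γ * (24 * sR c)) := by rw [hγd]; field_simp; ring
              linarith
            obtain ⟨s, rfl⟩ : ∃ s, c = s + 1 := ⟨c - 1, by omega⟩
            have hs : (0:ℝ) ≤ s := Nat.cast_nonneg s
            have hz : (0:ℝ) < x + α := by linarith
            have cb := cubic_bound (γ := γ) hδ hz hs (by
              refine h1.trans ?_
              apply mul_le_mul_of_nonneg_left _ (by positivity)
              linarith)
            have hpR : (1:ℝ) ≤ p := by exact_mod_cast hp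
            unfold yR sR at v1
            push_cast at v1 ⊢
            exact tail_x hα.le hγ (by linarith) hs hpR cb v1)
        have hm := tail_mono (K := 2 * α * (Bt / (2 * n))) hα.le hγ hδ.le (by positivity)
          (by linarith) hxR h2
        unfold Ut
        rw [if_neg (by omega)]
        push_cast
        rw [s24_cast]
        refine le_of_mul_le_mul_left (hq.trans (hm.trans (le_of_eq ?_))) (by linarith)
        unfold sR
        ring
    have e : Vt n B Bt Dm rows p x =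
        yR p x - 12 * (B:ℝ) / n * sR x + (Ut Bt Dm rows p x : ℝ) / (2 * n) := by
      unfold Vt; rw [if_neg (by omega)]
    rw [e]; linarith
  · refine ⟨(∑ c ∈ Finset.range (Dm + 1), (Ut Bt Dm rows 1 c : ℝ)) / (2 * n), by positivity, ?_⟩
    intro x hx1
    have hK : 0 ≤ (∑ c ∈ Finset.range (Dm + 1), (Ut Bt Dm rows 1 c : ℝ)) / (2 * n) := by
      positivity
    have hxR : (0:ℝ) ≤ x := Nat.cast_nonneg x
    have hs := sR_nonneg x
    unfold Vt
    rw [if_neg (by omega)]
    by_cases hxD : x ≤ Dm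
    · have a1 : (Ut Bt Dm rows 1 x : ℝ) ≤ ∑ c ∈ Finset.range (Dm + 1), (Ut Bt Dm rows 1 c : ℝ) :=
        Finset.single_le_sum (f := fun c => (Ut Bt Dm rows 1 c : ℝ))
          (fun c _ => Nat.cast_nonneg _) (Finset.mem_range.2 (by omega))
      have a2 := div_le_div_of_nonneg_right a1 hσ.le
      have a3 : 0 ≤ 12 * (B:ℝ) / n * sR x := by positivity
      have a4 := mul_nonneg hK hxR
      linarith
    · have a1 : (Ut Bt Dm rows 1 x : ℝ) = Bt * (24 * sR x) := by
        unfold Ut; rw [if_neg hxD, Nat.cast_mul, s24_cast]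
      rw [a1]
      have a2 : (Bt:ℝ) * (24 * sR x) / (2 * n) - 12 * (B:ℝ) / n * sR x =
        - (((B:ℝ) - Bt) / (2 * n) * (24 * sR x)) := by field_simp; ring
      have a3 : 0 ≤ ((B:ℝ) - Bt) / (2 * n) * (24 * sR x) :=
        mul_nonneg (div_nonneg (by linarith) hσ.le) (by linarith)
      have a4 := mul_nonneg hK hxR
      linarith

end Pool.Agent.Prof5
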