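import Pool.Agent.Lib.MP_ed556a_co.Lower

/-! The convex hull of the generating points is closed. -/

namespace Pool.Agent.Prof5

open Filter Topology

theorem isClosed_convexHull_plane {s : Set (ℝ × ℝ)} (hs : IsCompact s) :
    IsClosed (convexHull ℝ s) := by
  classical
  have hK : IsCompact (stdSimplex ℝ (Fin 3) ×ˢ Set.pi Set.univ fun _ : Fin 3 => s) :=
    (isCompact_stdSimplex ℝ (Fin 3)).prod (isCompact_univ_pi fun _ => hs)
  have hF : Continuous fun q : (Fin 3 → ℝ) × (Fin 3 → ℝ × ℝ) => ∑ i, q.1 i • q.2 i := by fun_prop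
  have e : convexHull ℝ s = (fun q : (Fin 3 → ℝ) × (Fin 3 → ℝ × ℝ) => ∑ i, q.1 i • q.2 i) ''
      (stdSimplex ℝ (Fin 3) ×ˢ Set.pi Set.univ fun _ : Fin 3 => s) := by
    apply Set.Subset.antisymm
    · intro x hx
      obtain ⟨ι, _, z, w, h1, h2, h3, h4, h5⟩ := eq_pos_convex_span_of_mem_convexHull hx
      have hc : Fintype.card ι ≤ Fintype.card (Fin 3) := by
        have := h2.card_le_finrank_succ
        have h6 := Submodule.finrank_le (vectorSpan ℝ (Set.range z))
        simp only [Module.finrank_prod, Module.finrank_self] at h6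
        rw [Fintype.card_fin]; omega
      obtain ⟨e⟩ := Function.Embedding.nonempty_of_card_le hc
      have hne : Nonempty ι := by
        by_contra h
        rw [not_nonempty_iff] at h
        simp at h4
      obtain ⟨i0⟩ := hne
      refine ⟨(Function.extend e w 0, Function.extend e z fun _ => z i0), ⟨⟨?_, ?_⟩, ?_⟩, ?_⟩
      · intro j
        by_cases hj : ∃ i, e i = j
        · obtain ⟨i, rfl⟩ := hj
          simp only [e.injective.extend_apply]; exact (h3 i).le
        · simp only [Function.extend_apply' _ _ _ hj]; exact le_rfl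
      · rw [← h4]
        exact (Fintype.sum_of_injective e e.injective _ _
          (fun j hj => by simp only [Function.extend_apply' _ _ _ hj]; rfl)
          (fun i => by simp only [e.injective.extend_apply])).symm
      · intro j _
        by_cases hj : ∃ i, e i = j
        · obtain ⟨i, rfl⟩ := hj
          simp only [e.injective.extend_apply]; exact h1 ⟨i, rfl⟩
        · simp only [Function.extend_apply' _ _ _ hj]; exact h1 ⟨i0, rfl⟩
      · rw [← h5]
        exact (Fintype.sum_of_injective e e.injective _ _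
          (fun j hj => by simp only [Function.extend_apply' _ _ _ hj]; simp)
          (fun i => by simp only [e.injective.extend_apply])).symm
    · rintro _ ⟨⟨w, z⟩, ⟨⟨h1, h2⟩, h3⟩, rfl⟩
      exact (convex_convexHull ℝ s).sum_mem (fun i _ => h1 i) h2
        (fun i _ => subset_convexHull ℝ s (h3 i trivial))
  rw [e]
  exact (hK.image hF).isClosed

theorem dsPt_tendsto : Tendsto (fun k : ℕ => dsPt (k + 8)) atTop (𝓝 (0, 1)) := by
  have t0 : Tendsto (fun k : ℕ => (24:ℝ) / k) atTop (𝓝 0) :=
    tendsto_const_div_atTop_nhds_zero_nat 24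
  set P : ℕ → ℝ := fun k => 2 * (k:ℝ) + 25 with hP
  set S : ℕ → ℝ := fun k => ((k:ℝ) + 9) * (k + 8) * (k + 7) * (k + 6) / 12 + 1 / 2 with hS
  set Y : ℕ → ℝ := fun k => ((k:ℝ) + 8) ^ 2 * (k + 7) + (k + 8) * (k + 7) / 2 + 6 with hY
  have e : ∀ k : ℕ, dsPt (k + 8) = pt (P k) (S k) (Y k) := by
    intro k
    unfold dsPt
    rw [choose4]
    have e1 : 2 * ((k + 8 : ℕ) : ℝ) + 9 = P k := by simp only [hP]; push_cast; ring
    have e2 : 2 * (sT ((k + 8 : ℕ) : ℝ) / 24) + 1 / 2 = S k := by
      simp only [hS, sT]; push_cast; ring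
    have e3 : ((k + 8 : ℕ) : ℝ) ^ 2 * (((k + 8 : ℕ) : ℝ) - 1) +
      ((k + 8 : ℕ) : ℝ) * (((k + 8 : ℕ) : ℝ) - 1) / 2 + 6 = Y k := by
      simp only [hY]; push_cast; ring
    rw [e1, e2, e3]
  have hZ : ∀ k, 0 < P k + S k + Y k := fun k => by simp only [hP, hS, hY]; positivity
  have t1 : Tendsto (fun k => P k / (P k + S k + Y k)) atTop (𝓝 0) := by
    refine squeeze_zero' (Eventually.of_forall fun k => by simp only [hP, hS, hY]; positivity) ?_ t0
    filter_upwards [eventually_gt_atTop 0] with k hk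
    have hk' : (0:ℝ) < k := by exact_mod_cast hk
    rw [div_le_div_iff₀ (hZ k) hk']
    have : 0 ≤ (k:ℝ) ^ 2 := by positivity
    have : 0 ≤ (k:ℝ) ^ 3 := by positivity
    have : 0 ≤ (k:ℝ) ^ 4 := by positivity
    simp only [hP, hS, hY]
    linarith
  have t2 : Tendsto (fun k => Y k / (P k + S k + Y k)) atTop (𝓝 0) := by
    refine squeeze_zero' (Eventually.of_forall fun k => by simp only [hP, hS, hY]; positivity) ?_ t0
    filter_upwards [eventually_gt_atTop 0] with k hk
    have hk' : (0:ℝ) < k := by exact_mod_cast hk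
    rw [div_le_div_iff₀ (hZ k) hk']
    have : 0 ≤ (k:ℝ) ^ 2 := by positivity
    have : 0 ≤ (k:ℝ) ^ 3 := by positivity
    have : 0 ≤ (k:ℝ) ^ 4 := by positivity
    simp only [hP, hS, hY]
    linarith
  have t3 := (t1.const_sub 1).sub t2
  rw [sub_zero, sub_zero] at t3
  refine (t1.prodMk_nhds t3).congr fun k => ?_
  rw [e]
  unfold pt
  have := (hZ k).ne'
  simp only [Prod.mk.injEq, true_and]
  field_simp; ring

theorem isCompact_verts : IsCompact verts := by
  have h := ((Set.toFinite ({(0, 1), (1, 0), pt 4 0 4, pt 9 1 18, pt 16 5 48, pt 58 40 252,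
    pt 34 25 152, pt 67 (161 / 2) 384, pt 45 (131 / 2) 286, pt 46 (201 / 2) 366,
    pt 52 (241 / 2) 427, pt 59 (393 / 2) 597, pt 74 (701 / 2) 909, pt 75 (941 / 2) 1077} :
      Set (ℝ × ℝ))).isCompact).union dsPt_tendsto.isCompact_insert_range
  refine Eq.subst (motive := IsCompact) ?_ h
  unfold verts
  apply Set.Subset.antisymm
  · rintro q (hq | rfl | ⟨k, rfl⟩)
    · exact Or.inl hq
    · exact Or.inl (Or.inl rfl)
    · exact Or.inr ⟨k + 8, by omega, rfl⟩
  · rintro q (hq | ⟨a, ha, rfl⟩)
    · exact Or.inl hq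
    · exact Or.inr (Or.inr ⟨a - 8, by simp only [Nat.sub_add_cancel ha]⟩)

theorem hull_eq : closedConvexHull ℝ verts = convexHull ℝ verts := by
  rw [closedConvexHull_eq_closure_convexHull,
    (isClosed_convexHull_plane isCompact_verts).closure_eq]

end Pool.Agent.Prof5
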