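import Mathlib

/-! Polynomial inequalities for the range of large slopes. -/

namespace Pool.Agent.Prof5

noncomputable def yy (p x : ℝ) : ℝ := p * x * (p + x - 2) / 2
noncomputable def ss (x : ℝ) : ℝ := (x + 1) * x * (x - 1) * (x - 2) / 24

/-- The constraint coming from the point with parameter a. -/
def HH (α β a : ℝ) : Prop :=
  a ^ 2 * (a - 1) + a * (a - 1) / 2 + 6 ≤ α * (2 * a + 9) + β * (2 * ss a + 1 / 2)

theorem iL2 {u β z : ℝ} (hb : 3 ≤ β * u) (hz : 0 ≤ ss z) : 3 * ss z ≤ u * (β * ss z) := by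
  nlinarith

theorem iL1 {u β z : ℝ} (hu : 10 ≤ u) (h0 : 0 ≤ β) (h1 : β ≤ 1) (hb : 3 ≤ β * u)
    (hz : u ^ 2 ≤ z) : 279 / 240 * z ^ 3 ≤ β * ss z := by
  have hz1 : 100 ≤ z := by nlinarith
  have a1 : 30 ≤ β * z := by nlinarith
  have a2 : 30 * z ^ 3 ≤ β * z * z ^ 3 := mul_le_mul_of_nonneg_right a1 (by positivity)
  have a3 : β * (2 * z ^ 3 + z ^ 2) ≤ 1 * (2 * z ^ 3 + z ^ 2) :=
    mul_le_mul_of_nonneg_right h1 (by positivity)
  have a4 : 100 * z ^ 2 ≤ z * z ^ 2 := mul_le_mul_of_nonneg_right hz1 (by positivity)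
  have a5 : 0 ≤ β * z := by linarith
  unfold ss
  nlinarith

theorem iTh1 {u β x c : ℝ} (hu : 10 ≤ u) (hb : 3 ≤ β * u) (hx : 9 ≤ x) (hc : 1 ≤ c)
    (hs : 0 ≤ ss c) (hcu : c ≤ u ^ 2) :
    yy x c - β * ss c ≤ (5 / 8 * x ^ 2 + 3 / 2 * u ^ 2) * c := by
  have a1 := iL2 hb hs
  have a2 : 0 ≤ (c - 2 * (4 * u + 2) / 3) ^ 2 * (c + (4 * u + 2) / 3) := by positivity
  have a3 : 0 ≤ u * (x - 2 * c) ^ 2 := by positivity
  have a4 : 10 * u ^ 2 ≤ u * u ^ 2 := mul_le_mul_of_nonneg_right hu (by positivity)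
  have a5 : 9 * u ≤ x * u := mul_le_mul_of_nonneg_right hx (by linarith)
  have a6 : u * (x * (x + c - 2) / 2) - (c + 1) * (c - 1) * (c - 2) / 8 ≤
      u * (5 / 8 * x ^ 2 + 3 / 2 * u ^ 2) := by nlinarith
  have a7 := mul_le_mul_of_nonneg_right a6 (show 0 ≤ c by linarith)
  have a8 : u * (yy x c - β * ss c) ≤ u * ((5 / 8 * x ^ 2 + 3 / 2 * u ^ 2) * c) := by
    unfold yy; unfold ss at a1 ⊢; linarith
  exact le_of_mul_le_mul_left a8 (by linarith)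

theorem iTh2 {u β x c : ℝ} (hu : 10 ≤ u) (h0 : 0 ≤ β) (h1 : β ≤ 1) (hb : 3 ≤ β * u) (hx : 9 ≤ x)
    (hcu : u ^ 2 ≤ c) : yy x c - β * ss c / 2 ≤ (5 / 8 * x ^ 2 + 3 / 2 * u ^ 2) * c := by
  have a1 := iL1 hu h0 h1 hb hcu
  have hc : 100 ≤ c := by nlinarith
  have a3 : 0 ≤ c * (x - 2 * c) ^ 2 := by positivity
  have a4 : 0 ≤ u ^ 2 * c := by positivity
  have a5 : 0 ≤ x * c := by positivity
  have a6 : 0 ≤ c ^ 3 := by positivity
  unfold yy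
  nlinarith

theorem y8 {p x : ℝ} (hp : 1 ≤ p) (hp8 : p ≤ 8) (hx : 9 ≤ x) : yy p x ≤ 4 * x ^ 2 + 24 * x := by
  unfold yy
  have a1 : p * (p + x - 2) ≤ 8 * (8 + x - 2) :=
    mul_le_mul hp8 (by linarith) (by linarith) (by norm_num)
  have a2 := mul_le_mul_of_nonneg_right a1 (show 0 ≤ x by linarith)
  linarith

theorem iA0 {α β p x : ℝ} (hα : 100 ≤ α) (h0 : 0 ≤ β) (hp : 1 ≤ p) (hp8 : p ≤ 8) (hx : 9 ≤ x)
    (H : HH α β x) : 0 ≤ 9 * α + β / 2 - 6 + α * x - yy p x + β * ss x := by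
  have a1 := y8 hp hp8 hx
  unfold HH at H
  have a2 : 9 * x ^ 2 ≤ x * x ^ 2 := mul_le_mul_of_nonneg_right hx (by positivity)
  have a3 : 0 ≤ (x - 9) * (x - 9) * x := by positivity
  nlinarith

theorem iA1 {α β p x c : ℝ} (hα : 100 ≤ α) (hp : 1 ≤ p) (hp8 : p ≤ 8) (hx : 9 ≤ x)
    (hc : 1 ≤ c) (hcα : c ≤ α) (hd : x ≤ c ∨ c + 1 ≤ x) (H : HH α β x) (H' : HH α β c) :
    yy x c - β * ss c - α * p * c ≤ 9 * α + β / 2 - 6 + α * x - yy p x + β * ss x := by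
  have d1 : 0 ≤ (x - c) * (x - c - 1 / 2) * (x + c - 1) := by
    apply mul_nonneg _ (by linarith)
    rcases hd with h | h
    · exact mul_nonneg_of_nonpos_of_nonpos (by linarith) (by linarith)
    · exact mul_nonneg (by linarith) (by linarith)
  have e1 : c * c ≤ α * c := mul_le_mul_of_nonneg_right hcα (by linarith)
  have e2 : 100 * c ≤ α * c := mul_le_mul_of_nonneg_right hα (by linarith)
  have d2 : 7 * x ^ 2 + 49 * x ≤ (x - c) * (x - c - 1 / 2) * (x + c - 1) + 14 * (α * c) := by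
    rcases hd with h | h
    · nlinarith
    · obtain ⟨d, rfl⟩ : ∃ d, x = c + d := ⟨x - c, by ring⟩
      have hd0 : 0 ≤ d := by linarith
      have f1 : 0 ≤ (c - 1) * (2 * d ^ 2 - 15 * d + 651) :=
        mul_nonneg (by linarith) (by nlinarith [sq_nonneg (4 * d - 15)])
      have f2 : 0 ≤ d * (d - 8) ^ 2 := by positivity
      nlinarith [sq_nonneg (d - 6)]
  have g1 : 0 ≤ (8 - p) * ((x - c) * (x - c - 1 / 2) * (x + c - 1)) :=
    mul_nonneg (by linarith) d1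
  have g2 : 0 ≤ (p - 1) * ((x - c) * (x - c - 1 / 2) * (x + c - 1) + 14 * (α * c) -
      (7 * x ^ 2 + 49 * x)) := mul_nonneg (by linarith) (by linarith)
  have g3 : 0 ≤ (p - 1) * (8 - p) * x :=
    mul_nonneg (mul_nonneg (by linarith) (by linarith)) (by linarith)
  unfold HH at H H'
  unfold yy
  linarith

theorem iA2 {u β p x c : ℝ} (hu : 10 ≤ u) (h0 : 0 ≤ β) (h1 : β ≤ 1) (hb : 3 ≤ β * u)
    (hp : 1 ≤ p) (hp8 : p ≤ 8) (hx : 9 ≤ x) (hcu : u ^ 2 ≤ c) (H : HH (u ^ 2) β x) :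
    yy x c - β * ss c / 2 - u ^ 2 * p * c ≤
      9 * u ^ 2 + β / 2 - 6 + u ^ 2 * x - yy p x + β * ss x := by
  have a1 := iL1 hu h0 h1 hb hcu
  have hα : 100 ≤ u ^ 2 := by nlinarith
  have hc : 100 ≤ c := by linarith
  have a2 := y8 hp hp8 hx
  have a3 : 100 * c ≤ u ^ 2 * p * c := by
    apply mul_le_mul_of_nonneg_right _ (by linarith)
    nlinarith
  have a4 : 100 * c ^ 2 ≤ c * c ^ 2 := mul_le_mul_of_nonneg_right hc (by positivity)
  have a5 : 0 ≤ (x - c) ^ 2 * (x + c - 1 - 108) := mul_nonneg (by positivity) (by linarith)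
  have a6 := sq_nonneg (c - 2 * (x - c))
  have a7 := sq_nonneg (x - c - 1)
  have a8 := sq_nonneg (x - c)
  unfold HH at H
  unfold yy at a2 ⊢
  nlinarith

theorem iA3 {u β p x : ℝ} (hu : 10 ≤ u) (h0 : 0 ≤ β) (hb : 3 ≤ β * u)
    (hp : 1 ≤ p) (hp8 : p ≤ 8) (hx : 9 ≤ x)
    (hθ : u ^ 2 * p < 5 / 8 * x ^ 2 + 3 / 2 * u ^ 2) :
    9 * (5 / 8 * x ^ 2 + 3 / 2 * u ^ 2 - u ^ 2 * p) ^ 2 ≤
      8 * u ^ 2 * (9 * u ^ 2 + β / 2 - 6 + u ^ 2 * x - yy p x + β * ss x) := by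
  have hα : 100 ≤ u ^ 2 := by nlinarith
  have hs : 0 ≤ ss x := by
    unfold ss
    have : 0 ≤ x - 1 := by linarith
    have : 0 ≤ x - 2 := by linarith
    positivity
  have a1 := iL2 hb hs
  have a2 := y8 hp hp8 hx
  have a3 : 30 * ss x ≤ u ^ 2 * (β * ss x) := by nlinarith
  set α := u ^ 2 with hαd
  have a4 : α ≤ α * p := le_mul_of_one_le_right (by linarith) hp
  have a5 : (5 / 8 * x ^ 2 + 3 / 2 * α - α * p) ^ 2 ≤ (5 / 8 * x ^ 2 + α / 2) ^ 2 :=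
    pow_le_pow_left₀ (by linarith) (by linarith) 2
  have a6 : α * yy p x ≤ α * (4 * x ^ 2 + 24 * x) := mul_le_mul_of_nonneg_left a2 (by linarith)
  have a7 : 0 ≤ α * β := by positivity
  have b1 : 9 * x ^ 3 ≤ x * x ^ 3 := mul_le_mul_of_nonneg_right hx (by positivity)
  have b2 : 9 * x ^ 2 ≤ x * x ^ 2 := mul_le_mul_of_nonneg_right hx (by positivity)
  have b3 : 100 * (α * x) ≤ α * (α * x) := mul_le_mul_of_nonneg_right hα (by positivity)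
  have b4 : 9 * α ≤ x * α := mul_le_mul_of_nonneg_right hx (by linarith)
  have b5 : 9 * α ^ 2 ≤ x * α ^ 2 := mul_le_mul_of_nonneg_right hx (by positivity)
  have b6 := sq_nonneg (2 * x ^ 2 - 10 * α)
  unfold ss at a3 ⊢
  nlinarith

theorem iB {u β p x : ℝ} (hu : 10 ≤ u) (hb : 3 ≤ β * u) (hp : 9 ≤ p) (hx : 9 ≤ x)
    (hxu : x ≤ u ^ 2) (hθ : u ^ 2 * p < 5 / 8 * x ^ 2 + 3 / 2 * u ^ 2) :
    52 / 1000 * x ^ 4 ≤ u * (β * ss x - yy p x) := by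
  have hα : 100 ≤ u ^ 2 := by nlinarith
  have a0 : 9 * u ^ 2 ≤ u ^ 2 * p := by nlinarith
  have a1 : 12 * u ^ 2 ≤ x ^ 2 := by linarith
  have hx34 : 173 / 5 ≤ x := by nlinarith
  have hs : 0 ≤ ss x := by
    unfold ss
    have : 0 ≤ x - 1 := by linarith
    have : 0 ≤ x - 2 := by linarith
    positivity
  have a2 := iL2 hb hs
  have a3 : u ^ 2 * p ≤ 3 / 4 * x ^ 2 := by linarith
  have a4 : x * x ≤ u ^ 2 * x := mul_le_mul_of_nonneg_right hxu (by linarith)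
  have a5 : p ≤ 3 / 4 * x := by
    have : u ^ 2 * p ≤ u ^ 2 * (3 / 4 * x) := by nlinarith
    exact le_of_mul_le_mul_left this (by linarith)
  have a6 : (u ^ 2 * p) * (x * (p + x - 2)) ≤ (3 / 4 * x ^ 2) * (x * (7 / 4 * x)) := by
    apply mul_le_mul a3 _ (mul_nonneg (by linarith) (by linarith)) (by positivity)
    exact mul_le_mul_of_nonneg_left (by linarith) (by linarith)
  have hy : 0 ≤ yy p x := by
    unfold yy
    have : 0 ≤ p + x - 2 := by linarith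
    positivity
  have a7 : 10 * (u * yy p x) ≤ u * (u * yy p x) :=
    mul_le_mul_of_nonneg_right hu (mul_nonneg (by linarith) hy)
  have a8 : u * (u * yy p x) ≤ 21 / 32 * x ^ 4 := by unfold yy; linarith
  have b1 : 173 / 5 * x ^ 3 ≤ x * x ^ 3 := mul_le_mul_of_nonneg_right hx34 (by positivity)
  have b2 : 173 / 5 * x ^ 2 ≤ x * x ^ 2 := mul_le_mul_of_nonneg_right hx34 (by positivity)
  have a9 : 11765 / 100000 * x ^ 4 ≤ 3 * ss x := by unfold ss; linarith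
  linarith

theorem quart1 {u x c : ℝ} (hu : 0 ≤ u) (hx : 0 ≤ x) (hc : 0 ≤ c) :
    u * x ^ 2 * c / 2 + u * x * c ^ 2 / 2 ≤
      u ^ 3 * x + 52 / 1000 * x ^ 4 + 115 / 1000 * c ^ 4 + 883 / 100 * u ^ 3 * c := by
  have hux := mul_nonneg hu hx
  have huc := mul_nonneg hu hc
  have hxc := mul_nonneg hx hc
  linarith [mul_nonneg hxc (sq_nonneg (u - 1/4*c)), sq_nonneg (u*x - 1/6*x*x),
    mul_nonneg huc (sq_nonneg (u - 2/7*x)), mul_nonneg hxc (sq_nonneg (u - 1/10*x)),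
    sq_nonneg (u*c - 2/5*c*c), mul_nonneg huc (sq_nonneg (u - 2/9*c)),
    sq_nonneg (x*x - 7/8*x*c), sq_nonneg (u*c - 2/9*c*c), mul_nonneg hux (sq_nonneg (u - 2/7*x)),
    sq_nonneg (u*x - 2/9*c*c), sq_nonneg (x*c - 1/1*c*c), sq_nonneg (u*c - 1/9*x*x),
    mul_nonneg hxc (sq_nonneg (x - 7/8*c)), sq_nonneg (x*x - 9/7*c*c)]

theorem iB0 {u β p x : ℝ} (hu : 10 ≤ u) (hB : 52 / 1000 * x ^ 4 ≤ u * (β * ss x - yy p x)) :
    0 ≤ β * ss x - yy p x := by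
  have : 0 ≤ u * (β * ss x - yy p x) := le_trans (by positivity) hB
  exact nonneg_of_mul_nonneg_right this (by linarith)

theorem iB1 {u β p x c : ℝ} (hu : 10 ≤ u) (hb : 3 ≤ β * u) (hp : 9 ≤ p) (hx : 9 ≤ x)
    (hc : 1 ≤ c) (hs : 0 ≤ ss c) (hcu : c ≤ u ^ 2)
    (hB : 52 / 1000 * x ^ 4 ≤ u * (β * ss x - yy p x)) :
    yy x c - β * ss c - u ^ 2 * p * c ≤ u ^ 2 * x + β * ss x - yy p x := by
  have a1 := iL2 hb hs
  have a2 := quart1 (u := u) (x := x) (c := c) (by linarith) (by linarith) (by linarith)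
  have a3 : 9 * (u ^ 3 * c) ≤ p * (u ^ 3 * c) := mul_le_mul_of_nonneg_right hp (by positivity)
  have a4 : c * c ≤ u ^ 2 * c := mul_le_mul_of_nonneg_right hcu (by linarith)
  have a5 : 10 * (u ^ 2 * c) ≤ u * (u ^ 2 * c) := mul_le_mul_of_nonneg_right hu (by positivity)
  have a6 := sq_nonneg (c ^ 2 / 10 - 5 / 4 * c)
  have a7 : 0 ≤ u * x * c := by positivity
  have a9 : 0 ≤ u ^ 3 * c := by positivity
  have a8 : u * (yy x c - β * ss c - u ^ 2 * p * c) ≤ u * (u ^ 2 * x + β * ss x - yy p x) := by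
    unfold yy at hB ⊢
    unfold ss at a1
    unfold ss at hB ⊢
    linarith
  exact le_of_mul_le_mul_left a8 (by linarith)

theorem iB2 {u β p x c : ℝ} (hu : 10 ≤ u) (h0 : 0 ≤ β) (h1 : β ≤ 1) (hb : 3 ≤ β * u)
    (hp : 9 ≤ p) (hx : 9 ≤ x) (hcu : u ^ 2 ≤ c)
    (hB : 52 / 1000 * x ^ 4 ≤ u * (β * ss x - yy p x)) :
    yy x c - β * ss c / 2 - u ^ 2 * p * c ≤ u ^ 2 * x + β * ss x - yy p x := by
  have a0 := iB0 hu hB
  have a1 := iL1 hu h0 h1 hb hcu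
  have hc : 100 ≤ c := by nlinarith
  set D := β * ss x - yy p x with hD
  have a2 : 10 * (u * D) ≤ u * (u * D) := mul_le_mul_of_nonneg_right hu (by positivity)
  have a3 : u ^ 2 * D ≤ c * D := mul_le_mul_of_nonneg_right hcu a0
  have a4 : c * (279 / 240 * c ^ 3) ≤ c * (β * ss c) := mul_le_mul_of_nonneg_left a1 (by linarith)
  have a5 := sq_nonneg (x ^ 2 - 75 / 100 * c ^ 2)
  have a6 := sq_nonneg (x * c - c ^ 2)
  have a7 : 0 ≤ x * c ^ 2 := by positivity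
  have a8 : 0 ≤ c * (u ^ 2 * p * c) := by positivity
  have a9 : 0 ≤ c * (u ^ 2 * x) := by positivity
  have b0 : 0 ≤ c ^ 4 := by positivity
  have b1 : 0 ≤ x ^ 2 * c ^ 2 := by positivity
  have b2 : c * (yy x c - β * ss c / 2 - u ^ 2 * p * c) ≤ c * (u ^ 2 * x + D) := by
    unfold yy
    linarith
  have := le_of_mul_le_mul_left b2 (by linarith)
  linarith

theorem iB3 {u β p x : ℝ} (hu : 10 ≤ u) (hp : 9 ≤ p) (hx : 9 ≤ x)
    (hθ : u ^ 2 * p < 5 / 8 * x ^ 2 + 3 / 2 * u ^ 2)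
    (hB : 52 / 1000 * x ^ 4 ≤ u * (β * ss x - yy p x)) :
    9 * (5 / 8 * x ^ 2 + 3 / 2 * u ^ 2 - u ^ 2 * p) ^ 2 ≤
      8 * u ^ 2 * (u ^ 2 * x + β * ss x - yy p x) := by
  have a0 := iB0 hu hB
  have a2 : 10 * (u * (β * ss x - yy p x)) ≤ u * (u * (β * ss x - yy p x)) :=
    mul_le_mul_of_nonneg_right hu (by positivity)
  have a3 : 9 * u ^ 2 ≤ p * u ^ 2 := mul_le_mul_of_nonneg_right hp (by positivity)
  have a4 : 0 ≤ u ^ 2 := by positivity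
  have a5 : (5 / 8 * x ^ 2 + 3 / 2 * u ^ 2 - u ^ 2 * p) ^ 2 ≤ (5 / 8 * x ^ 2) ^ 2 :=
    pow_le_pow_left₀ (by linarith) (by linarith) 2
  have a6 : 0 ≤ u ^ 2 * (u ^ 2 * x) := by positivity
  have a7 : 0 ≤ x ^ 4 := by positivity
  linarith

theorem yy_half {x c : ℝ} (hx : 1 ≤ x) (hc : 0 ≤ c) :
    yy x c ≤ x ^ 2 * (x - 1) / 2 + c ^ 2 * (c - 1) / 2 := by
  have : 0 ≤ (x - c) ^ 2 * (x + c - 1) := mul_nonneg (by positivity) (by linarith)
  unfold yy; linarith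

theorem iC1 {u β p x c : ℝ} (hu : 10 ≤ u) (h0 : 0 ≤ β) (h1 : β ≤ 1) (hb : 3 ≤ β * u)
    (hp : 9 ≤ p) (hxu : u ^ 2 ≤ x) (hc : 1 ≤ c) (H : HH (u ^ 2) β c) :
    yy x c - β * ss c - u ^ 2 * p * c ≤ β * ss x / 2 := by
  have a1 := iL1 hu h0 h1 hb hxu
  have hx : 100 ≤ x := by nlinarith
  have a2 := yy_half (x := x) (c := c) (by linarith) (by linarith)
  have a3 : 9 * (u ^ 2 * c) ≤ p * (u ^ 2 * c) := mul_le_mul_of_nonneg_right hp (by positivity)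
  have a4 : u ^ 2 * 1 ≤ u ^ 2 * c := mul_le_mul_of_nonneg_left hc (by positivity)
  have a5 : 0 ≤ c * (c - 1) := mul_nonneg (by linarith) (by linarith)
  have a6 : 0 ≤ x ^ 2 := by positivity
  have a7 : 0 ≤ x ^ 3 := by positivity
  have a8 : 0 ≤ u ^ 2 := by positivity
  unfold HH at H
  linarith

theorem iC2 {u β p x c : ℝ} (hu : 10 ≤ u) (h0 : 0 ≤ β) (h1 : β ≤ 1) (hb : 3 ≤ β * u)
    (hp : 9 ≤ p) (hxu : u ^ 2 ≤ x) (hcu : u ^ 2 ≤ c) :
    yy x c - β * ss c / 2 - u ^ 2 * p * c ≤ β * ss x / 2 := by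
  have a1 := iL1 hu h0 h1 hb hxu
  have a1' := iL1 hu h0 h1 hb hcu
  have hx : 100 ≤ x := by nlinarith
  have hc : 100 ≤ c := by nlinarith
  have a2 := yy_half (x := x) (c := c) (by linarith) (by linarith)
  have a3 : 0 ≤ u ^ 2 * p * c := by positivity
  have a6 : 0 ≤ x ^ 2 := by positivity
  have a7 : 0 ≤ x ^ 3 := by positivity
  have a8 : 0 ≤ c ^ 2 := by positivity
  have a9 : 0 ≤ c ^ 3 := by positivity
  linarith

theorem iC3 {u β p x : ℝ} (hu : 10 ≤ u) (hb : 3 ≤ β * u) (hp : 9 ≤ p) (hxu : u ^ 2 ≤ x)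
    (hθ : u ^ 2 * p < 5 / 8 * x ^ 2 + 3 / 2 * u ^ 2) :
    9 * (5 / 8 * x ^ 2 + 3 / 2 * u ^ 2 - u ^ 2 * p) ^ 2 ≤ 8 * u ^ 2 * (β * ss x / 2) := by
  have hx : 100 ≤ x := by nlinarith
  have hs : 0 ≤ ss x := by
    unfold ss
    have : 0 ≤ x - 1 := by linarith
    have : 0 ≤ x - 2 := by linarith
    positivity
  have a1 := iL2 hb hs
  have a2 : 10 * (u * (β * ss x)) ≤ u * (u * (β * ss x)) :=
    mul_le_mul_of_nonneg_right hu (by linarith)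
  have a3 : 9 * u ^ 2 ≤ p * u ^ 2 := mul_le_mul_of_nonneg_right hp (by positivity)
  have a4 : 0 ≤ u ^ 2 := by positivity
  have a5 : (5 / 8 * x ^ 2 + 3 / 2 * u ^ 2 - u ^ 2 * p) ^ 2 ≤ (5 / 8 * x ^ 2) ^ 2 :=
    pow_le_pow_left₀ (by linarith) (by linarith) 2
  have b1 : 100 * x ^ 3 ≤ x * x ^ 3 := mul_le_mul_of_nonneg_right hx (by positivity)
  have b2 : 100 * x ^ 2 ≤ x * x ^ 2 := mul_le_mul_of_nonneg_right hx (by positivity)
  have b3 : 0 ≤ x ^ 4 := by positivity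
  have a9 : 9 / 240 * x ^ 4 ≤ ss x := by unfold ss; linarith
  linarith

theorem beta_lb {u β a : ℝ} (hu : 10 ≤ u) (ha : 13 / 5 * u ≤ a) (ha' : a ≤ 13 / 5 * u + 1)
    (H : HH (u ^ 2) β a) : 3 ≤ β * u := by
  have hs : 0 < 2 * ss a + 1 / 2 := by
    unfold ss
    have : 0 ≤ a - 1 := by linarith
    have : 0 ≤ a - 2 := by linarith
    have : 0 ≤ a := by linarith
    positivity
  have key : 3 * (2 * ss a + 1 / 2) ≤
      u * (a ^ 2 * (a - 1) + a * (a - 1) / 2 + 6 - u ^ 2 * (2 * a + 9)) := by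
    obtain ⟨w, rfl⟩ : ∃ w, u = 10 + w := ⟨u - 10, by ring⟩
    obtain ⟨t, rfl⟩ : ∃ t, a = 13 / 5 * (10 + w) + t := ⟨a - 13 / 5 * (10 + w), by ring⟩
    have hw : 0 ≤ w := by linarith
    have ht : 0 ≤ t := by linarith
    have ht1 : 0 ≤ 1 - t := by linarith
    unfold ss
    have m1 : 0 ≤ t * (1 - t) := by positivity
    have m2 : 0 ≤ t ^ 2 * (1 - t) := by positivity
    have m3 : 0 ≤ t ^ 3 * (1 - t) := by positivity
    have m4 : 0 ≤ w * t * (1 - t) := by positivity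
    have m5 : 0 ≤ w * t ^ 2 * (1 - t) := by positivity
    have m6 : 0 ≤ w ^ 2 * t * (1 - t) := by positivity
    have m7 : 0 ≤ w * t := by positivity
    have m8 : 0 ≤ w ^ 2 * t := by positivity
    have m9 : 0 ≤ w ^ 3 * t := by positivity
    have n1 : 0 ≤ w ^ 2 := by positivity
    have n2 : 0 ≤ w ^ 3 := by positivity
    have n3 : 0 ≤ w ^ 4 := by positivity
    linarith
  unfold HH at H
  have a1 := mul_le_mul_of_nonneg_left H (show 0 ≤ u by linarith)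
  have a2 : 3 * (2 * ss a + 1 / 2) ≤ β * u * (2 * ss a + 1 / 2) := by linarith
  exact le_of_mul_le_mul_right a2 hs

end Pool.Agent.Prof5
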