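import Pool.Agent.Lib.MP_ed556a_co.Build

/-! Every point of the closed convex hull is a limit of profiles. -/

namespace Pool.Agent.Prof5

open SimpleGraph Filter Topology

theorem mem_Delta_of_approx {p : ℝ × ℝ × ℝ}
    (h : ∀ ε : ℝ, 0 < ε → ∀ N : ℕ, ∃ (n : ℕ) (G : SimpleGraph (Fin n)),
      N ≤ n ∧ G.IsTree ∧ dist (profile G) p < ε) : p ∈ Delta := by
  choose n G h1 h2 h3 using fun k : ℕ => h (1 / ((k:ℝ) + 1)) (by positivity) k
  refine ⟨n, G, h2, tendsto_atTop_mono h1 tendsto_id, ?_⟩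
  rw [tendsto_iff_dist_tendsto_zero]
  exact squeeze_zero (fun _ => dist_nonneg) (fun k => (h3 k).le)
    tendsto_one_div_add_atTop_nhds_zero_nat

theorem isClosed_Delta : IsClosed Delta := by
  refine isClosed_of_closure_subset fun p hp => mem_Delta_of_approx fun ε hε N => ?_
  obtain ⟨q, ⟨n, G, h1, h2, h3⟩, hq⟩ := Metric.mem_closure_iff.1 hp (ε / 2) (by linarith)
  obtain ⟨k, a1, a2⟩ := ((h2.eventually_ge_atTop N).and
    (Metric.tendsto_nhds.1 h3 (ε / 2) (by linarith))).exists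
  refine ⟨n k, G k, a1, h1 k, ?_⟩
  have := dist_triangle_right (profile (G k)) p q
  linarith

noncomputable def nrm (v : ℝ × ℝ × ℝ) : ℝ × ℝ × ℝ := (v.1 + v.2.1 + v.2.2)⁻¹ • v

theorem nrm_smul {c : ℝ} (hc : 0 < c) (v : ℝ × ℝ × ℝ) : nrm (c • v) = nrm v := by
  unfold nrm
  simp only [Prod.smul_fst, Prod.smul_snd, smul_eq_mul]
  rw [← mul_add, ← mul_add, mul_inv, smul_smul, mul_right_comm, inv_mul_cancel₀ hc.ne', one_mul]

theorem Block.mem_Delta {b : ℝ × ℝ × ℝ} (hb : Block b) : nrm b ∈ Delta := by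
  refine mem_Delta_of_approx fun ε hε N => ?_
  obtain ⟨m, G, h1, h2, h3, h4, h5⟩ := Ifc_final (hb.iter (N + 1))
  refine ⟨m, G, by omega, h2, ?_⟩
  have : profile G = nrm b := by
    rw [← nrm_smul (c := ((N + 1 : ℕ) : ℝ)) (by positivity) b]
    unfold profile Ztot nrm
    rw [h3, h4, h5]
    simp only [Prod.smul_fst, Prod.smul_snd, smul_eq_mul, div_eq_inv_mul]
    rfl
  rw [this, _root_.dist_self]; exact hε

def Kset : Set (ℝ × ℝ × ℝ) := {v | ∃ c : ℝ, 0 < c ∧ ∃ b, Block b ∧ v = c • b}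

theorem Block.mem_K {b : ℝ × ℝ × ℝ} (hb : Block b) : b ∈ closure Kset :=
  subset_closure ⟨1, one_pos, b, hb, (one_smul _ _).symm⟩

theorem K_smul {c : ℝ} (hc : 0 < c) {v : ℝ × ℝ × ℝ} (hv : v ∈ closure Kset) :
    c • v ∈ closure Kset := by
  refine map_mem_closure (f := fun v => c • v) (continuous_const_smul c) hv ?_
  rintro _ ⟨d, hd, b, hb, rfl⟩
  exact ⟨c * d, mul_pos hc hd, b, hb, smul_smul _ _ _⟩

theorem K_add {v w : ℝ × ℝ × ℝ} (hv : v ∈ closure Kset) (hw : w ∈ closure Kset) :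
    v + w ∈ closure Kset := by
  rw [← closure_closure (s := Kset)]
  refine map_mem_closure₂ (f := fun v w => v + w) continuous_add hv hw ?_
  rintro _ ⟨c, hc, b, hb, rfl⟩ _ ⟨d, hd, e, he, rfl⟩
  have t1 := (tendsto_nat_ceil_mul_div_atTop (R := ℝ) hc.le).smul_const b
  have t2 := (tendsto_nat_ceil_mul_div_atTop (R := ℝ) hd.le).smul_const e
  refine mem_closure_of_tendsto (t1.add t2) ?_
  filter_upwards [eventually_gt_atTop (0:ℝ)] with x hx
  refine ⟨x⁻¹, inv_pos.2 hx, _, (hb.nsmul ⌈c * x⌉₊ (Nat.ceil_pos.2 (mul_pos hc hx))).add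
    (he.nsmul ⌈d * x⌉₊ (Nat.ceil_pos.2 (mul_pos hd hx))), ?_⟩
  rw [smul_add, smul_smul, smul_smul, div_eq_inv_mul, div_eq_inv_mul]

theorem K_convex : Convex ℝ (closure Kset) := by
  intro v hv w hw a b ha hb hab
  rcases ha.eq_or_lt with rfl | ha'
  · rw [zero_add] at hab; simpa [hab] using hw
  rcases hb.eq_or_lt with rfl | hb'
  · rw [add_zero] at hab; simpa [hab] using hv
  exact K_add (K_smul ha' hv) (K_smul hb' hw)

theorem K_slice {v : ℝ × ℝ × ℝ} (hv : v ∈ closure Kset) (h1 : v.1 + v.2.1 + v.2.2 = 1) :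
    v ∈ Delta := by
  have hc : ContinuousAt nrm v := by
    unfold nrm
    have hc0 : ContinuousAt (fun v : ℝ × ℝ × ℝ => v.1 + v.2.1 + v.2.2) v := by fun_prop
    exact (hc0.inv₀ (by rw [h1]; exact one_ne_zero)).smul continuousAt_id
  have h2 := hc.continuousWithinAt.mem_closure_image hv
  have h3 : nrm v = v := by unfold nrm; rw [h1, inv_one, one_smul]
  rw [h3] at h2
  refine isClosed_Delta.closure_subset (closure_mono ?_ h2)
  rintro _ ⟨_, ⟨c, hc, b, hb, rfl⟩, rfl⟩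
  rw [nrm_smul hc]; exact hb.mem_Delta

def Qset : Set (ℝ × ℝ) := {q | (q.1, q.2, 1 - q.1 - q.2) ∈ closure Kset}

theorem Q_closed : IsClosed Qset :=
  isClosed_closure.preimage (f := fun q : ℝ × ℝ => (q.1, q.2, 1 - q.1 - q.2)) (by fun_prop)

theorem Q_convex : Convex ℝ Qset := by
  intro v hv w hw a b ha hb hab
  have := K_convex hv hw ha hb hab
  show ((a • v + b • w).1, (a • v + b • w).2, 1 - (a • v + b • w).1 - (a • v + b • w).2) ∈
    closure Kset
  have e : ((a • v + b • w).1, (a • v + b • w).2, 1 - (a • v + b • w).1 - (a • v + b • w).2) =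
      a • (v.1, v.2, 1 - v.1 - v.2) + b • (w.1, w.2, 1 - w.1 - w.2) := by
    simp only [Prod.smul_mk, Prod.mk_add_mk, smul_eq_mul, Prod.fst_add, Prod.snd_add,
      Prod.smul_fst, Prod.smul_snd, Prod.mk.injEq, true_and]
    linear_combination (-1 : ℝ) * hab
  rw [e]; exact this

theorem Q_sub : Qset ⊆ PathStarSet := fun q hq =>
  ⟨_, K_slice hq (by simp only []; ring), rfl⟩

theorem pt_mem_Q {P S Y : ℝ} (h : (P, S, Y) ∈ closure Kset) (hZ : 0 < P + S + Y) :
    pt P S Y ∈ Qset := by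
  have := K_smul (inv_pos.2 hZ) h
  show (P / (P + S + Y), S / (P + S + Y), 1 - P / (P + S + Y) - S / (P + S + Y)) ∈ closure Kset
  have e : (P / (P + S + Y), S / (P + S + Y), 1 - P / (P + S + Y) - S / (P + S + Y)) =
      (P + S + Y)⁻¹ • (P, S, Y) := by
    simp only [Prod.smul_mk, smul_eq_mul, Prod.mk.injEq, div_eq_inv_mul, true_and]
    field_simp; ring
  rw [e]; exact this

theorem K_of_lin {v e : ℝ × ℝ × ℝ} (h : ∀ L : ℕ, Block ((L:ℝ) • v + e)) : v ∈ closure Kset := by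
  have t1 := (tendsto_inv_atTop_nhds_zero_nat (𝕜 := ℝ)).smul_const e
  have t2 := t1.const_add v
  rw [zero_smul, add_zero] at t2
  refine mem_closure_of_tendsto t2 ?_
  filter_upwards [eventually_gt_atTop 0] with L hL
  have hL' : (0:ℝ) < L := by exact_mod_cast hL
  refine ⟨(L:ℝ)⁻¹, inv_pos.2 hL', _, h L, ?_⟩
  rw [smul_add, smul_smul, inv_mul_cancel₀ hL'.ne', one_smul]

theorem K_star : ((0, 1, 0) : ℝ × ℝ × ℝ) ∈ closure Kset := by
  have hs : ∀ k : ℕ, sT (((k + 3 : ℕ) : ℝ) + 1) = ((k:ℝ) + 5) * (k + 4) * (k + 3) * (k + 2) := by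
    intro k; unfold sT; push_cast; ring
  have t0 : Tendsto (fun k : ℕ => (24:ℝ) / k) atTop (𝓝 0) :=
    tendsto_const_div_atTop_nhds_zero_nat 24
  have t1 : Tendsto (fun k : ℕ => 24 * (2 * (k:ℝ) + 9) / ((k + 5) * (k + 4) * (k + 3) * (k + 2)))
      atTop (𝓝 0) := by
    refine squeeze_zero' (Eventually.of_forall fun k => by positivity) ?_ t0
    filter_upwards [eventually_gt_atTop 0] with k hk
    have hk' : (0:ℝ) < k := by exact_mod_cast hk
    rw [div_le_div_iff₀ (by positivity) hk']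
    have : 0 ≤ (k:ℝ) ^ 2 := by positivity
    have : 0 ≤ (k:ℝ) ^ 3 := by positivity
    have : 0 ≤ (k:ℝ) ^ 4 := by positivity
    linarith
  have t2 : Tendsto (fun k : ℕ => 24 * (((k:ℝ) + 4) * (k + 3)) /
      ((k + 5) * (k + 4) * (k + 3) * (k + 2))) atTop (𝓝 0) := by
    refine squeeze_zero' (Eventually.of_forall fun k => by positivity) ?_ t0
    filter_upwards [eventually_gt_atTop 0] with k hk
    have hk' : (0:ℝ) < k := by exact_mod_cast hk
    rw [div_le_div_iff₀ (by positivity) hk']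
    have : 0 ≤ (k:ℝ) ^ 2 := by positivity
    have : 0 ≤ (k:ℝ) ^ 3 := by positivity
    have : 0 ≤ (k:ℝ) ^ 4 := by positivity
    linarith
  refine mem_closure_of_tendsto (t1.prodMk_nhds ((tendsto_const_nhds (x := (1:ℝ))).prodMk_nhds t2))
    (Eventually.of_forall fun k => ?_)
  have hk : (0:ℝ) ≤ k := Nat.cast_nonneg k
  refine ⟨24 / (((k:ℝ) + 5) * (k + 4) * (k + 3) * (k + 2)), by positivity, _, block_star (k + 3), ?_⟩
  rw [hs]
  simp only [Prod.smul_mk, smul_eq_mul, Prod.mk.injEq]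
  push_cast
  refine ⟨?_, ?_, ?_⟩ <;> field_simp <;> ring

theorem choose4 (a : ℕ) : (((a + 1).choose 4 : ℕ) : ℝ) = sT a / 24 := by
  induction a with
  | zero => simp [sT, Nat.choose]
  | succ a ih =>
    have h3 : ∀ b : ℕ, (((b + 1).choose 3 : ℕ) : ℝ) = (b + 1) * b * (b - 1) / 6 := by
      intro b
      induction b with
      | zero => simp [Nat.choose]
      | succ b ihb =>
        rw [Nat.choose_succ_succ' (b + 1) 2, Nat.cast_add, ihb, Nat.cast_choose_two]
        push_cast; ring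
    rw [Nat.choose_succ_succ' (a + 1) 3, Nat.cast_add, ih, h3]
    unfold sT; push_cast; ring

theorem hub_mem {P S Y P' S' Y' : ℝ} (h : Ifc 1 P S Y 0) (hp : 0 ≤ P + S + Y)
    (e1 : P' = P + 9) (e2 : S' = S + 1 / 2) (e3 : Y' = Y + 6) : pt P' S' Y' ∈ Qset := by
  have := K_smul (c := 1 / 2) (by norm_num) (block_hub h hp).mem_K
  refine pt_mem_Q ?_ (by linarith)
  have e : ((P', S', Y') : ℝ × ℝ × ℝ) = (1 / 2 : ℝ) • (2 * P + 18, 2 * S + 1, 2 * Y + 12) := by
    simp only [Prod.smul_mk, smul_eq_mul, Prod.mk.injEq]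
    refine ⟨?_, ?_, ?_⟩ <;> linarith
  rw [e]; exact this

theorem mill_mem (k : ℕ) {P S Y : ℝ} (e1 : P = ((k:ℝ) + 1) ^ 2) (e2 : S = sT (k + 1) / 24)
    (e3 : Y = ((k:ℝ) + 1) ^ 2 * k) (hZ : 0 < P + S + Y) : pt P S Y ∈ Qset := by
  refine pt_mem_Q ?_ hZ
  rw [e1, e2, e3]
  exact K_of_lin (block_mill k)

theorem verts_sub : verts ⊆ Qset := by
  rintro q (hq | ⟨a, ha, rfl⟩)
  · simp only [Set.mem_insert_iff, Set.mem_singleton_iff] at hq
    rcases hq with rfl | rfl | rfl | rfl | rfl | rfl | rfl | rfl | rfl | rfl | rfl | rfl | rfl | rfl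
    · simpa [Qset] using K_star
    · simpa [Qset] using block_path.mem_K
    · exact mill_mem 1 (by norm_num) (by norm_num [sT]) (by norm_num) (by norm_num)
    · exact mill_mem 2 (by norm_num) (by norm_num [sT]) (by norm_num) (by norm_num)
    · exact mill_mem 3 (by norm_num) (by norm_num [sT]) (by norm_num) (by norm_num)
    · exact pt_mem_Q block_c1.mem_K (by norm_num)
    · exact pt_mem_Q block_c2.mem_K (by norm_num)
    · exact hub_mem arm4 (by norm_num) (by norm_num) (by norm_num) (by norm_num)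
    · exact hub_mem (arm3 4 5 5) (by norm_num [sT]) (by norm_num) (by norm_num [sT]) (by norm_num)
    · exact hub_mem (arm3 4 6 5) (by norm_num [sT]) (by norm_num) (by norm_num [sT]) (by norm_num)
    · exact hub_mem (arm3 5 6 5) (by norm_num [sT]) (by norm_num) (by norm_num [sT]) (by norm_num)
    · exact hub_mem (arm3 5 7 6) (by norm_num [sT]) (by norm_num) (by norm_num [sT]) (by norm_num)
    · exact hub_mem (arm3 6 8 7) (by norm_num [sT]) (by norm_num) (by norm_num [sT]) (by norm_num)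
    · exact hub_mem (arm3 6 9 7) (by norm_num [sT]) (by norm_num) (by norm_num [sT]) (by norm_num)
  · obtain ⟨k, rfl⟩ : ∃ k, a = k + 1 := ⟨a - 1, by omega⟩
    have hk : (7:ℝ) ≤ k := by exact_mod_cast (show 7 ≤ k by omega)
    unfold dsPt
    refine hub_mem (arm2 k) ?_ (by push_cast; ring) ?_ (by push_cast; ring)
    · unfold sT
      have h1 : (0:ℝ) ≤ (k:ℝ) + 1 - 1 := by linarith
      have h2 : (0:ℝ) ≤ (k:ℝ) + 1 - 2 := by linarith
      positivity
    · rw [choose4]; push_cast; ring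

theorem lower : closedConvexHull ℝ verts ⊆ PathStarSet :=
  (closedConvexHull_min verts_sub Q_convex Q_closed).trans Q_sub

end Pool.Agent.Prof5
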