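import Pool.Agent.Lib.MP_ed556a_co.Core
import Pool.Agent.Lib.MP_ed556a_co.Chk

/-! Soundness of the row checks. -/

namespace Pool.Agent.Prof5

theorem s24_cast (c : ℕ) : (s24 c : ℝ) = 24 * sR c := by
  unfold s24 sR
  rcases c with _ | _ | c
  · norm_num
  · norm_num
  · have h1 : c + 1 + 1 - 1 = c + 1 := by omega
    have h2 : c + 1 + 1 - 2 = c := by omega
    rw [h1, h2]; push_cast; ring

theorem y_cast (n x c : ℕ) (hx : 1 ≤ x) (hc : 1 ≤ c) :
    ((n * x * c * (x + c - 2) : ℕ) : ℝ) = 2 * n * yR x c := by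
  unfold yR
  rw [Nat.cast_mul, Nat.cast_sub (by omega)]
  push_cast; ring

/-- The value function read from a shifted list. -/
noncomputable def Wf (σ : ℝ) (A L Q : ℕ) (Z : List ℕ) (j : ℕ) : ℝ :=
  if j ≤ Q then ((Z.getD (j - 1) 0 : ℝ) - A * ((L:ℝ) * L - j * j)) / (2 * σ) else 0

theorem castP (A L j : ℕ) (h : j ≤ L) :
    ((A * (L * L - j * j) : ℕ) : ℝ) = A * ((L:ℝ) * L - j * j) := by
  rw [Nat.cast_mul, Nat.cast_sub (Nat.mul_le_mul h h)]; push_cast; ring

theorem Wf_step {σ : ℝ} (hσ : 0 < σ) {A : ℕ} (hA : 0 < A) {f : ℕ → ℝ} (vals : List ℕ)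
    (hf : ∀ c, 1 ≤ c → c ≤ vals.length → f c ≤ (vals.getD (c - 1) 0 : ℝ) / σ)
    (Q L : ℕ) (hQ : Q = qOf A vals A 0) (hL : L = Q + vals.length) (Z Z' : List ℕ)
    (hZ : ∀ i, Q ≤ i → i < L → Z.getD i 0 = A * (L * L - (1 + i) * (1 + i)))
    (hs : ∀ i, i < Q → ∀ k, k < vals.length →
      (toU A vals 1).getD k 0 + Z.getD (i + 1 + k) 0 ≤ Z'.getD i 0)
    (q c : ℕ) (hq : 1 ≤ q) (hc : 1 ≤ c) (hcC : c ≤ vals.length) :
    f c - A / σ * q * c + Wf σ A L Q Z (q + c) ≤ Wf σ A L Q Z' q := by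
  have h1 := hf c hc hcC
  obtain ⟨k, rfl⟩ : ∃ k, c = k + 1 := ⟨c - 1, by omega⟩
  obtain ⟨i, rfl⟩ : ∃ i, q = i + 1 := ⟨q - 1, by omega⟩
  simp only [Nat.add_sub_cancel] at h1
  by_cases hqQ : i + 1 ≤ Q
  · have h2 := hs i (by omega) k (by omega)
    rw [(toU_spec A vals 1).2 k (by omega)] at h2
    have h3 : Wf σ A L Q Z (i + 1 + (k + 1)) = ((Z.getD (i + 1 + k) 0 : ℝ) -
        A * ((L:ℝ) * L - (i + 1 + (k + 1) : ℕ) * (i + 1 + (k + 1) : ℕ))) / (2 * σ) := by
      unfold Wf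
      split_ifs with h4
      · rw [show i + 1 + (k + 1) - 1 = i + 1 + k by omega]
      · rw [hZ (i + 1 + k) (by omega) (by omega), show 1 + (i + 1 + k) = i + 1 + (k + 1) by omega,
          castP A L _ (by omega)]
        simp
    have h5 : Wf σ A L Q Z' (i + 1) = ((Z'.getD i 0 : ℝ) -
        A * ((L:ℝ) * L - (i + 1 : ℕ) * (i + 1 : ℕ))) / (2 * σ) := by
      unfold Wf
      rw [if_pos hqQ, Nat.add_sub_cancel]
    rw [h3, h5]
    have h6 : (2 * (vals.getD k 0 : ℝ) + A * ((1 + k) * (1 + k))) + (Z.getD (i + 1 + k) 0 : ℝ) ≤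
        (Z'.getD i 0 : ℝ) := by exact_mod_cast h2
    have h7 : f (k + 1) * σ ≤ (vals.getD k 0 : ℝ) := by rwa [le_div_iff₀ hσ] at h1
    push_cast
    rw [← sub_nonneg]
    have h8 : ((Z'.getD i 0 : ℝ) - A * ((L:ℝ) * L - (i + 1) * (i + 1))) / (2 * σ) -
        (f (k + 1) - A / σ * (i + 1) * (k + 1) + ((Z.getD (i + 1 + k) 0 : ℝ) -
          A * ((L:ℝ) * L - (i + 1 + (k + 1)) * (i + 1 + (k + 1)))) / (2 * σ)) =
        ((Z'.getD i 0 : ℝ) - (Z.getD (i + 1 + k) 0 : ℝ) - A * ((1 + k) * (1 + k))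
          - 2 * (f (k + 1) * σ)) / (2 * σ) := by
      field_simp; ring
    rw [h8]
    apply div_nonneg <;> linarith
  · have h2 := qOf_bound hA vals k (by omega)
    rw [← hQ] at h2
    have h3 : A * (Q + 1) * (k + 1) ≤ A * (i + 1) * (k + 1) :=
      Nat.mul_le_mul_right _ (Nat.mul_le_mul_left _ (by omega))
    have h4 : (vals.getD k 0 : ℝ) ≤ A * (i + 1) * (k + 1) := by exact_mod_cast h2.trans h3
    unfold Wf
    rw [if_neg (by omega), if_neg hqQ]
    push_cast
    have h5 : (vals.getD k 0 : ℝ) / σ ≤ A / σ * (i + 1) * (k + 1) := by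
      rw [div_le_iff₀ hσ]
      have : (A:ℝ) / σ * (i + 1) * (k + 1) * σ = A * (i + 1) * (k + 1) := by field_simp
      linarith
    linarith

theorem Wf_le_row {σ : ℝ} (hσ : 0 < σ) {A L Q : ℕ} (hQL : Q ≤ L) {Z row : List ℕ}
    (h : leZ A L Q Z row 1 = true) (p : ℕ) (hp : 1 ≤ p) :
    Wf σ A L Q Z p ≤ (row.getD (p - 1) 0 : ℝ) / σ := by
  unfold Wf
  split_ifs with h1
  · have h2 := leZ_spec A L Q Z row 1 h (p - 1) (by omega)
    rw [show 1 + (p - 1) = p by omega] at h2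
    have h3 : (Z.getD (p - 1) 0 : ℝ) ≤ 2 * (row.getD (p - 1) 0 : ℝ) + A * ((L:ℝ) * L - p * p) := by
      rw [← castP A L p (by omega)]; exact_mod_cast h2
    rw [div_le_div_iff₀ (by linarith) hσ]
    nlinarith
  · positivity

theorem rowL_sound {σ : ℝ} (hσ : 0 < σ) {A : ℕ} (hA : 0 < A) {f : ℕ → ℝ} (h0 : f 0 ≤ 0)
    {vals row : List ℕ} {k : ℕ}
    (hf : ∀ c, 1 ≤ c → c ≤ vals.length → f c ≤ (vals.getD (c - 1) 0 : ℝ) / σ)
    (h : rowL A k vals row = true) (l : List ℕ) (hl : ∀ c ∈ l, c ≤ vals.length)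
    (hk : l.length ≤ k) (p : ℕ) (hp : 1 ≤ p) :
    net (A / σ) f p l ≤ (row.getD (p - 1) 0 : ℝ) / σ := by
  unfold rowL at h
  rw [frc_eq, frc_eq] at h
  set Q := qOf A vals A 0 with hQ
  set L := Q + vals.length with hL
  set us := toU A vals 1 with hus
  have hul : us.length = vals.length := (toU_spec A vals 1).1
  refine le_trans ?_ (Wf_le_row hσ (by omega) h p hp)
  refine net_le_Wk (W := fun k => Wf σ A L Q (layers2 A L Q us k)) h0 ?_ ?_ ?_ l hl k p hk hp
  · intro q hq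
    show 0 ≤ Wf σ A L Q (pad A L L 1) q
    unfold Wf
    split_ifs with h1
    · rw [(pad_spec A L L 1).2 (q - 1) (by omega), show 1 + (q - 1) = q by omega,
        castP A L q (by omega)]
      simp
    · exact le_rfl
  · intro k q _
    simp only [layers2_succ]
    unfold Wf
    split_ifs with h1
    · have := ((layer2_spec us Q (layers2 A L Q us k)).2 (q - 1)).1
      have h2 : (((layers2 A L Q us k).getD (q - 1) 0 : ℕ) : ℝ) ≤
        ((layer2 us Q (layers2 A L Q us k)).getD (q - 1) 0 : ℕ) := by exact_mod_cast this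
      apply div_le_div_of_nonneg_right _ (by linarith)
      linarith
    · exact le_rfl
  · intro k q c hq hc hcC
    simp only [layers2_succ]
    refine Wf_step hσ hA vals hf Q L hQ hL _ _ (layers2_spec A L Q us k).2 ?_ q c hq hc hcC
    intro i hi j hj
    exact ((layer2_spec us Q (layers2 A L Q us k)).2 i).2.2 hi j (by omega)
      (by rw [(layers2_spec A L Q us k).1]; omega)

theorem rowU_sound {σ : ℝ} (hσ : 0 < σ) {A : ℕ} (hA : 0 < A) {f : ℕ → ℝ} (h0 : f 0 ≤ 0)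
    {vals row : List ℕ}
    (hf : ∀ c, 1 ≤ c → c ≤ vals.length → f c ≤ (vals.getD (c - 1) 0 : ℝ) / σ)
    (h : rowU A vals row = true) (l : List ℕ) (hl : ∀ c ∈ l, c ≤ vals.length)
    (p : ℕ) (hp : 1 ≤ p) :
    net (A / σ) f p l ≤ (row.getD (p - 1) 0 : ℝ) / σ := by
  unfold rowU at h
  rw [frc_eq, frc_eq, frc_eq] at h
  set Q := qOf A vals A 0 with hQ
  set L := Q + vals.length with hL
  set us := toU A vals 1 with hus
  have hul : us.length = vals.length := (toU_spec A vals 1).1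
  have hI := unl2_spec A Q us
  rw [hul, ← hL] at hI
  set Z := unl2 A L us Q (pad A L vals.length (Q + 1)) with hZ
  obtain ⟨_, hI⟩ := hI
  simp only [Nat.zero_add] at hI
  refine le_trans ?_ (Wf_le_row hσ (by omega) h p hp)
  refine net_le_Wk (W := fun _ => Wf σ A L Q Z) h0 ?_ (fun _ _ _ => le_rfl) ?_ l hl _ p le_rfl hp
  · intro q hq
    unfold Wf
    split_ifs with h1
    · have h2 := (hI (q - 1) (by omega)).1
      rw [show 1 + (q - 1) = q by omega] at h2
      have h3 : A * ((L:ℝ) * L - q * q) ≤ (Z.getD (q - 1) 0 : ℝ) := by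
        rw [← castP A L q (by omega)]; exact_mod_cast h2
      apply div_nonneg <;> linarith
    · exact le_rfl
  · intro _ q c hq hc hcC
    refine Wf_step hσ hA vals hf Q L hQ hL Z Z ?_ ?_ q c hq hc hcC
    · intro i hi hi'
      exact (hI i (by omega)).2.1 (by omega)
    · intro i hi j hj
      exact (hI i (by omega)).2.2 (by omega) j (by omega)

theorem rowQ_sound {σ : ℝ} (hσ : 0 < σ) {A : ℕ} (hA : 0 < A) {f : ℕ → ℝ} (h0 : f 0 ≤ 0)
    {vals : List ℕ} {T : ℕ}
    (hf : ∀ c, 1 ≤ c → c ≤ vals.length → f c ≤ (vals.getD (c - 1) 0 : ℝ) / σ)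
    (h : rowQ A T vals = true) (l : List ℕ) (hl : ∀ c ∈ l, c ≤ vals.length)
    (p : ℕ) (hp : 1 ≤ p) : net (A / σ) f p l ≤ (T : ℝ) / σ := by
  unfold rowQ at h
  rw [frc_eq] at h
  set us := toU A vals 1 with hus
  set M := qOf 1 us 1 0 + 1 - 2 * A with hM
  have h1 : M * M ≤ 8 * A * T := Nat.le_of_ble_eq_true h
  have hul : us.length = vals.length := (toU_spec A vals 1).1
  have hAR : (0:ℝ) < A := by exact_mod_cast hA
  have hα : (0:ℝ) < A / σ := div_pos hAR hσ
  have h2 := net_le_quad (m := (M:ℝ) / (2 * σ)) hα (f := f) p l (by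
    intro c hc
    rcases Nat.eq_zero_or_pos c with rfl | hc1
    · simpa using h0
    have hcC := hl c hc
    have h3 := hf c hc1 hcC
    obtain ⟨k, rfl⟩ : ∃ k, c = k + 1 := ⟨c - 1, by omega⟩
    simp only [Nat.add_sub_cancel] at h3
    have h4 := qOf_bound Nat.one_pos us k (by omega)
    rw [(toU_spec A vals 1).2 k (by omega), Nat.one_mul] at h4
    have h5 : (qOf 1 us 1 0 + 1) * (k + 1) ≤ (M + 2 * A * p) * (k + 1) := by
      apply Nat.mul_le_mul_right
      have : 2 * A ≤ 2 * A * p := Nat.le_mul_of_pos_right _ hp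
      omega
    have h6 : 2 * (vals.getD k 0 : ℝ) + A * ((1 + k) * (1 + k)) ≤ (M + 2 * A * p) * (k + 1) := by
      exact_mod_cast h4.trans h5
    have h7 : f (k + 1) * σ ≤ (vals.getD k 0 : ℝ) := by rwa [le_div_iff₀ hσ] at h3
    push_cast
    rw [← sub_nonneg]
    have h8 : ((M:ℝ) / (2 * σ) + A / σ * p) * (k + 1) - (f (k + 1) + A / σ * (k + 1) ^ 2 / 2) =
        ((M + 2 * A * p) * (k + 1) - A * ((1 + k) * (1 + k)) - 2 * (f (k + 1) * σ)) / (2 * σ) := by
      field_simp; ring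
    rw [h8]
    apply div_nonneg <;> linarith)
  have h9 : (M:ℝ) * M ≤ 8 * A * T := by exact_mod_cast h1
  have h10 : ((M:ℝ) / (2 * σ)) ^ 2 ≤ 2 * (A / σ) * (T / σ) := by
    rw [div_pow, div_le_iff₀ (by positivity)]
    have : 2 * ((A:ℝ) / σ) * (T / σ) * (2 * σ) ^ 2 = 8 * A * T := by field_simp; ring
    rw [this]; nlinarith
  exact le_of_mul_le_mul_left (h2.trans h10) (by linarith)

/-- Removing the useless children. -/
theorem net_trim {σ : ℝ} (hσ : 0 < σ) {A : ℕ} {f : ℕ → ℝ} {vs : List ℕ} {C : ℕ}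
    (hf : ∀ c, 1 ≤ c → c ≤ C → f c ≤ (vs.getD (c - 1) 0 : ℝ) / σ)
    (ht : ∀ c : ℕ, C < c → f c ≤ A / σ * c) (hC : (trim A vs 1).length ≤ C) :
    (∀ c, 1 ≤ c → c ≤ (trim A vs 1).length → f c ≤ ((trim A vs 1).getD (c - 1) 0 : ℝ) / σ) ∧
    ∀ c : ℕ, (trim A vs 1).length < c → f c ≤ A / σ * c := by
  constructor
  · intro c hc hc'
    rw [(trim_spec A vs 1 (c - 1)).1 (by omega)]
    exact hf c hc (by omega)
  · intro c hc
    by_cases h : C < c
    · exact ht c h
    · have h1 := (trim_spec A vs 1 (c - 1)).2 (by omega)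
      rw [show 1 + (c - 1) = c by omega] at h1
      have h2 : (vs.getD (c - 1) 0 : ℝ) ≤ A * c := by exact_mod_cast h1
      refine (hf c (by omega) (by omega)).trans ?_
      rw [div_le_iff₀ hσ]
      have : (A:ℝ) / σ * c * σ = A * c := by field_simp
      linarith

theorem trim_length (A : ℕ) (vs : List ℕ) : ∀ c, (trim A vs c).length ≤ vs.length := by
  induction vs with
  | nil => intro c; exact le_rfl
  | cons v vs ih =>
    intro c
    have e : trim A (v :: vs) c = List.rec (Bool.rec [v] [] (Nat.ble v (A * c)))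
      (fun a r _ => v :: a :: r) (trim A vs (c + 1)) := rfl
    have ih' := ih (c + 1)
    rw [e]
    cases hr : trim A vs (c + 1) with
    | nil =>
      simp only []
      rw [bool_rec_ble]
      split_ifs <;> simp
    | cons a r =>
      rw [hr] at ih'
      simpa using ih'

theorem valsA_length (n x B : ℕ) (t : List ℕ) (rows : List (List ℕ)) :
    ∀ c, (valsA n x B t rows c).length = rows.length + t.length := by
  induction rows with
  | nil => intro c; simp [valsA]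
  | cons r rows ih =>
    intro c
    have e : valsA n x B t (r :: rows) c =
      (n * x * c * (x + c - 2) + nth r (x - 1) - B * s24 c) :: valsA n x B t rows (c + 1) := rfl
    rw [e, List.length_cons, ih, List.length_cons]; omega

theorem valsB_length (n x G m : ℕ) : ∀ c, (valsB n x G m c).length = m := by
  induction m with
  | zero => intro c; rfl
  | succ m ih =>
    intro c
    have e : valsB n x G (m + 1) c =
      (n * x * c * (x + c - 2) - G * s24 c) :: valsB n x G m (c + 1) := rfl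
    rw [e, List.length_cons, ih]

theorem cubic_bound {γ δ z s : ℝ} (hδ : 0 < δ) (hz : 0 < z) (hs : 0 ≤ s)
    (h : 1 ≤ 54 * γ * δ ^ 2 * z) : z * s / 2 ≤ γ * s ^ 3 + δ * z ^ 2 := by
  have hκ : 0 < 54 * δ ^ 2 * z := by positivity
  have h1 : 0 ≤ (s - 3 * δ * z) ^ 2 * (s + 2 * (3 * δ * z)) := by positivity
  have h2 : s ^ 3 ≤ 54 * γ * δ ^ 2 * z * s ^ 3 := le_mul_of_one_le_left (by positivity) h
  have h3 : 54 * δ ^ 2 * z * (z * s / 2) ≤ 54 * δ ^ 2 * z * (γ * s ^ 3 + δ * z ^ 2) := by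
    nlinarith
  exact le_of_mul_le_mul_left h3 hκ

end Pool.Agent.Prof5
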