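import Pool.Agent.Lib.MP_ed556a_co.Sound
import Pool.Agent.Lib.MP_ed556a_co.Ineq

/-! A potential for all large slopes. -/

namespace Pool.Agent.Prof5

theorem net_clip {α : ℝ} (hα : 0 ≤ α) {f : ℕ → ℝ} {m : ℕ}
    (h : ∀ c : ℕ, m ≤ c → f c ≤ f m + α * (c - m)) (l : List ℕ) :
    ∀ q q' : ℕ, 1 ≤ q → q ≤ q' → net α f q' l ≤ net α f q (l.map (fun c => min c m)) := by
  induction l with
  | nil => intro q q' _ _; simp [net]
  | cons c l ih =>
    intro q q' hq hqq
    have hc : (0:ℝ) ≤ c := Nat.cast_nonneg c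
    have hq1 : (1:ℝ) ≤ q := by exact_mod_cast hq
    have hq2 : (q:ℝ) ≤ q' := by exact_mod_cast hqq
    have hac : 0 ≤ α * c := mul_nonneg hα hc
    simp only [List.map_cons, net]
    have h1 := ih (q + min c m) (q' + c) (by omega) (by omega)
    rcases le_total c m with h2 | h2
    · rw [min_eq_left h2] at h1 ⊢
      nlinarith
    · rw [min_eq_right h2] at h1 ⊢
      have h3 := h c h2
      have h4 : (m:ℝ) ≤ c := by exact_mod_cast h2
      have h5 : 0 ≤ α * (c - m) := mul_nonneg hα (by linarith)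
      nlinarith

theorem net_lin3 (a b d α1 α2 α3 : ℝ) (f1 f2 f3 : ℕ → ℝ) (l : List ℕ) : ∀ q,
    net (a * α1 + b * α2 + d * α3) (fun c => a * f1 c + b * f2 c + d * f3 c) q l =
      a * net α1 f1 q l + b * net α2 f2 q l + d * net α3 f3 q l := by
  induction l with
  | nil => intro q; simp [net]
  | cons c l ih => intro q; simp only [net, ih]; ring

def tv (A lam : ℕ) (tab : List (List ℕ)) (p c : ℕ) : ℕ :=
  if c = 0 then 0 else if c ≤ 8 then (tab.getD (p - 1) []).getD (c - 1) 0 else lam + A * c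

noncomputable def chkS (A lam κ b : ℕ) (tab : List (List ℕ)) : Bool :=
  (List.range' 1 8).all fun x =>
    rowL A x ((List.range' 1 9).map (tv A lam tab x))
      ((List.range' 1 8).map fun p =>
        tv A lam tab p x + b * s24 x - κ * (12 * p * x * (p + x - 2))) &&
    ((List.range' 1 8).all fun p =>
      Nat.ble (κ * (12 * p * x * (p + x - 2))) (tv A lam tab p x + b * s24 x) &&
      Nat.ble (tv A lam tab p x) (9 * A * x)) &&
    Nat.ble (tv A lam tab 1 x) (lam + A * x)

theorem getD_map_range (f : ℕ → ℕ) (n c : ℕ) (h1 : 1 ≤ c) (h2 : c ≤ n) :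
    ((List.range' 1 n).map f).getD (c - 1) 0 = f c := by
  rw [List.getD_eq_getElem _ _ (by simp; omega)]
  simp [show 1 + (c - 1) = c by omega]

theorem chkS_sound {A lam κ b : ℕ} {tab : List (List ℕ)} (hA : 0 < A)
    (h : chkS A lam κ b tab = true) {p x : ℕ} (hp : 1 ≤ p) (hp8 : p ≤ 8) (hx : 1 ≤ x)
    (hx8 : x ≤ 8) :
    (∀ l : List ℕ, l.length ≤ x →
      κ * yR p x - b * sR x + net ((A:ℝ) / 24) (fun c => (tv A lam tab x c : ℝ) / 24) p l ≤
        (tv A lam tab p x : ℝ) / 24) ∧
    (tv A lam tab p x : ℝ) ≤ 9 * A * x ∧ (tv A lam tab 1 x : ℝ) ≤ lam + A * x := by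
  have h1 := List.all_eq_true.1 h x (by rw [List.mem_range'_1]; omega)
  rw [Bool.and_eq_true, Bool.and_eq_true] at h1
  obtain ⟨⟨h2, h3⟩, h4⟩ := h1
  have h5 := List.all_eq_true.1 h3 p (by rw [List.mem_range'_1]; omega)
  rw [Bool.and_eq_true] at h5
  have h6 := Nat.le_of_ble_eq_true h5.1
  have h7 := Nat.le_of_ble_eq_true h5.2
  have h8 := Nat.le_of_ble_eq_true h4
  refine ⟨fun l hl => ?_, by exact_mod_cast h7, by exact_mod_cast h8⟩
  have hα : (0:ℝ) ≤ (A:ℝ) / 24 := by positivity
  have c1 := net_clip hα (f := fun c => (tv A lam tab x c : ℝ) / 24) (m := 9) (by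
    intro c hc
    simp only [tv]
    rw [if_neg (by omega), if_neg (by omega), if_neg (by omega), if_neg (by omega)]
    push_cast
    linarith) l p p hp le_rfl
  have c2 := rowL_sound (σ := 24) (by norm_num) hA (f := fun c => (tv A lam tab x c : ℝ) / 24)
    (by simp [tv]) (by
      intro c hc hc'
      rw [getD_map_range _ _ _ hc (by simpa using hc')]) h2 (l.map (fun c => min c 9))
    (by
      intro c hc
      obtain ⟨d, _, rfl⟩ := List.mem_map.1 hc
      simp) (by simpa using hl) p hp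
  rw [getD_map_range _ _ _ hp hp8, Nat.cast_sub h6] at c2
  have c3 := y_cast 12 p x hp hx
  rw [Nat.cast_add, Nat.cast_mul b, Nat.cast_mul κ, c3, s24_cast] at c2
  push_cast at c2
  linarith

def tab0 : List (List ℕ) :=
  [[21456, 26184, 28656, 24144, 21696, 21816, 21960, 22128],
   [16680, 21456, 21600, 14784, 8088, 3696, 1536, 1536],
   [14328, 16776, 14616, 7920, 3672, 1728, 2016, 2592],
   [12000, 12144, 7776, 3552, 1776, 2304, 3024, 3840],
   [9696, 7560, 3408, 1680, 2400, 3240, 4200, 5280],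
   [7416, 3144, 1512, 2304, 3240, 4320, 5544, 6912],
   [5160, 1176, 2016, 3024, 4200, 5544, 7056, 8736],
   [2928, 1536, 2592, 3840, 5280, 6912, 8736, 10752]]

def tab1 : List (List ℕ) :=
  [[21468, 26208, 28668, 24072, 21348, 20988, 20292, 19116],
   [16692, 21480, 21612, 14712, 7764, 2880, 0, 0],
   [14340, 16800, 14628, 7836, 3336, 900, 336, 0],
   [12012, 12168, 7776, 3456, 1428, 1464, 1344, 816],
   [9708, 7584, 3396, 1572, 2040, 2400, 2520, 2256],
   [7428, 3156, 1488, 2184, 2880, 3480, 3864, 3888],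
   [5172, 1176, 1992, 2904, 3840, 4704, 5376, 5712],
   [2940, 1536, 2568, 3720, 4920, 6072, 7056, 7728]]

def tab2 : List (List ℕ) :=
  [[216, 264, 288, 240, 216, 216, 216, 216],
   [168, 216, 216, 144, 72, 24, 0, 0],
   [144, 168, 144, 72, 24, 0, 0, 0],
   [120, 120, 72, 24, 0, 0, 0, 0],
   [96, 72, 24, 0, 0, 0, 0, 0],
   [72, 24, 0, 0, 0, 0, 0, 0],
   [48, 0, 0, 0, 0, 0, 0, 0],
   [24, 0, 0, 0, 0, 0, 0, 0]]

theorem chk0 : chkS 2400 21456 1 0 tab0 = true := by decide +kernel
theorem chk1 : chkS 2400 21468 1 1 tab1 = true := by decide +kernel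
theorem chk2 : chkS 24 216 0 0 tab2 = true := by decide +kernel

noncomputable def Vsm (α β : ℝ) (p x : ℕ) : ℝ :=
  (1 - β) * ((tv 2400 21456 tab0 p x : ℝ) / 24) + β * ((tv 2400 21468 tab1 p x : ℝ) / 24) +
    (α - 100) * ((tv 24 216 tab2 p x : ℝ) / 24)

theorem Vsm_zero (α β : ℝ) (p : ℕ) : Vsm α β p 0 = 0 := by simp [Vsm, tv]

theorem Vsm_big (α β : ℝ) (p : ℕ) {x : ℕ} (hx : 9 ≤ x) :
    Vsm α β p x = 9 * α + β / 2 - 6 + α * x := by
  simp only [Vsm, tv]
  rw [if_neg (by omega), if_neg (by omega), if_neg (by omega), if_neg (by omega),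
    if_neg (by omega), if_neg (by omega)]
  push_cast; ring

theorem Vsm_small {α β : ℝ} (hα : 100 ≤ α) (h0 : 0 ≤ β) (h1 : β ≤ 1) {p x : ℕ} (hp : 1 ≤ p)
    (hp8 : p ≤ 8) (hx : 1 ≤ x) (hx8 : x ≤ 8) :
    (∀ l : List ℕ, l.length ≤ x → yR p x - β * sR x + net α (Vsm α β x) p l ≤ Vsm α β p x) ∧
    Vsm α β p x ≤ 9 * α * x ∧ Vsm α β 1 x ≤ 9 * α + β / 2 - 6 + α * x := by
  obtain ⟨a1, a2, a3⟩ := chkS_sound (by norm_num) chk0 hp hp8 hx hx8
  obtain ⟨b1, b2, b3⟩ := chkS_sound (by norm_num) chk1 hp hp8 hx hx8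
  obtain ⟨c1, c2, c3⟩ := chkS_sound (by norm_num) chk2 hp hp8 hx hx8
  have g0 : 0 ≤ 1 - β := by linarith
  have g2 : 0 ≤ α - 100 := by linarith
  push_cast at a1 a2 a3 b1 b2 b3 c1 c2 c3
  refine ⟨fun l hl => ?_, ?_, ?_⟩
  · have e := net_lin3 (1 - β) β (α - 100) (2400 / 24) (2400 / 24) (24 / 24)
      (fun c => (tv 2400 21456 tab0 x c : ℝ) / 24) (fun c => (tv 2400 21468 tab1 x c : ℝ) / 24)
      (fun c => (tv 24 216 tab2 x c : ℝ) / 24) l p
    rw [show (1 - β) * (2400 / 24) + β * (2400 / 24) + (α - 100) * (24 / 24) = α by ring] at e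
    have e2 : net α (Vsm α β x) p l = _ := e
    rw [e2]
    have d1 := mul_le_mul_of_nonneg_left (a1 l hl) g0
    have d2 := mul_le_mul_of_nonneg_left (b1 l hl) h0
    have d3 := mul_le_mul_of_nonneg_left (c1 l hl) g2
    unfold Vsm
    linarith
  · have d1 := mul_le_mul_of_nonneg_left a2 g0
    have d2 := mul_le_mul_of_nonneg_left b2 h0
    have d3 := mul_le_mul_of_nonneg_left c2 g2
    unfold Vsm
    linarith
  · have d1 := mul_le_mul_of_nonneg_left a3 g0
    have d2 := mul_le_mul_of_nonneg_left b3 h0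
    have d3 := mul_le_mul_of_nonneg_left c3 g2
    unfold Vsm
    linarith

noncomputable def Vb (α β : ℝ) (p x : ℕ) : ℝ :=
  if (x:ℝ) ≤ α then max (yy p x - β * ss x) (α * x) else yy p x - β * ss x / 2

noncomputable def Vs (α β : ℝ) (p x : ℕ) : ℝ := if p ≤ 8 then Vsm α β p x else Vb α β p x

theorem pot_large {α β : ℝ} (hα : 100 ≤ α) (h0 : 0 ≤ β) (h1 : β ≤ 1)
    (H8 : ∀ a : ℕ, 8 ≤ a → HH α β a) : Pot α β := by
  have hsn : ∀ a : ℕ, 0 ≤ ss a := fun a => sR_nonneg a
  have H : ∀ a : ℕ, HH α β a := by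
    intro a
    by_cases ha : 8 ≤ a
    · exact H8 a ha
    · have := hsn a
      have a1 : 0 ≤ β * (2 * ss a + 1 / 2) := by positivity
      have a2 : (0:ℝ) ≤ a := Nat.cast_nonneg a
      have a3 : (a:ℝ) ≤ 7 := by exact_mod_cast (show a ≤ 7 by omega)
      have a4 : 0 ≤ α * a := by positivity
      have a5 : (a:ℝ) ^ 2 ≤ 7 ^ 2 := pow_le_pow_left₀ a2 a3 2
      have a6 : (a:ℝ) ^ 3 ≤ 7 ^ 3 := pow_le_pow_left₀ a2 a3 3
      have a7 : 0 ≤ (a:ℝ) ^ 2 := by positivity
      unfold HH
      linarith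
  obtain ⟨u, hu, rfl⟩ : ∃ u : ℝ, 10 ≤ u ∧ α = u ^ 2 :=
    ⟨√α, Real.le_sqrt_of_sq_le (by linarith), (Real.sq_sqrt (by linarith)).symm⟩
  have hb : 3 ≤ β * u := beta_lb hu (Nat.le_ceil _) (Nat.ceil_lt_add_one (by linarith)).le
    (H ⌈13 / 5 * u⌉₊)
  have hpos : 0 < u ^ 2 := by linarith
  have hVb0 : ∀ p, Vb (u ^ 2) β p 0 = 0 := by
    intro p; unfold Vb yy ss; simp [hpos.le]
  have hθ : ∀ x : ℕ, 9 ≤ x → ∀ c : ℕ,
      Vb (u ^ 2) β x c ≤ (5 / 8 * (x:ℝ) ^ 2 + 3 / 2 * u ^ 2) * c := by
    intro x hx c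
    have hxR : (9:ℝ) ≤ x := by exact_mod_cast hx
    rcases Nat.eq_zero_or_pos c with rfl | hc
    · simp [hVb0]
    have hcR : (1:ℝ) ≤ c := by exact_mod_cast hc
    unfold Vb
    split_ifs with h
    · refine max_le (iTh1 hu hb hxR hcR (hsn c) h) ?_
      apply mul_le_mul_of_nonneg_right _ (by linarith)
      nlinarith
    · exact iTh2 hu h0 h1 hb hxR (not_le.1 h).le
  refine ⟨Vs (u ^ 2) β, ⟨fun p => ?_, ?_⟩, 9 * u ^ 2, by linarith, ?_⟩
  · unfold Vs; split_ifs
    · exact Vsm_zero _ _ _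
    · exact hVb0 p
  · intro p x hp hx l hl
    have hpR : (1:ℝ) ≤ p := by exact_mod_cast hp
    have hxR1 : (1:ℝ) ≤ x := by exact_mod_cast hx
    have ey : yR p x = yy p x := rfl
    have es : sR x = ss x := rfl
    by_cases hx8 : x ≤ 8
    · have e : Vs (u ^ 2) β x = Vsm (u ^ 2) β x := by
        funext c; unfold Vs; rw [if_pos hx8]
      rw [e]
      by_cases hp8 : p ≤ 8
      · unfold Vs; rw [if_pos hp8]
        exact (Vsm_small hα h0 h1 hp hp8 hx hx8).1 l hl
      · have hp9 : (9:ℝ) ≤ p := by exact_mod_cast (show 9 ≤ p by omega)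
        have hn := net_nonpos (θ := 9 * u ^ 2) hpos.le (f := Vsm (u ^ 2) β x) (by
          intro c
          rcases Nat.eq_zero_or_pos c with rfl | hc
          · simp [Vsm_zero]
          by_cases hc8 : c ≤ 8
          · exact (Vsm_small hα h0 h1 hx hx8 hc hc8).2.1
          · rw [Vsm_big _ _ _ (by omega)]
            have : (9:ℝ) ≤ c := by exact_mod_cast (show 9 ≤ c by omega)
            nlinarith) l p (by nlinarith)
        have hxR : (x:ℝ) ≤ 8 := by exact_mod_cast hx8
        unfold Vs Vb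
        rw [if_neg hp8, if_pos (by linarith), ey, es]
        exact le_trans (by linarith) (le_max_left _ _)
    · have hx9 : 9 ≤ x := by omega
      have hxR : (9:ℝ) ≤ x := by exact_mod_cast hx9
      have e : Vs (u ^ 2) β x = Vb (u ^ 2) β x := by
        funext c; unfold Vs; rw [if_neg hx8]
      rw [e, ey, es]
      have hac : ∀ c : ℕ, u ^ 2 * c - u ^ 2 * p * c ≤ 0 := by
        intro c
        have : 0 ≤ u ^ 2 * c * (p - 1) := mul_nonneg (by positivity) (by linarith)
        linarith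
      by_cases hp8 : p ≤ 8
      · have hpR8 : (p:ℝ) ≤ 8 := by exact_mod_cast hp8
        have hM := iA0 hα h0 hpR hpR8 hxR (H x)
        have hn := net_le_single hpos p (hθ x hx9) hM (by
          intro c hc
          have hcR : (1:ℝ) ≤ c := by exact_mod_cast hc
          unfold Vb
          split_ifs with h
          · rw [sub_le_iff_le_add]
            refine max_le ?_ (by linarith [hac c])
            have := iA1 hα hpR hpR8 hxR hcR h (by
              rcases le_or_gt x c with h2 | h2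
              · left; exact_mod_cast h2
              · right; exact_mod_cast h2) (H x) (H c)
            linarith
          · exact iA2 hu h0 h1 hb hpR hpR8 hxR (not_le.1 h).le (H x))
          (iA3 hu h0 hb hpR hpR8 hxR) l
        unfold Vs
        rw [if_pos hp8, Vsm_big _ _ _ hx9]
        linarith
      · have hp9 : (9:ℝ) ≤ p := by exact_mod_cast (show 9 ≤ p by omega)
        unfold Vs
        rw [if_neg hp8]
        by_cases hxu : (x:ℝ) ≤ u ^ 2
        · have eV : Vb (u ^ 2) β p x = max (yy p x - β * ss x) (u ^ 2 * x) := by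
            unfold Vb; rw [if_pos hxu]
          rw [eV]
          by_cases hq : 5 / 8 * (x:ℝ) ^ 2 + 3 / 2 * u ^ 2 ≤ u ^ 2 * p
          · have hn := net_nonpos hpos.le (hθ x hx9) l p hq
            exact le_trans (by linarith) (le_max_left _ _)
          · have hq' := not_le.1 hq
            have hB := iB hu hb hp9 hxR hxu hq'
            have hB0 := iB0 hu hB
            have hM : 0 ≤ u ^ 2 * x + β * ss x - yy p x := by
              have : 0 ≤ u ^ 2 * x := by positivity
              linarith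
            have hn := net_le_single hpos p (hθ x hx9) hM (by
              intro c hc
              have hcR : (1:ℝ) ≤ c := by exact_mod_cast hc
              unfold Vb
              split_ifs with h
              · rw [sub_le_iff_le_add]
                refine max_le ?_ (by linarith [hac c])
                have := iB1 hu hb hp9 hxR hcR (hsn c) h hB
                linarith
              · exact iB2 hu h0 h1 hb hp9 hxR (not_le.1 h).le hB)
              (fun h => iB3 hu hp9 hxR h hB) l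
            exact le_trans (by linarith) (le_max_right _ _)
        · have eV : Vb (u ^ 2) β p x = yy p x - β * ss x / 2 := by
            unfold Vb; rw [if_neg hxu]
          rw [eV]
          have hxu' := (not_le.1 hxu).le
          have hM : 0 ≤ β * ss x / 2 := by have := hsn x; positivity
          have hn := net_le_single hpos p (hθ x hx9) hM (by
            intro c hc
            have hcR : (1:ℝ) ≤ c := by exact_mod_cast hc
            unfold Vb
            split_ifs with h
            · rw [sub_le_iff_le_add]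
              refine max_le ?_ (by linarith [hac c])
              have := iC1 hu h0 h1 hb hp9 hxu' hcR (H c)
              linarith
            · exact iC2 hu h0 h1 hb hp9 hxu' (not_le.1 h).le)
            (iC3 hu hb hp9 hxu') l
          linarith
  · intro x hx
    have hxR1 : (1:ℝ) ≤ x := by exact_mod_cast hx
    have hy : 0 ≤ yR 1 x := by
      unfold yR
      have : (0:ℝ) ≤ x * (x - 1) := mul_nonneg (by linarith) (by linarith)
      push_cast; linarith
    have hux : 0 ≤ u ^ 2 * x := by positivity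
    have : Vs (u ^ 2) β 1 x ≤ 9 * u ^ 2 + β / 2 - 6 + u ^ 2 * x := by
      unfold Vs
      rw [if_pos (by norm_num)]
      by_cases hx8 : x ≤ 8
      · exact (Vsm_small hα h0 h1 le_rfl (by norm_num) hx hx8).2.2
      · rw [Vsm_big _ _ _ (by omega)]
    linarith

end Pool.Agent.Prof5
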