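import Pool.Agent.Lib.MP_ed556a_co.Count
import Pool.Agent.Lib.MP_ed556a_co.Core

/-! Telescoping a potential over a tree rooted at a leaf. -/

namespace Pool.Agent.Prof5

open SimpleGraph Finset Filter Topology

section
variable {V : Type} [Fintype V] [DecidableEq V] {G : SimpleGraph V} [DecidableRel G.Adj]

theorem exists_rooting [Nontrivial V] (h : G.IsTree) :
    ∃ (r v : V) (par : V → V) (ch : V → Finset V), r ≠ v ∧ G.neighborFinset r = {v} ∧
      par v = r ∧ (∀ u, u ≠ r → par u ∉ ch u ∧ G.neighborFinset u = insert (par u) (ch u)) ∧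
      (∀ u w, w ∈ ch u ↔ w ≠ r ∧ par w = u) ∧ (∀ u, u ≠ r → par u = r → u = v) := by
  obtain ⟨r, hr⟩ := h.exists_vert_degree_one_of_nontrivial
  obtain ⟨v, hv⟩ := Finset.card_eq_one.1 hr
  have hrv : G.Adj r v := by rw [← mem_neighborFinset, hv]; simp
  have F1 : ∀ u, u ≠ r → ∃ p, G.Adj u p ∧ G.dist p r + 1 = G.dist u r := by
    intro u hu
    obtain ⟨p, hp⟩ := h.connected.exists_walk_length_eq_dist u r
    cases p with
    | nil => exact absurd rfl hu
    | @cons _ w _ ha q =>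
      refine ⟨w, ha, ?_⟩
      have h1 := dist_le q
      have h2 := h.dist_eq_dist_add_one_of_adj r ha
      rw [Walk.length_cons] at hp
      rw [dist_comm (u := r), dist_comm (u := r)] at h2
      omega
  have F2 : ∀ u p p', G.Adj u p → G.Adj u p' → G.dist p r + 1 = G.dist u r →
      G.dist p' r + 1 = G.dist u r → p = p' := by
    intro u p p' ha ha' e e'
    obtain ⟨q, hq⟩ := h.connected.exists_walk_length_eq_dist p r
    obtain ⟨q', hq'⟩ := h.connected.exists_walk_length_eq_dist p' r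
    have := (h.isAcyclic.subsingleton_path u r).elim
      ⟨Walk.cons ha q, Walk.isPath_of_length_eq_dist _ (by rw [Walk.length_cons]; omega)⟩
      ⟨Walk.cons ha' q', Walk.isPath_of_length_eq_dist _ (by rw [Walk.length_cons]; omega)⟩
    have h6 := congrArg (fun p : G.Path u r => p.1.getVert 1) this
    simpa using h6
  have F3 : ∀ u, ∃ p, u ≠ r → G.Adj u p ∧ G.dist p r + 1 = G.dist u r := by
    intro u
    by_cases hu : u = r
    · exact ⟨r, fun h => absurd hu h⟩
    · obtain ⟨p, hp⟩ := F1 u hu; exact ⟨p, fun _ => hp⟩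
  choose par hpar using F3
  have hch : ∀ u w, w ∈ (G.neighborFinset u).filter (fun w => G.dist w r = G.dist u r + 1) ↔
      w ≠ r ∧ par w = u := by
    intro u w
    rw [Finset.mem_filter, mem_neighborFinset]
    constructor
    · rintro ⟨ha, e⟩
      have hw : w ≠ r := by rintro rfl; rw [dist_self] at e; omega
      exact ⟨hw, F2 w _ _ (hpar w hw).1 ha.symm (hpar w hw).2 e.symm⟩
    · rintro ⟨hw, rfl⟩
      exact ⟨(hpar w hw).1.symm, (hpar w hw).2.symm⟩
  refine ⟨r, v, par, fun u => (G.neighborFinset u).filter (fun w => G.dist w r = G.dist u r + 1),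
    hrv.ne, hv, ?_, ?_, hch, ?_⟩
  · have e : G.dist v r = 1 := dist_eq_one_iff_adj.2 hrv.symm
    exact F2 v _ _ (hpar v hrv.ne').1 hrv.symm (hpar v hrv.ne').2 (by rw [dist_self, e])
  · intro u hu
    obtain ⟨h1, h2⟩ := hpar u hu
    constructor
    · rw [Finset.mem_filter]; omega
    · ext w
      rw [Finset.mem_insert, Finset.mem_filter, mem_neighborFinset]
      constructor
      · intro ha
        have h3 := h.dist_eq_dist_add_one_of_adj r ha
        rw [dist_comm (u := r), dist_comm (u := r)] at h3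
        rcases h3 with h3 | h3
        · exact Or.inl (F2 u _ _ ha h1 h3.symm h2)
        · exact Or.inr ⟨ha, h3⟩
      · rintro (rfl | ⟨ha, _⟩)
        · exact h1
        · exact ha
  · intro u hu e
    have := (hpar u hu).1
    rw [e] at this
    have h2 : u ∈ G.neighborFinset r := by rw [mem_neighborFinset]; exact this.symm
    rw [hv] at h2
    simpa using h2

omit [DecidableRel G.Adj] in
theorem telescope {r v : V} {par : V → V} {ch : V → Finset V} (hrv : r ≠ v) (hpv : par v = r)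
    (hch : ∀ u w, w ∈ ch u ↔ w ≠ r ∧ par w = u) (hr : ∀ u, u ≠ r → par u = r → u = v)
    (loc pot : V → ℝ) (h : ∀ u, u ≠ r → u ≠ v → loc u ≤ pot u - ∑ w ∈ ch u, pot w) :
    ∑ u, loc u ≤ loc r + loc v + ∑ w ∈ ch v, pot w := by
  have split : ∀ g : V → ℝ, ∑ u, g u = g r + g v + ∑ u ∈ (univ.erase r).erase v, g u := by
    intro g
    rw [← Finset.add_sum_erase univ g (Finset.mem_univ r),
      ← Finset.add_sum_erase (univ.erase r) g (Finset.mem_erase.2 ⟨hrv.symm, Finset.mem_univ v⟩),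
      add_assoc]
  have e1 : ∑ u, ∑ w ∈ ch u, pot w = ∑ w ∈ univ.erase r, pot w := by
    rw [← Finset.sum_fiberwise (univ.erase r) par pot]
    refine Finset.sum_congr rfl fun u _ => Finset.sum_congr ?_ fun _ _ => rfl
    ext w; simp [hch]
  have e2 : ch r = {v} := by
    ext w
    rw [hch, Finset.mem_singleton]
    exact ⟨fun h => hr w h.1 h.2, fun h => by rw [h]; exact ⟨hrv.symm, hpv⟩⟩
  rw [split, e2, Finset.sum_singleton, ← Finset.add_sum_erase (univ.erase r) pot
    (Finset.mem_erase.2 ⟨hrv.symm, Finset.mem_univ v⟩)] at e1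
  have e3 : ∑ u ∈ (univ.erase r).erase v, loc u ≤
      ∑ u ∈ (univ.erase r).erase v, (pot u - ∑ w ∈ ch u, pot w) :=
    Finset.sum_le_sum fun u hu => h u (Finset.mem_erase.1 (Finset.mem_erase.1 hu).2).1
      (Finset.mem_erase.1 hu).1
  rw [Finset.sum_sub_distrib] at e3
  rw [split loc]
  linarith

end

theorem lin_le_star (c m : ℕ) (hm : 1 ≤ m) : (c:ℝ) ≤ 3 * m + sR c / m := by
  have hmR : (1:ℝ) ≤ m := by exact_mod_cast hm
  have hs := sR_nonneg c
  by_cases h : c ≤ 3 * m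
  · have : (c:ℝ) ≤ 3 * m := by exact_mod_cast h
    have : 0 ≤ sR c / m := by positivity
    linarith
  · have h1 : 3 * (m:ℝ) + 1 ≤ c := by exact_mod_cast (show 3 * m + 1 ≤ c by omega)
    have h2 : (c:ℝ) ≤ sR c / m := by
      rw [le_div_iff₀ (by linarith)]
      unfold sR
      have a1 : (5:ℝ) * 2 ≤ (c + 1) * (c - 2) :=
        mul_le_mul (by linarith) (by linarith) (by norm_num) (by linarith)
      have a2 : 5 * 2 * (3 * (m:ℝ)) ≤ (c + 1) * (c - 2) * (c - 1) :=
        mul_le_mul a1 (by linarith) (by linarith) (by linarith)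
      have a3 := mul_le_mul_of_nonneg_left a2 (show (0:ℝ) ≤ c by linarith)
      have a4 : (0:ℝ) ≤ c * m := by positivity
      linarith
    linarith

theorem LI_finset {α β : ℝ} {V : ℕ → ℕ → ℝ} (h : LI α β V) {ι : Type} (J : Finset ι) (c : ι → ℕ)
    {p : ℕ} (hp : 1 ≤ p) (hx : 1 ≤ J.card) :
    yR p J.card - β * sR J.card + (∑ j ∈ J, V J.card (c j) - α * (p * ∑ j ∈ J, (c j : ℝ) +
      ((∑ j ∈ J, (c j : ℝ)) ^ 2 - ∑ j ∈ J, (c j : ℝ) ^ 2) / 2)) ≤ V p J.card := by
  have := h.2 p J.card hp hx (J.toList.map c) (by simp)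
  rw [net_closed] at this
  simp only [List.map_map, Function.comp_def, Finset.sum_map_toList] at this
  exact this

theorem root_facts {V : Type} [Fintype V] [Nontrivial V] {G : SimpleGraph V} (h : G.IsTree) :
    ∃ L : ℝ, (∀ m : ℕ, 1 ≤ m → L ≤ 3 * (3 * m + 1) ^ 2 * m + 2 * (G.copyCount T2 : ℝ) / m) ∧
      (Fintype.card V : ℝ) ≤ 2 + L + G.copyCount T1 ∧
      ∀ (α β K : ℝ) (W : ℕ → ℕ → ℝ), 0 ≤ α → 0 ≤ K → LI α β W →
        (∀ x : ℕ, 1 ≤ x → W 1 x ≤ yR 1 x + K * (1 + x)) →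
        (G.copyCount T3 : ℝ) ≤ α * G.copyCount T1 + β * G.copyCount T2 + K + (K + α) * L := by
  classical
  obtain ⟨r, v, par, ch, hrv, hNr, hpv, hN, hch, hr⟩ := exists_rooting h
  set x : V → ℕ := fun u => G.degree u - 1 with hx
  have hxr : x r = 0 := by
    simp only [hx, ← card_neighborFinset_eq_degree, hNr, Finset.card_singleton]
  have hxc : ∀ u, u ≠ r → x u = (ch u).card := by
    intro u hu
    simp only [hx, ← card_neighborFinset_eq_degree, (hN u hu).2,
      Finset.card_insert_of_notMem (hN u hu).1, Nat.add_sub_cancel]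
  have hw : ∀ u, wt G u = x u := by
    intro u
    have : 1 ≤ G.degree u := by
      rw [← card_neighborFinset_eq_degree]
      by_cases hu : u = r
      · rw [hu, hNr]; simp
      · rw [(hN u hu).2]; exact Finset.card_pos.2 (Finset.insert_nonempty _ _)
    simp only [hx, wt, Nat.cast_sub this, Nat.cast_one]
  have hp1 : ∀ u, u ≠ r → u ≠ v → 1 ≤ x (par u) := by
    intro u hu hv
    have h1 : par u ≠ r := fun e => hv (hr u hu e)
    rw [hxc _ h1]
    exact Finset.card_pos.2 ⟨u, (hch _ _).2 ⟨hu, rfl⟩⟩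
  have hsum : ∀ (g : ℕ → ℝ) u, u ≠ r →
      ∑ w ∈ G.neighborFinset u, g (x w) = g (x (par u)) + ∑ w ∈ ch u, g (x w) := by
    intro g u hu
    rw [(hN u hu).2, Finset.sum_insert (hN u hu).1]
  have hs1 : ∀ u, u ≠ r → ∑ w ∈ G.neighborFinset u, (x w : ℝ) =
    x (par u) + ∑ w ∈ ch u, (x w : ℝ) := hsum (fun n => (n:ℝ))
  have hs2 : ∀ u, u ≠ r → ∑ w ∈ G.neighborFinset u, (x w : ℝ) ^ 2 =
    (x (par u) : ℝ) ^ 2 + ∑ w ∈ ch u, (x w : ℝ) ^ 2 := hsum (fun n => (n:ℝ) ^ 2)
  have cP := countP h.isAcyclic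
  have cS := countS (G := G)
  have cY := countY h.isAcyclic
  simp only [hw] at cP cS cY
  have cS' : (G.copyCount T2 : ℝ) = ∑ c, sR (x c) := by
    have : ∑ c, sR (x c) = (∑ c, ((x c : ℝ) + 1) * x c * (x c - 1) * (x c - 2)) / 24 := by
      rw [Finset.sum_div]; rfl
    linarith
  have he2 : ∀ s : Finset V, ∑ w ∈ s, (x w : ℝ) ^ 2 ≤ (∑ w ∈ s, (x w : ℝ)) ^ 2 :=
    fun s => Finset.sum_sq_le_sq_sum_of_nonneg fun _ _ => Nat.cast_nonneg _
  have hsn : ∀ s : Finset V, 0 ≤ ∑ w ∈ s, (x w : ℝ) :=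
    fun s => Finset.sum_nonneg fun _ _ => Nat.cast_nonneg _
  refine ⟨x v + ∑ w ∈ ch v, (x w : ℝ), ?_, ?_, ?_⟩
  · intro m hm
    have hmR : (1:ℝ) ≤ m := by exact_mod_cast hm
    have a1 : ∑ w ∈ ch v, (x w : ℝ) ≤ ∑ w ∈ ch v, (3 * m + sR (x w) / m) :=
      Finset.sum_le_sum fun w _ => lin_le_star _ m hm
    rw [Finset.sum_add_distrib, Finset.sum_const, ← hxc v hrv.symm, nsmul_eq_mul,
      ← Finset.sum_div] at a1
    have a2 : ∑ w ∈ ch v, sR (x w) ≤ ∑ c, sR (x c) :=
      Finset.sum_le_sum_of_subset_of_nonneg (Finset.subset_univ _) fun _ _ _ => sR_nonneg _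
    have a3 : sR (x v) ≤ ∑ c, sR (x c) :=
      Finset.single_le_sum (f := fun c => sR (x c)) (fun _ _ => sR_nonneg _) (Finset.mem_univ v)
    have a4 := lin_le_star (x v) (m * (3 * m + 1)) (Nat.mul_pos hm (by omega))
    push_cast at a4
    have a5 := mul_le_mul_of_nonneg_left a4 (show (0:ℝ) ≤ 3 * m + 1 by linarith)
    have a6 : (3 * (m:ℝ) + 1) * (3 * (m * (3 * m + 1)) + sR (x v) / (m * (3 * m + 1))) =
      3 * (3 * m + 1) ^ 2 * m + sR (x v) / m := by field_simp
    have a7 := div_le_div_of_nonneg_right a2 (show (0:ℝ) ≤ m by linarith)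
    have a8 := div_le_div_of_nonneg_right a3 (show (0:ℝ) ≤ m by linarith)
    rw [cS', mul_div_assoc]
    linarith
  · have t := telescope hrv hpv hch hr
      (fun c => 1 - ((∑ b ∈ G.neighborFinset c, (x b : ℝ)) ^ 2 -
        ∑ b ∈ G.neighborFinset c, (x b : ℝ) ^ 2) / 2) (fun c => 1 + (x c : ℝ)) (by
        intro u hu hv
        rw [hs1 u hu, hs2 u hu, Finset.sum_add_distrib, Finset.sum_const, ← hxc u hu, nsmul_eq_mul]
        have a1 : (1:ℝ) ≤ x (par u) := by exact_mod_cast hp1 u hu hv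
        have a2 := he2 (ch u)
        have a3 := mul_le_mul_of_nonneg_right a1 (hsn (ch u))
        linarith)
    rw [Finset.sum_sub_distrib, ← Finset.sum_div, ← cP, Finset.sum_const, Finset.card_univ,
      nsmul_eq_mul, Finset.sum_add_distrib, Finset.sum_const, ← hxc v hrv.symm, nsmul_eq_mul] at t
    have a1 := he2 (G.neighborFinset r)
    have a2 := he2 (G.neighborFinset v)
    linarith
  · intro α β K W hα hK hLI hg
    have key : ∀ u, u ≠ r → ∀ p : ℕ, 1 ≤ p →
        (x u : ℝ) * (x u - 1) * (p + ∑ w ∈ ch u, (x w : ℝ)) / 2 - β * sR (x u) -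
          α * (((p + ∑ w ∈ ch u, (x w : ℝ)) ^ 2 - (p ^ 2 + ∑ w ∈ ch u, (x w : ℝ) ^ 2)) / 2) ≤
        (W p (x u) - p * (p - 1) / 2 * x u) -
          ∑ w ∈ ch u, (W (x (par w)) (x w) - (x (par w) : ℝ) * (x (par w) - 1) / 2 * x w) := by
      intro u hu p hp
      have e : ∑ w ∈ ch u, (W (x (par w)) (x w) - (x (par w) : ℝ) * (x (par w) - 1) / 2 * x w) =
          ∑ w ∈ ch u, W (x u) (x w) - (x u : ℝ) * (x u - 1) / 2 * ∑ w ∈ ch u, (x w : ℝ) := by
        rw [Finset.mul_sum, ← Finset.sum_sub_distrib]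
        exact Finset.sum_congr rfl fun w hw => by rw [((hch u w).1 hw).2]
      rw [e]
      rcases Nat.eq_zero_or_pos (x u) with h0 | h0
      · have : ch u = ∅ := Finset.card_eq_zero.1 (by rw [← hxc u hu, h0])
        rw [this, h0, hLI.1]
        simp [sR]
      · have := LI_finset hLI (ch u) x hp (by rw [← hxc u hu]; exact h0)
        rw [← hxc u hu] at this
        unfold yR at this
        linarith
    have t := telescope hrv hpv hch hr
      (fun c => (x c : ℝ) * (x c - 1) * (∑ b ∈ G.neighborFinset c, (x b : ℝ)) / 2 - β * sR (x c) -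
        α * (((∑ b ∈ G.neighborFinset c, (x b : ℝ)) ^ 2 -
          ∑ b ∈ G.neighborFinset c, (x b : ℝ) ^ 2) / 2))
      (fun w => W (x (par w)) (x w) - (x (par w) : ℝ) * (x (par w) - 1) / 2 * x w) (by
        intro u hu hv
        rw [hs1 u hu, hs2 u hu]
        exact key u hu _ (hp1 u hu hv))
    rw [Finset.sum_sub_distrib, Finset.sum_sub_distrib, ← Finset.sum_div, ← cY, ← Finset.mul_sum,
      ← cS', ← Finset.mul_sum, ← Finset.sum_div, ← cP, hs1 v hrv.symm, hs2 v hrv.symm, hpv, hxr,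
      hNr, Finset.sum_singleton, Finset.sum_singleton] at t
    have k1 := key v hrv.symm 1 le_rfl
    have hs0 : sR 0 = 0 := by simp [sR]
    rw [hs0] at t
    have k2 : W 1 (x v) ≤ yR 1 (x v) + K * (1 + x v) := by
      rcases Nat.eq_zero_or_pos (x v) with h0 | h0
      · rw [h0, hLI.1]; simp [yR, hK]
      · exact hg _ h0
    unfold yR at k2
    have k3 := mul_nonneg hK (hsn (ch v))
    have k4 : 0 ≤ α * (x v : ℝ) := mul_nonneg hα (Nat.cast_nonneg _)
    push_cast at t k1 k2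
    linarith

theorem Z_tendsto {n : ℕ → ℕ} {G : ∀ k, SimpleGraph (Fin (n k))} (hG : ∀ k, (G k).IsTree)
    (hn : Tendsto n atTop atTop) : Tendsto (fun k => Ztot (G k)) atTop atTop := by
  have h1 : Tendsto (fun k => ((n k : ℝ) - 50) / 2) atTop atTop :=
    Tendsto.atTop_div_const (by norm_num)
      (tendsto_atTop_add_const_right _ _ (tendsto_natCast_atTop_atTop.comp hn))
  refine tendsto_atTop_mono' _ ?_ h1
  filter_upwards [hn.eventually_ge_atTop 2] with k hk
  have : Nontrivial (Fin (n k)) := Fin.nontrivial_iff_two_le.2 hk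
  obtain ⟨L, a1, a2, _⟩ := root_facts (hG k)
  have a3 := a1 1 le_rfl
  rw [Fintype.card_fin] at a2
  unfold Ztot
  have : (0:ℝ) ≤ (G k).copyCount T1 := Nat.cast_nonneg _
  have : (0:ℝ) ≤ (G k).copyCount T3 := Nat.cast_nonneg _
  push_cast at a3
  linarith

theorem delta_simplex {p : ℝ × ℝ × ℝ} (hp : p ∈ Delta) :
    0 ≤ p.1 ∧ 0 ≤ p.2.1 ∧ 0 ≤ p.2.2 ∧ p.1 + p.2.1 + p.2.2 = 1 := by
  obtain ⟨n, G, hG, hn, ht⟩ := hp
  have t1 := (continuous_fst.tendsto p).comp ht
  have t2 := (continuous_snd.fst.tendsto p).comp ht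
  have t3 := (continuous_snd.snd.tendsto p).comp ht
  have hZ : ∀ k, 0 ≤ Ztot (G k) := fun k => by unfold Ztot; positivity
  refine ⟨ge_of_tendsto' t1 fun k => div_nonneg (Nat.cast_nonneg _) (hZ k),
    ge_of_tendsto' t2 fun k => div_nonneg (Nat.cast_nonneg _) (hZ k),
    ge_of_tendsto' t3 fun k => div_nonneg (Nat.cast_nonneg _) (hZ k), ?_⟩
  refine tendsto_nhds_unique ((t1.add t2).add t3) (tendsto_const_nhds.congr' ?_)
  filter_upwards [(Z_tendsto hG hn).eventually_gt_atTop 0] with k hk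
  simp only [Function.comp, profile]
  rw [← add_div, ← add_div]
  exact (div_self hk.ne').symm

/-- The inequality Y ≤ α P + β S holds in the limit. -/
def Good (α β : ℝ) : Prop := ∀ p ∈ Delta, p.2.2 ≤ α * p.1 + β * p.2.1

theorem good_of_pot {α β : ℝ} (hα : 0 ≤ α) (h : Pot α β) : Good α β := by
  obtain ⟨W, hLI, K, hK, hg⟩ := h
  rintro p ⟨n, G, hG, hn, ht⟩
  have t1 := (continuous_fst.tendsto p).comp ht
  have t2 := (continuous_snd.fst.tendsto p).comp ht
  have t3 := (continuous_snd.snd.tendsto p).comp ht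
  refine le_of_forall_pos_le_add fun ε hε => ?_
  obtain ⟨m, hm⟩ := exists_nat_gt (2 * (K + α) / ε + 1)
  have hq : 0 ≤ 2 * (K + α) / ε := by positivity
  have hm1 : 1 ≤ m := by exact_mod_cast (show (1:ℝ) ≤ m by linarith)
  have hmR : (0:ℝ) < m := by linarith
  have hme : (K + α) * (2 / m) ≤ ε := by
    have : 2 * (K + α) / ε ≤ m := by linarith
    rw [div_le_iff₀ hε] at this
    rw [← mul_div_assoc, div_le_iff₀ hmR]
    linarith
  set K' := K + (K + α) * (3 * (3 * m + 1) ^ 2 * m) with hK'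
  have t4 : Tendsto (fun k => K' / Ztot (G k)) atTop (𝓝 0) :=
    tendsto_const_nhds.div_atTop (Z_tendsto hG hn)
  have t5 := (((t1.const_mul α).add (t2.const_mul β)).add t4).add_const ε
  rw [add_zero] at t5
  refine le_of_tendsto_of_tendsto t3 t5 ?_
  filter_upwards [(Z_tendsto hG hn).eventually_gt_atTop 0, hn.eventually_ge_atTop 2] with k hk hk2
  have : Nontrivial (Fin (n k)) := Fin.nontrivial_iff_two_le.2 hk2
  obtain ⟨L, a1, _, a3⟩ := root_facts (hG k)
  have a4 := a3 α β K W hα hK hLI hg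
  have a5 := mul_le_mul_of_nonneg_left (a1 m hm1) (show 0 ≤ K + α by linarith)
  have a6 : ((G k).copyCount T2 : ℝ) ≤ Ztot (G k) := by
    unfold Ztot
    have : (0:ℝ) ≤ (G k).copyCount T1 := Nat.cast_nonneg _
    have : (0:ℝ) ≤ (G k).copyCount T3 := Nat.cast_nonneg _
    linarith
  have a7 := mul_le_mul hme a6 (Nat.cast_nonneg _) hε.le
  have a8 : (K + α) * (2 * ((G k).copyCount T2 : ℝ) / m) =
    (K + α) * (2 / m) * ((G k).copyCount T2 : ℝ) := by ring
  simp only [Function.comp, profile]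
  rw [div_le_iff₀ hk]
  have a9 : (α * (((G k).copyCount T1 : ℝ) / Ztot (G k)) +
      β * (((G k).copyCount T2 : ℝ) / Ztot (G k)) + K' / Ztot (G k) + ε) * Ztot (G k) =
      α * (G k).copyCount T1 + β * (G k).copyCount T2 + K' + ε * Ztot (G k) := by
    field_simp
  rw [a9]
  linarith

end Pool.Agent.Prof5
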