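import Pool.Agent.Lib.MP_ed556a_co.Faces0
import Pool.Agent.Lib.MP_ed556a_co.Faces1
import Pool.Agent.Lib.MP_ed556a_co.Faces2
import Pool.Agent.Lib.MP_ed556a_co.Faces3
import Pool.Agent.Lib.MP_ed556a_co.Faces4
import Pool.Agent.Lib.MP_ed556a_co.Faces5
import Pool.Agent.Lib.MP_ed556a_co.Faces6
import Pool.Agent.Lib.MP_ed556a_co.Sym
import Pool.Agent.Lib.MP_ed556a_co.Tele
import Pool.Agent.Lib.MP_ed556a_co.Lower

/-! Every limit point lies in the closed convex hull. -/

namespace Pool.Agent.Prof5

theorem Good.mono {α β α' β' : ℝ} (h : Good α β) (h1 : α ≤ α') (h2 : β ≤ β') : Good α' β' := by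
  intro p hp
  obtain ⟨a1, a2, -, -⟩ := delta_simplex hp
  have := h p hp
  have := mul_le_mul_of_nonneg_right h1 a1
  have := mul_le_mul_of_nonneg_right h2 a2
  linarith

theorem Good.between {α1 β1 α2 β2 α β : ℝ} (P S Y : ℝ) (g1 : Pot α1 β1) (g2 : Pot α2 β2)
    (h0 : 0 ≤ α1) (h12 : α1 < α2) (h1 : α1 ≤ α) (h2 : α ≤ α2) (hS : 0 < S)
    (e1 : α1 * P + β1 * S = Y) (e2 : α2 * P + β2 * S = Y) (hf : Y ≤ α * P + β * S) :
    Good α β := by
  have k1 := good_of_pot h0 g1
  have k2 := good_of_pot (by linarith) g2
  obtain ⟨t, ht0, ht1, rfl⟩ : ∃ t : ℝ, 0 ≤ t ∧ t ≤ 1 ∧ α = (1 - t) * α1 + t * α2 := by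
    refine ⟨(α - α1) / (α2 - α1), div_nonneg (by linarith) (by linarith),
      (div_le_one (by linarith)).2 (by linarith), ?_⟩
    have : α2 - α1 ≠ 0 := by linarith
    field_simp; ring
  have hb : (1 - t) * β1 + t * β2 ≤ β := by
    have : ((1 - t) * β1 + t * β2) * S ≤ β * S := by
      have a1 : (1 - t) * (α1 * P + β1 * S) = (1 - t) * Y := by rw [e1]
      have a2 : t * (α2 * P + β2 * S) = t * Y := by rw [e2]
      linarith
    exact le_of_mul_le_mul_right this hS
  refine Good.mono (β := (1 - t) * β1 + t * β2) (fun p hp => ?_) le_rfl hb
  have a1 := mul_le_mul_of_nonneg_left (k1 p hp) (show 0 ≤ 1 - t by linarith)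
  have a2 := mul_le_mul_of_nonneg_left (k2 p hp) ht0
  linarith

theorem good_of_feas {α β : ℝ} (hβ : 0 ≤ β)
    (f0 : (4 : ℝ) ≤ α * 4 + β * 0)
    (f1 : (18 : ℝ) ≤ α * 9 + β * 1)
    (f2 : (48 : ℝ) ≤ α * 16 + β * 5)
    (f3 : (252 : ℝ) ≤ α * 58 + β * 40)
    (f4 : (152 : ℝ) ≤ α * 34 + β * 25)
    (f5 : (384 : ℝ) ≤ α * 67 + β * (161 / 2))
    (f6 : (286 : ℝ) ≤ α * 45 + β * (131 / 2))
    (f7 : (366 : ℝ) ≤ α * 46 + β * (201 / 2))
    (f8 : (427 : ℝ) ≤ α * 52 + β * (241 / 2))
    (f9 : (597 : ℝ) ≤ α * 59 + β * (393 / 2))
    (f10 : (909 : ℝ) ≤ α * 74 + β * (701 / 2))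
    (f11 : (1077 : ℝ) ≤ α * 75 + β * (941 / 2))
    (H : ∀ a : ℕ, 8 ≤ a → HH α β a) : Good α β := by
  have c0 : ((1 / 1) : ℝ) ≤ α := by linarith
  rcases le_total α (42 / 29) with d | c1
  · exact Good.between 9 1 18 pot0 pot1 (by norm_num) (by norm_num) c0 d
      (by norm_num) (by norm_num) (by norm_num) f1
  rcases le_total α (66 / 35) with d | c2
  · exact Good.between 16 5 48 pot1 pot2 (by norm_num) (by norm_num) c1 d
      (by norm_num) (by norm_num) (by norm_num) f2
  rcases le_total α (22 / 9) with d | c3
  · exact Good.between 58 40 252 pot2 pot3 (by norm_num) (by norm_num) c2 d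
      (by norm_num) (by norm_num) (by norm_num) f3
  rcases le_total α (1318 / 531) with d | c4
  · exact Good.between 34 25 152 pot3 pot4 (by norm_num) (by norm_num) c3 d
      (by norm_num) (by norm_num) (by norm_num) f4
  rcases le_total α (2129 / 766) with d | c5
  · exact Good.between 67 (161 / 2) 384 pot4 pot5 (by norm_num) (by norm_num) c4 d
      (by norm_num) (by norm_num) (by norm_num) f5
  rcases le_total α (9540 / 3019) with d | c6
  · exact Good.between 45 (131 / 2) 286 pot5 pot6 (by norm_num) (by norm_num) c5 d
      (by norm_num) (by norm_num) (by norm_num) f6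
  rcases le_total α (2379 / 634) with d | c7
  · exact Good.between 46 (201 / 2) 366 pot6 pot7 (by norm_num) (by norm_num) c6 d
      (by norm_num) (by norm_num) (by norm_num) f7
  rcases le_total α (23934 / 6217) with d | c8
  · exact Good.between 52 (241 / 2) 427 pot7 pot8 (by norm_num) (by norm_num) c7 d
      (by norm_num) (by norm_num) (by norm_num) f8
  rcases le_total α (61260 / 12277) with d | c9
  · exact Good.between 59 (393 / 2) 597 pot8 pot9 (by norm_num) (by norm_num) c8 d
      (by norm_num) (by norm_num) (by norm_num) f9
  rcases le_total α (100392 / 17059) with d | c10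
  · exact Good.between 74 (701 / 2) 909 pot9 pot10 (by norm_num) (by norm_num) c9 d
      (by norm_num) (by norm_num) (by norm_num) f10
  rcases le_total α (2203 / 350) with d | c11
  · exact Good.between 75 (941 / 2) 1077 pot10 pot11 (by norm_num) (by norm_num) c10 d
      (by norm_num) (by norm_num) (by norm_num) f11
  rcases le_total α (28456 / 3695) with d | c12
  · exact Good.between 25 (505 / 2) 482 pot11 pot12 (by norm_num) (by norm_num) c11 d
      (by norm_num) (by norm_num) (by norm_num) (by
      have := H 8 (by norm_num)
      unfold HH ss at this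
      push_cast at this
      linarith)
  rcases le_total α (111699 / 11278) with d | c13
  · exact Good.between 27 (841 / 2) 690 pot12 pot13 (by norm_num) (by norm_num) c12 d
      (by norm_num) (by norm_num) (by norm_num) (by
      have := H 9 (by norm_num)
      unfold HH ss at this
      push_cast at this
      linarith)
  rcases le_total α (102470 / 8249) with d | c14
  · exact Good.between 29 (1321 / 2) 951 pot13 pot14 (by norm_num) (by norm_num) c13 d
      (by norm_num) (by norm_num) (by norm_num) (by
      have := H 10 (by norm_num)
      unfold HH ss at this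
      push_cast at this
      linarith)
  rcases le_total α (355795 / 23318) with d | c15
  · exact Good.between 31 (1981 / 2) 1271 pot14 pot15 (by norm_num) (by norm_num) c14 d
      (by norm_num) (by norm_num) (by norm_num) (by
      have := H 11 (by norm_num)
      unfold HH ss at this
      push_cast at this
      linarith)
  rcases le_total α (294924 / 16015) with d | c16
  · exact Good.between 33 (2861 / 2) 1656 pot15 pot16 (by norm_num) (by norm_num) c15 d
      (by norm_num) (by norm_num) (by norm_num) (by
      have := H 12 (by norm_num)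
      unfold HH ss at this
      push_cast at this
      linarith)
  rcases le_total α (940407 / 42950) with d | c17
  · exact Good.between 35 (4005 / 2) 2112 pot16 pot17 (by norm_num) (by norm_num) c16 d
      (by norm_num) (by norm_num) (by norm_num) (by
      have := H 13 (by norm_num)
      unfold HH ss at this
      push_cast at this
      linarith)
  rcases le_total α (241654 / 9403) with d | c18
  · exact Good.between 37 (5461 / 2) 2645 pot17 pot18 (by norm_num) (by norm_num) c17 d
      (by norm_num) (by norm_num) (by norm_num) (by
      have := H 14 (by norm_num)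
      unfold HH ss at this
      push_cast at this
      linarith)
  rcases le_total α (723845 / 24266) with d | c19
  · exact Good.between 39 (7281 / 2) 3261 pot18 pot19 (by norm_num) (by norm_num) c18 d
      (by norm_num) (by norm_num) (by norm_num) (by
      have := H 15 (by norm_num)
      unfold HH ss at this
      push_cast at this
      linarith)
  rcases le_total α (1585360 / 46239) with d | c20
  · exact Good.between 41 (9521 / 2) 3966 pot19 pot20 (by norm_num) (by norm_num) c19 d
      (by norm_num) (by norm_num) (by norm_num) (by
      have := H 16 (by norm_num)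
      unfold HH ss at this
      push_cast at this
      linarith)
  rcases le_total α (4527083 / 115870) with d | c21
  · exact Good.between 43 (12241 / 2) 4766 pot20 pot21 (by norm_num) (by norm_num) c20 d
      (by norm_num) (by norm_num) (by norm_num) (by
      have := H 17 (by norm_num)
      unfold HH ss at this
      push_cast at this
      linarith)
  rcases le_total α (3168126 / 71705) with d | c22
  · exact Good.between 45 (15505 / 2) 5667 pot21 pot22 (by norm_num) (by norm_num) c21 d
      (by norm_num) (by norm_num) (by norm_num) (by
      have := H 18 (by norm_num)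
      unfold HH ss at this
      push_cast at this
      linarith)
  rcases le_total α (8711899 / 175558) with d | c23
  · exact Good.between 47 (19381 / 2) 6675 pot22 pot23 (by norm_num) (by norm_num) c22 d
      (by norm_num) (by norm_num) (by norm_num) (by
      have := H 19 (by norm_num)
      unfold HH ss at this
      push_cast at this
      linarith)
  rcases le_total α (5893940 / 106399) with d | c24
  · exact Good.between 49 (23941 / 2) 7796 pot23 pot24 (by norm_num) (by norm_num) c23 d
      (by norm_num) (by norm_num) (by norm_num) (by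
      have := H 20 (by norm_num)
      unfold HH ss at this
      push_cast at this
      linarith)
  rcases le_total α (15720495 / 255638) with d | c25
  · exact Good.between 51 (29261 / 2) 9036 pot24 pot25 (by norm_num) (by norm_num) c24 d
      (by norm_num) (by norm_num) (by norm_num) (by
      have := H 21 (by norm_num)
      unfold HH ss at this
      push_cast at this
      linarith)
  rcases le_total α (10345434 / 152305) with d | c26
  · exact Good.between 53 (35421 / 2) 10401 pot25 pot26 (by norm_num) (by norm_num) c25 d
      (by norm_num) (by norm_num) (by norm_num) (by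
      have := H 22 (by norm_num)
      unfold HH ss at this
      push_cast at this
      linarith)
  rcases le_total α (8969149 / 120090) with d | c27
  · exact Good.between 55 (42505 / 2) 11897 pot26 pot27 (by norm_num) (by norm_num) c26 d
      (by norm_num) (by norm_num) (by norm_num) (by
      have := H 23 (by norm_num)
      unfold HH ss at this
      push_cast at this
      linarith)
  rcases le_total α (5768104 / 70533) with d | c28
  · exact Good.between 57 (50601 / 2) 13530 pot27 pot28 (by norm_num) (by norm_num) c27 d
      (by norm_num) (by norm_num) (by norm_num) (by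
      have := H 24 (by norm_num)
      unfold HH ss at this
      push_cast at this
      linarith)
  rcases le_total α (44065475 / 493998) with d | c29
  · exact Good.between 59 (59801 / 2) 15306 pot28 pot29 (by norm_num) (by norm_num) c28 d
      (by norm_num) (by norm_num) (by norm_num) (by
      have := H 25 (by norm_num)
      unfold HH ss at this
      push_cast at this
      linarith)
  rcases le_total α (27792310 / 286649) with d | c30
  · exact Good.between 61 (70201 / 2) 17231 pot29 pot30 (by norm_num) (by norm_num) c29 d
      (by norm_num) (by norm_num) (by norm_num) (by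
      have := H 26 (by norm_num)
      unfold HH ss at this
      push_cast at this
      linarith)
  rcases le_total α (69511203 / 661750) with d | c31
  · exact Good.between 63 (81901 / 2) 19311 pot30 pot31 (by norm_num) (by norm_num) c30 d
      (by norm_num) (by norm_num) (by norm_num) (by
      have := H 27 (by norm_num)
      unfold HH ss at this
      push_cast at this
      linarith)
  rcases le_total β (102561 / 330875) with d | d
  · exact good_of_pot (by linarith) (pot_large (by linarith) hβ (by linarith) H)
  · exact (good_of_pot (by norm_num) pot31).mono c31 d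

theorem upper : PathStarSet ⊆ closedConvexHull ℝ verts := by
  rintro _ ⟨p, hp, rfl⟩
  by_contra hn
  obtain ⟨f, u, h1, h2⟩ :=
    geometric_hahn_banach_point_closed convex_closedConvexHull isClosed_closedConvexHull hn
  have hf : ∀ x y : ℝ, f (x, y) = x * f (1, 0) + y * f (0, 1) := by
    intro x y
    have : ((x, y) : ℝ × ℝ) = x • (1, 0) + y • (0, 1) := by simp
    rw [this, map_add, map_smul, map_smul]; rfl
  have h3 : ∀ q ∈ verts, u < f q := fun q hq => h2 q (subset_closedConvexHull hq)
  have ha := h3 (1, 0) (by simp [verts])
  have hb := h3 (0, 1) (by simp [verts])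
  obtain ⟨a1, a2, a3, a4⟩ := delta_simplex hp
  rw [hf] at h1
  set a := f (1, 0)
  set b := f (0, 1)
  have k1 : (a - u) * p.1 + (b - u) * p.2.1 < u * p.2.2 := by
    have : u * (p.1 + p.2.1 + p.2.2) = u := by rw [a4, mul_one]
    linarith
  have k2 := mul_nonneg (show 0 ≤ a - u by linarith) a1
  have k3 := mul_nonneg (show 0 ≤ b - u by linarith) a2
  have hu : 0 < u := by
    by_contra hu
    have := mul_nonpos_of_nonpos_of_nonneg (not_lt.1 hu) a3
    linarith
  have key : ∀ P S Y : ℝ, 0 < P + S + Y → pt P S Y ∈ verts →
      Y ≤ (a - u) / u * P + (b - u) / u * S := by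
    intro P S Y hZ hq
    have e1 := h3 _ hq
    unfold pt at e1
    rw [hf, div_mul_eq_mul_div, div_mul_eq_mul_div, ← add_div, lt_div_iff₀ hZ] at e1
    rw [div_mul_eq_mul_div, div_mul_eq_mul_div, ← add_div, le_div_iff₀ hu]
    linarith
  have g := good_of_feas (α := (a - u) / u) (β := (b - u) / u) (div_nonneg (by linarith) hu.le)
    (key _ _ _ (by norm_num) (by simp [verts]))
    (key _ _ _ (by norm_num) (by simp [verts]))
    (key _ _ _ (by norm_num) (by simp [verts]))
    (key _ _ _ (by norm_num) (by simp [verts]))
    (key _ _ _ (by norm_num) (by simp [verts]))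
    (key _ _ _ (by norm_num) (by simp [verts]))
    (key _ _ _ (by norm_num) (by simp [verts]))
    (key _ _ _ (by norm_num) (by simp [verts]))
    (key _ _ _ (by norm_num) (by simp [verts]))
    (key _ _ _ (by norm_num) (by simp [verts]))
    (key _ _ _ (by norm_num) (by simp [verts]))
    (key _ _ _ (by norm_num) (by simp [verts]))
    (fun c hc => by
      have hc' : (8:ℝ) ≤ c := by exact_mod_cast hc
      have h0 : (0:ℝ) ≤ (c:ℝ) - 1 := by linarith
      have := key _ _ _ (by positivity) (Or.inr ⟨c, hc, rfl⟩)
      rw [choose4] at this
      exact this) p hp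
  rw [div_mul_eq_mul_div, div_mul_eq_mul_div, ← add_div, le_div_iff₀ hu] at g
  linarith

end Pool.Agent.Prof5
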